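import Pool.Agent.P.MP_6277db_ag.KEW.L8b.Geo1

/-!
KEW project, layer L8b: effectivity of pairs, on rings.
-/

namespace KEW

universe u

open Polynomial

/-- Axioms for a property `Q n a I` of the `n`-fold twisted object attached to the pair
`(Spec R, Spec R - V(I))`. -/
structure PairTh (F : Type u) [CommRing F] (r : ℕ)
    (Q : ℕ → ∀ {R : Type u} [CommRing R], (F →+* R) → Ideal R → Prop) : Prop where
  base : ∀ (n : ℕ) {R : Type u} [CommRing R] (a : F →+* R), EP a → r ≤ n → Q n a ⊥
  top : ∀ (n : ℕ) {R : Type u} [CommRing R] (a : F →+* R), EP a → Q n a ⊤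
  rad : ∀ (n : ℕ) {R : Type u} [CommRing R] (a : F →+* R) (I J : Ideal R), EP a →
    I.radical = J.radical → Q n a I → Q n a J
  loc1 : ∀ (n : ℕ) {R S : Type u} [CommRing R] [CommRing S] (a : F →+* R) (I : Ideal R) (f : R)
    (l : R →+* S), EP a → IsAway l f → Q n (l.comp a) (I.map l) → Q n a (I ⊔ Ideal.span {f}) →
    Q n a I
  loc2 : ∀ (n : ℕ) {R S : Type u} [CommRing R] [CommRing S] (a : F →+* R) (I : Ideal R) (f : R)
    (l : R →+* S), EP a → IsAway l f → Q n (l.comp a) (I.map l) → Q n a I →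
    Q n a (I ⊔ Ideal.span {f})
  ee : ∀ (n : ℕ) {R S : Type u} [CommRing R] [CommRing S] (a : F →+* R) (I : Ideal R)
    (φ : R →+* S), EP a → EE I φ → (Q n (φ.comp a) (I.map φ) ↔ Q n a I)
  susp : ∀ (n : ℕ) {R : Type u} [CommRing R] (a : F →+* R) (I : Ideal R), EP a → Q (n + 1) a I →
    Q n ((C : R →+* R[X]).comp a) (I.map C ⊔ Ideal.span {X})

/-- The residue fields of the points of `V(I)` have transcendence degree at most `e`. -/
def TD {F R : Type u} [CommRing F] [CommRing R] (a : F →+* R) (I : Ideal R) (e : ℕ) : Prop :=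
  ∀ (K : Type u) [Field K] (x : R →+* K), I ≤ RingHom.ker x → ∀ y : Fin (e + 1) → K,
    (∀ i, y i ∈ Subfield.closure (Set.range x)) →
    ¬@AlgebraicIndependent _ F K y _ _ (x.comp a).toAlgebra

variable {F R S : Type u} [CommRing R] [CommRing S]

theorem TD.map [CommRing F] {a : F →+* R} {I : Ideal R} {e : ℕ} (h : TD a I e) (l : R →+* S)
    {J : Ideal S} (hJ : I.map l ≤ J) (hl : ∀ s : S, ∃ b c : R, IsUnit (l c) ∧ s * l c = l b) :
    TD (l.comp a) J e := by
  intro K _ x hx y hy
  refine h K (x.comp l) (fun t ht => hx (hJ (Ideal.mem_map_of_mem l ht))) y fun i => ?_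
  refine (Subfield.closure_le.2 ?_ : _ ≤ Subfield.closure (Set.range (x.comp l))) (hy i)
  rintro _ ⟨s, rfl⟩
  obtain ⟨b, c, hc, hs⟩ := hl s
  have : x s = x (l b) / x (l c) := by
    rw [eq_div_iff (hc.map x).ne_zero, ← map_mul, hs]
  rw [this]
  exact div_mem (Subfield.subset_closure ⟨b, rfl⟩) (Subfield.subset_closure ⟨c, rfl⟩)

theorem geo_ee_mono {I J : Ideal R} {φ : R →+* S} (h : EE I φ) (hIJ : I ≤ J) : EE J φ := by
  have key : ∀ y ∈ J.map φ, ∃ j ∈ J, y - φ j ∈ I.map φ := by
    intro y hy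
    refine Submodule.span_induction ?_ ⟨0, J.zero_mem, by simp⟩ ?_ ?_ hy
    · rintro _ ⟨j, hj, rfl⟩
      exact ⟨j, hj, by simp⟩
    · rintro y z - - ⟨j, hj, h1⟩ ⟨k, hk, h2⟩
      exact ⟨j + k, J.add_mem hj hk, by rw [map_add, add_sub_add_comm]; exact add_mem h1 h2⟩
    · rintro s y - ⟨j, hj, h1⟩
      obtain ⟨c, hc⟩ := h.surj s
      refine ⟨c * j, J.mul_mem_left c hj, ?_⟩
      have : s • y - φ (c * j) = s * (y - φ j) + (s - φ c) * φ j := by
        rw [smul_eq_mul, map_mul]
        ring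
      rw [this]
      exact add_mem (Ideal.mul_mem_left _ _ h1) (Ideal.mul_mem_right _ _ hc)
  refine ⟨h.etale, fun y => (h.surj y).imp fun x hx => Ideal.map_mono hIJ hx, fun x hx => ?_⟩
  obtain ⟨j, hj, h1⟩ := key _ hx
  rw [← map_sub] at h1
  simpa using J.add_mem (hIJ (h.inj _ h1)) hj

variable {r : ℕ}

theorem PairTh.eff_list [CommRing F]
    {Q : ℕ → ∀ {R : Type u} [CommRing R], (F →+* R) → Ideal R → Prop} (h : PairTh F r Q)
    {n : ℕ} (hn : r ≤ n) (m : ℕ) : ∀ {R : Type u} [CommRing R] (a : F →+* R)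
    (s : List R), s.length = m → EP a → Q n a (Ideal.ofList s) := by
  induction m with
  | zero =>
    intro R _ a s hs ha
    rw [List.length_eq_zero_iff.1 hs, Ideal.ofList_nil]
    exact h.base n a ha hn
  | succ m ih =>
    intro R _ a s hs ha
    obtain ⟨f, t, rfl⟩ := List.exists_cons_of_length_eq_add_one hs
    have hl : IsAway (algebraMap R (Localization.Away f)) f := geo_isAway f
    rw [Ideal.ofList_cons, sup_comm]
    refine h.loc2 n a _ f _ ha hl ?_ (ih a t (by simpa using hs) ha)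
    rw [Ideal.map_ofList]
    exact ih _ _ (by simpa using hs) (geo_ep_comp ha (geo_away hl))

/-- One step: a closed set inside the zero locus of a coordinate. -/
theorem PairTh.eff_hyp [CommRing F]
    {Q : ℕ → ∀ {R : Type u} [CommRing R], (F →+* R) → Ideal R → Prop} (h : PairTh F r Q)
    {n : ℕ} {b : F →+* S} {ψ : S →+* R} {t : R} (hb : EP b) (ha : EP (ψ.comp b))
    (ht : Et1 ψ t) {I : Ideal R} (hI : t ∈ I)
    (H : Q (n + 1) ((Ideal.Quotient.mk (Ideal.span {t})).comp (ψ.comp b))
      (I.map (Ideal.Quotient.mk (Ideal.span {t})))) : Q n (ψ.comp b) I := by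
  obtain ⟨T, _, i, j, hi, hj, hX, hc, hij⟩ := geo_zigzag ht
  have hH : EP ((Ideal.Quotient.mk (Ideal.span {t})).comp (ψ.comp b)) :=
    geo_ep_comp hb (geo_hyp ht)
  have h1 := (h.ee n _ _ j (geo_ep_C hH) (geo_ee_mono hj le_sup_right)).2 (h.susp n _ _ hH H)
  refine (h.ee n _ I i ha (geo_ee_mono hi ((Ideal.span_singleton_le_iff_mem _).2 hI))).1 ?_
  have ht' : Ideal.span {i t} ≤ I.map i :=
    (Ideal.span_singleton_le_iff_mem _).2 (Ideal.mem_map_of_mem i hI)
  convert h1 using 1
  · exact congrArg (fun g : S →+* T => g.comp b) hc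
  · rw [Ideal.map_sup, Ideal.map_span j, Set.image_singleton, hX, Ideal.map_map, Ideal.map_map]
    refine le_antisymm (Ideal.map_le_iff_le_comap.2 fun x hx => ?_)
      (sup_le (Ideal.map_le_iff_le_comap.2 fun x hx => ?_) ht')
    · have := Ideal.add_mem _ (Ideal.mem_sup_left (Ideal.mem_map_of_mem
        ((j.comp C).comp (Ideal.Quotient.mk _)) hx)) (Ideal.mem_sup_right (hij x))
      simpa using this
    · have := Ideal.sub_mem _ (Ideal.mem_map_of_mem i hx) (ht' (hij x))
      simpa using this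

/-- Effectivity. -/
theorem PairTh.eff [Field F] [PerfectField F]
    {Q : ℕ → ∀ {R : Type u} [CommRing R], (F →+* R) → Ideal R → Prop} (h : PairTh F r Q) (e k : ℕ) :
    ∀ (n D : ℕ) {R : Type u} [CommRing R] (a : F →+* R) (x : Fin D → R) (I : Ideal R),
      r ≤ n + k → e + k ≤ D → EtN a x → TD a I e → Q n a I := by
  induction k with
  | zero =>
    intro n D R _ a x I hn _ hx _
    have := geo_noeth ⟨D, x, hx⟩
    obtain ⟨s, rfl⟩ := (IsNoetherian.noetherian I : I.FG)
    have := h.eff_list hn _ a s.toList rfl ⟨D, x, hx⟩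
    rwa [Ideal.ofList, show {r | r ∈ s.toList} = (s : Set R) from by ext; simp] at this
  | succ k ih =>
    intro n D R _ a x I hn hD hx
    have ha : EP a := ⟨D, x, hx⟩
    have := geo_noeth ha
    induction I using IsNoetherian.induction with
    | hgt I ihI =>
    intro hI
    by_cases hT : I = ⊤
    · exact hT ▸ h.top n a ha
    obtain ⟨D, rfl⟩ : ∃ D', D = D' + 1 := ⟨D - 1, by omega⟩
    obtain ⟨p, hp⟩ := Ideal.nonempty_minimalPrimes hT
    have hpp : p.IsPrime := hp.1.1
    let K := p.ResidueField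
    let z : R →+* K := algebraMap R K
    have hz : RingHom.ker z = p := Ideal.ker_algebraMap_residueField p
    let := (z.comp a).toAlgebra
    have hdep : ¬AlgebraicIndependent F fun j => z (x j) := fun hi =>
      have hle : e + 1 ≤ D + 1 := by omega
      hI K z (hp.1.2.trans hz.ge) (fun j => z (x (Fin.castLE hle j)))
        (fun j => Subfield.subset_closure ⟨_, rfl⟩) (hi.comp _ (Fin.castLE_injective hle))
    obtain ⟨P, i, hP, hP'⟩ := geo_dt _ hdep
    have hev : ∀ W, MvPolynomial.aeval (fun j => z (x j)) W = z (MvPolynomial.eval₂Hom a x W) :=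
      fun W => by rw [MvPolynomial.map_eval₂Hom]; rfl
    rw [hev, ← RingHom.mem_ker, hz] at hP
    rw [hev, Ne, ← RingHom.mem_ker, hz] at hP'
    obtain ⟨s, hs, hst⟩ := geo_minprime hp hP
    set t := MvPolynomial.eval₂Hom a x P
    set d := MvPolynomial.eval₂Hom a x (MvPolynomial.pderiv i P)
    have hf : s * d ∉ p := fun hc => (hpp.mem_or_mem hc).elim hs hP'
    let S := Localization.Away (s * d)
    let l : R →+* S := algebraMap R S
    have hl : IsAway l (s * d) := geo_isAway _
    have hu : IsUnit (l s * l d) := map_mul l s d ▸ IsLocalization.Away.algebraMap_isUnit (s * d)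
    refine h.loc1 n a I (s * d) l ha hl ?_ (ihI _ (left_lt_sup.2 fun hc => hf (hp.1.2
      ((Ideal.span_singleton_le_iff_mem _).1 hc))) fun K _ w hw => hI K w (le_sup_left.trans hw))
    have hx' := (geo_etN_iff i _ _).1 (geo_etN_comp hx (geo_away hl))
    set ψ := MvPolynomial.eval₂Hom (l.comp a) fun j => l (x (i.succAbove j)) with hψ
    have hsp : ∀ W, eval₂ ψ (l (x i)) (geoSplit F i W) = l (MvPolynomial.eval₂Hom a x W) :=
      fun W => (RingHom.congr_fun (geoSplit_eval i (l.comp a) fun j => l (x j)) W).trans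
        (MvPolynomial.map_eval₂Hom _ _ _ _).symm
    have ht := geo_change hx' (geoSplit F i P) (by
      rw [geoSplit_deriv, hsp]
      exact isUnit_of_mul_isUnit_right hu)
    rw [hsp] at ht
    have hla : l.comp a = ψ.comp MvPolynomial.C := (MvPolynomial.eval₂Hom_comp_C _ _).symm
    have hS : EP (l.comp a) := geo_ep_comp ha (geo_away hl)
    refine h.rad n _ (Ideal.map l I ⊔ Ideal.span {l t}) _ hS ?_ ?_
    · refine le_antisymm (Ideal.radical_le_radical_iff.2 (sup_le Ideal.le_radical ?_))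
        (Ideal.radical_mono le_sup_left)
      have h1 := Ideal.map_radical_le (f := l) (Ideal.mem_map_of_mem l hst)
      rw [map_mul, Ideal.unit_mul_mem_iff_mem _ (isUnit_of_mul_isUnit_left hu)] at h1
      exact (Ideal.span_singleton_le_iff_mem _).2 h1
    have hb : EP (MvPolynomial.C : F →+* MvPolynomial (Fin D) F) :=
      ⟨D, MvPolynomial.X, by
        rw [EtN, MvPolynomial.eval₂Hom_C_left, show (MvPolynomial.bind₁ MvPolynomial.X :
          MvPolynomial (Fin D) F →ₐ[F] _) = AlgHom.id _ _ from MvPolynomial.bind₁_X_left]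
        exact RingHom.Etale.of_bijective Function.bijective_id⟩
    rw [hla] at hS ⊢
    refine h.eff_hyp hb hS ht (Ideal.mem_sup_right (Ideal.mem_span_singleton_self _))
      (ih (n + 1) D _ (fun j => Ideal.Quotient.mk _ (l (x (i.succAbove j)))) _ (by omega)
        (by omega) ?_ ?_)
    · have := geo_hyp ht
      rw [hψ, MvPolynomial.comp_eval₂Hom] at this
      rwa [← hla]
    · rw [← hla]
      refine (hI.map l le_sup_left fun y => ?_).map _ le_rfl fun y => ?_
      · obtain ⟨m, b, hb⟩ := IsLocalization.Away.surj (s * d) y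
        exact ⟨b, (s * d) ^ m, by rw [map_pow, map_mul]; exact hu.pow m, by rwa [map_pow]⟩
      · obtain ⟨b, rfl⟩ := Ideal.Quotient.mk_surjective y
        exact ⟨b, 1, isUnit_one.map _, (map_mul _ _ _).symm.trans (congrArg _ (mul_one b))⟩

end KEW
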