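import Pool.Agent.P.MP_6277db_ag.KEW.CA.Defs

/-!
KEW project, layer L8b: etale coordinate changes and the zigzag of etale neighbourhoods of a smooth
hypersurface.
-/

namespace KEW

universe u

open Polynomial

variable {P R S F : Type u} [CommRing P] [CommRing R] [CommRing S]

theorem geo_lift {φ : P →+* R} (h : φ.Etale) {B : Type u} [CommRing B] {J : Ideal B}
    (hJ : J ^ 2 = ⊥) (β : P →+* B) (g : R →+* B ⧸ J)
    (hg : g.comp φ = (Ideal.Quotient.mk J).comp β) :
    ∃! g' : R →+* B, g'.comp φ = β ∧ (Ideal.Quotient.mk J).comp g' = g := by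
  algebraize [φ, β]
  have hb := Algebra.FormallyEtale.comp_bijective P R J hJ
  obtain ⟨g', hg'⟩ := hb.2 ⟨g, fun x => RingHom.congr_fun hg x⟩
  refine ⟨g'.toRingHom, ⟨RingHom.ext fun x => g'.commutes x,
    RingHom.ext fun x => AlgHom.congr_fun hg' x⟩, fun g₂ h₂ => ?_⟩
  have := hb.1 (a₁ := ⟨g₂, fun x => RingHom.congr_fun h₂.1 x⟩) (a₂ := g')
    (AlgHom.ext fun x => (RingHom.congr_fun h₂.2 x).trans (AlgHom.congr_fun hg' x).symm)
  rw [← this]

theorem geo_of_lift {φ : P →+* R} (hfp : φ.FinitePresentation)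
    (H : ∀ (B : Type u) [CommRing B] (J : Ideal B), J ^ 2 = ⊥ → ∀ (β : P →+* B) (g : R →+* B ⧸ J),
      g.comp φ = (Ideal.Quotient.mk J).comp β →
      ∃! g' : R →+* B, g'.comp φ = β ∧ (Ideal.Quotient.mk J).comp g' = g) : φ.Etale := by
  algebraize [φ]
  have : Algebra.FormallyEtale P R := by
    refine Algebra.FormallyEtale.iff_comp_bijective.2 fun B _ _ J hJ => ⟨fun a b hab => ?_, fun g => ?_⟩
    · obtain ⟨g', -, hu⟩ := H B J hJ (algebraMap P B) ((Ideal.Quotient.mkₐ P J).comp a).toRingHom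
        (RingHom.ext fun x => ((Ideal.Quotient.mkₐ P J).comp a).commutes x)
      exact AlgHom.coe_ringHom_injective ((hu a ⟨RingHom.ext a.commutes, rfl⟩).trans
        (hu b ⟨RingHom.ext b.commutes, RingHom.ext fun x => (AlgHom.congr_fun hab x).symm⟩).symm)
    · obtain ⟨g', ⟨h1, h2⟩, -⟩ := H B J hJ (algebraMap P B) g.toRingHom (RingHom.ext g.commutes)
      exact ⟨⟨g', RingHom.congr_fun h1⟩, AlgHom.ext (RingHom.congr_fun h2)⟩
  exact Algebra.Etale.mk

theorem geo_comp {T : Type u} [CommRing T] {f : P →+* R} {g : R →+* T} (hf : f.Etale)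
    (hg : g.Etale) : (g.comp f).Etale := RingHom.Etale.stableUnderComposition f g hf hg

theorem geo_cancel {T : Type u} [CommRing T] {f : P →+* R} {g : R →+* T} (hf : f.Etale)
    (hg : (g.comp f).Etale) : g.Etale := by
  algebraize [f, g, g.comp f]
  exact Algebra.Etale.of_restrictScalars P R T

theorem geo_fp {f : P →+* R} (hf : f.Etale) : f.FinitePresentation := by
  algebraize [f]
  exact Algebra.Etale.finitePresentation

theorem geo_away {l : R →+* S} {r : R} (h : IsAway l r) : l.Etale := by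
  algebraize [l]
  have : IsLocalization.Away r S := h
  exact Algebra.Etale.of_isLocalizationAway r

theorem geo_fp_C : (C : S →+* S[X]).FinitePresentation :=
  RingHom.finitePresentation_algebraMap.2 inferInstance

theorem geo_fp_of_et1 {ψ : S →+* R} {u : R} (h : Et1 ψ u) : ψ.FinitePresentation := by
  have := (geo_fp h).comp geo_fp_C
  rwa [show (eval₂RingHom ψ u).comp C = ψ from RingHom.ext fun _ => eval₂_C _ _] at this

/-- Change of the last coordinate. -/
theorem geo_change {ψ : S →+* R} {u : R} (h : Et1 ψ u) (Q : S[X])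
    (hQ : IsUnit (eval₂ ψ u Q.derivative)) : Et1 ψ (eval₂ ψ u Q) := by
  have hev : ∀ {B : Type u} [CommRing B] (g : R →+* B) (W : S[X]),
      g (eval₂ ψ u W) = eval (g u) (W.map (g.comp ψ)) := fun g W => by
    rw [hom_eval₂, eval_map]
  refine geo_of_lift ?_ fun B _ J hJ β g hg => ?_
  · refine RingHom.FinitePresentation.of_comp_finiteType C ?_
      (RingHom.FiniteType.of_finitePresentation geo_fp_C)
    rw [show (eval₂RingHom ψ (eval₂ ψ u Q)).comp C = ψ from RingHom.ext fun _ => eval₂_C _ _]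
    exact geo_fp_of_et1 h
  have hnil : ∀ x ∈ J, ∀ y ∈ J, x * y = 0 := fun x hx y hy => by
    have : x * y ∈ J ^ 2 := by rw [sq]; exact Ideal.mul_mem_mul hx hy
    rwa [hJ] at this
  have hψ : g.comp ψ = (Ideal.Quotient.mk J).comp (β.comp C) := RingHom.ext fun s => by
    simpa using RingHom.congr_fun hg (C s)
  set Qb := Q.map (β.comp C) with hQb
  have hred : ∀ (W : S[X]) (b : B), Ideal.Quotient.mk J b = g u →
      Ideal.Quotient.mk J (eval b (W.map (β.comp C))) = g (eval₂ ψ u W) := fun W b hb => by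
    rw [hev, hψ, ← hb, eval_map, eval_map, hom_eval₂]
  have hunit : ∀ b : B, Ideal.Quotient.mk J b = g u → IsUnit (eval b Qb.derivative) := by
    intro b hb
    refine (IsNilpotent.isUnit_quotient_mk_iff (I := J) ⟨2, hJ⟩).1 ?_
    rw [hQb, derivative_map, hred _ b hb]
    exact hQ.map g
  have htay : ∀ b : B, ∀ e ∈ J, eval (b + e) Qb = eval b Qb + eval b Qb.derivative * e := by
    intro b e he
    obtain ⟨k, hk⟩ := Qb.binomExpansion b e
    rw [hk, sq, hnil e he e he, mul_zero, add_zero]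
  obtain ⟨b, hb⟩ := Ideal.Quotient.mk_surjective (g u)
  obtain ⟨d, hd⟩ := (hunit b hb).exists_right_inv
  have he : (β X - eval b Qb) * d ∈ J := by
    refine J.mul_mem_right _ (Ideal.Quotient.eq.1 ?_)
    rw [hred Q b hb]
    simpa using (RingHom.congr_fun hg X).symm
  set b' := b + (β X - eval b Qb) * d with hb'
  have hb1 : Ideal.Quotient.mk J b' = g u := by
    rw [hb', map_add, Ideal.Quotient.eq_zero_iff_mem.2 he, add_zero, hb]
  have hb2 : eval b' Qb = β X := by
    rw [hb', htay b _ he, mul_left_comm, hd]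
    ring
  obtain ⟨g', ⟨h1, h2⟩, hu⟩ := geo_lift h hJ (eval₂RingHom (β.comp C) b') g
    (ringHom_ext (fun s => by simpa using RingHom.congr_fun hψ s) (by simpa using hb1.symm))
  have h3 : g'.comp ψ = β.comp C := RingHom.ext fun s => by
    simpa using RingHom.congr_fun h1 (C s)
  have h4 : g' u = b' := by simpa using RingHom.congr_fun h1 X
  refine ⟨g', ⟨ringHom_ext (fun s => by simpa using RingHom.congr_fun h3 s) ?_, h2⟩,
    fun g₂ ⟨k1, k2⟩ => hu g₂ ⟨?_, k2⟩⟩
  · simp only [RingHom.comp_apply, coe_eval₂RingHom, eval₂_X]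
    rw [hev, h3, h4, hb2]
  · have k3 : g₂.comp ψ = β.comp C := RingHom.ext fun s => by
      simpa using RingHom.congr_fun k1 (C s)
    have k4 : eval (g₂ u) Qb = β X := by
      have := RingHom.congr_fun k1 X
      simp only [RingHom.comp_apply, coe_eval₂RingHom, eval₂_X] at this
      rwa [hev, k3] at this
    have k5 : g₂ u - b' ∈ J := Ideal.Quotient.eq.1 ((RingHom.congr_fun k2 u).trans hb1.symm)
    have k6 := htay b' _ k5
    rw [add_sub_cancel, k4, hb2, left_eq_add, (hunit b' hb1).mul_right_eq_zero, sub_eq_zero] at k6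
    exact ringHom_ext (fun s => by simpa using RingHom.congr_fun k3 s) (by simpa using k6)

/-- The zero locus of the coordinate is etale over the base. -/
theorem geo_hyp {ψ : S →+* R} {t : R} (h : Et1 ψ t) :
    ((Ideal.Quotient.mk (Ideal.span {t})).comp ψ).Etale := by
  refine geo_of_lift ((geo_fp_of_et1 h).comp_surjective Ideal.Quotient.mk_surjective ?_)
    fun B _ J hJ β g hg => ?_
  · rw [Ideal.mk_ker]
    exact Submodule.fg_span_singleton t
  have ht : Ideal.Quotient.mk (Ideal.span {t}) t = 0 :=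
    Ideal.Quotient.eq_zero_iff_mem.2 (Ideal.mem_span_singleton_self t)
  obtain ⟨g', ⟨h1, h2⟩, hu⟩ := geo_lift h hJ (eval₂RingHom β 0)
    (g.comp (Ideal.Quotient.mk _))
    (ringHom_ext (fun s => by simpa using RingHom.congr_fun hg s) (by simp [ht]))
  have h3 : g' t = 0 := by simpa using RingHom.congr_fun h1 X
  refine ⟨Ideal.Quotient.lift _ g' fun a ha => ?_, ⟨RingHom.ext fun s => ?_,
    Ideal.Quotient.ringHom_ext (RingHom.ext fun r => RingHom.congr_fun h2 r)⟩, fun g₂ ⟨k1, k2⟩ => ?_⟩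
  · obtain ⟨c, rfl⟩ := Ideal.mem_span_singleton'.1 ha
    rw [map_mul, h3, mul_zero]
  · simpa using RingHom.congr_fun h1 (C s)
  · refine Ideal.Quotient.ringHom_ext ?_
    rw [hu (g₂.comp (Ideal.Quotient.mk _)) ⟨ringHom_ext
      (fun s => by simpa using RingHom.congr_fun k1 s) (by simp [ht]), by rw [← k2]; rfl⟩]
    rfl

theorem geo_map {ψ : S →+* R} (h : ψ.Etale) : (mapRingHom ψ).Etale := by
  algebraize [ψ]
  let : Algebra S[X] R[X] := Polynomial.algebra S R
  have : IsScalarTower S S[X] R[X] := inferInstance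
  exact RingHom.Etale.isStableUnderBaseChange S R S[X] R[X] h

open TensorProduct in
/-- The zigzag of etale neighbourhoods of `V(t)`. -/
theorem geo_zigzag {ψ : S →+* R} {t : R} (h : Et1 ψ t) :
    ∃ (T : Type u) (_ : CommRing T) (i : R →+* T) (j : (R ⧸ Ideal.span {t})[X] →+* T),
      EE (Ideal.span {t}) i ∧ EE (Ideal.span {X}) j ∧ j X = i t ∧
      i.comp ψ = j.comp (C.comp ((Ideal.Quotient.mk _).comp ψ)) ∧
      ∀ r, i r - j (C (Ideal.Quotient.mk _ r)) ∈ Ideal.span {i t} := by
  have hH := geo_hyp h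
  set H := R ⧸ Ideal.span {t} with hHdef
  set mk : R →+* H := Ideal.Quotient.mk _ with hmk
  have ht : mk t = 0 := Ideal.Quotient.eq_zero_iff_mem.2 (Ideal.mem_span_singleton_self t)
  algebraize [ψ, mk.comp ψ]
  have : Algebra.Etale S H := hH
  obtain ⟨e, he0, he1⟩ := (Algebra.FormallyUnramified.iff_exists_tensorProduct (R := S) (S := H)).1
    inferInstance
  let mka : R →ₐ[S] H := ⟨mk, fun _ => rfl⟩
  let q : R ⊗[S] H →ₐ[S] H ⊗[S] H := Algebra.TensorProduct.map mka (AlgHom.id S H)
  have hq : Function.Surjective q :=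
    Algebra.TensorProduct.map_surjective _ _ Ideal.Quotient.mk_surjective Function.surjective_id
  have hker : ∀ z, q z = 0 → z ∈ Ideal.span {t ⊗ₜ[S] (1 : H)} := by
    intro z hz
    have h1 : z ∈ RingHom.ker q := hz
    rw [Algebra.TensorProduct.rTensor_ker mka Ideal.Quotient.mk_surjective] at h1
    have h2 : RingHom.ker mka = Ideal.span {t} := Ideal.mk_ker
    rwa [h2, Ideal.map_span, Set.image_singleton] at h1
  obtain ⟨g, rfl⟩ := hq e
  let μ : R ⊗[S] H →+* H := ((Algebra.TensorProduct.lmul' S).comp q).toRingHom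
  have hμ : μ g = 1 := he1
  let T := Localization.Away g
  let l : R ⊗[S] H →+* T := algebraMap _ _
  let μ' : T →+* H := IsLocalization.Away.lift g (g := μ) (hμ ▸ isUnit_one)
  have hμ' : ∀ z, μ' (l z) = μ z := IsLocalization.Away.lift_eq g _
  let i : R →+* T := l.comp Algebra.TensorProduct.includeLeftRingHom
  let j0 : H →+* T := l.comp Algebra.TensorProduct.includeRight.toRingHom
  let j : H[X] →+* T := eval₂RingHom j0 (i t)
  have hi : ∀ r, μ' (i r) = mk r := fun r => (hμ' _).trans (mul_one (mk r))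
  have hj0 : ∀ r, μ' (j0 r) = r := fun r => (hμ' _).trans (by
    change mk 1 * r = r
    rw [map_one, one_mul])
  have hij : ∀ r, i r - j0 (mk r) ∈ Ideal.span {i t} := by
    intro r
    have h1 := Ideal.mem_map_of_mem l (hker ((r ⊗ₜ 1 - 1 ⊗ₜ mk r) * g) (by
      have h1 : q (r ⊗ₜ 1) = mk r ⊗ₜ 1 := rfl
      have h2 : q (1 ⊗ₜ mk r) = 1 ⊗ₜ mk r := by simp [q]
      rw [map_mul, map_sub, h1, h2]
      linear_combination (-1) * he0 (mk r)))
    rw [Ideal.map_span, Set.image_singleton, map_mul, map_sub,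
      Ideal.mul_unit_mem_iff_mem _ (IsLocalization.Away.algebraMap_isUnit g)] at h1
    exact h1
  have hs0 : ∀ z, ∃ r, l z - i r ∈ Ideal.span {i t} := by
    intro z
    induction z using TensorProduct.induction_on with
    | zero => exact ⟨0, by simp⟩
    | tmul r s =>
      obtain ⟨s, rfl⟩ := Ideal.Quotient.mk_surjective s
      refine ⟨r * s, ?_⟩
      have : l (r ⊗ₜ Ideal.Quotient.mk _ s) - i (r * s) = -(i r * (i s - j0 (mk s))) := by
        have h1 : l (r ⊗ₜ Ideal.Quotient.mk _ s) = i r * j0 (mk s) := by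
          change _ = l _ * l _
          rw [← map_mul]
          simp [hmk]
        rw [h1, map_mul]
        ring
      rw [this]
      exact neg_mem (Ideal.mul_mem_left _ _ (hij s))
    | add x y hx hy =>
      obtain ⟨r, hr⟩ := hx
      obtain ⟨s, hs⟩ := hy
      exact ⟨r + s, by rw [map_add, map_add, add_sub_add_comm]; exact add_mem hr hs⟩
  have hkμ : ∀ y ∈ Ideal.span {i t}, μ' y = 0 := fun y hy => by
    obtain ⟨c, rfl⟩ := Ideal.mem_span_singleton'.1 hy
    rw [map_mul, hi, ht, mul_zero]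
  have hg1 : l g - 1 ∈ Ideal.span {i t} := by
    obtain ⟨r, hr⟩ := hs0 g
    have h1 := hkμ _ hr
    rw [map_sub, hμ', hμ, hi, ← map_one mk, ← map_sub] at h1
    obtain ⟨c, hc⟩ := Ideal.mem_span_singleton'.1 (Ideal.Quotient.eq_zero_iff_mem.1 h1)
    have h2 : l g - 1 = l g - i r - i c * i t := by
      rw [← map_mul, hc, map_sub, map_one]
      ring
    rw [h2]
    exact sub_mem hr (Ideal.mul_mem_left _ _ (Ideal.mem_span_singleton_self _))
  have hs : ∀ y : T, ∃ r, y - i r ∈ Ideal.span {i t} := by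
    intro y
    obtain ⟨n, z, hz⟩ := IsLocalization.Away.surj g y
    obtain ⟨r, hr⟩ := hs0 z
    refine ⟨r, ?_⟩
    have h1 : l g ^ n - 1 ∈ Ideal.span {i t} := by
      have := Ideal.Quotient.eq.1 (congrArg (· ^ n) (Ideal.Quotient.eq.2 hg1) |>.trans
        (by rw [← map_pow, one_pow]) |> (map_pow _ (l g) n).trans)
      exact this
    have h2 : y - i r = l z - i r - y * (l g ^ n - 1) := by
      rw [mul_sub, show y * l g ^ n = l z from hz]
      ring
    rw [h2]
    exact sub_mem hr (Ideal.mul_mem_left _ _ h1)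
  have hiet : i.Etale := by
    refine geo_comp ?_ (RingHom.etale_algebraMap.2 (Algebra.Etale.of_isLocalizationAway g))
    exact RingHom.etale_algebraMap.2 (inferInstanceAs (Algebra.Etale R (R ⊗[S] H)))
  have hcomm : i.comp ψ = j0.comp (mk.comp ψ) := RingHom.ext fun s =>
    congrArg l (Algebra.TensorProduct.tmul_one_eq_one_tmul s)
  have hjX : j X = i t := eval₂_X _ _
  have hjC : ∀ r, j (C r) = j0 r := fun r => eval₂_C _ _
  refine ⟨T, inferInstance, i, j, ⟨hiet, fun y => ?_, fun x hx => ?_⟩, ⟨?_, fun y => ?_,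
    fun x hx => ?_⟩, hjX, RingHom.ext fun s => ?_, fun r => hjC _ ▸ hij r⟩
  · rw [Ideal.map_span, Set.image_singleton]
    exact hs y
  · rw [Ideal.map_span, Set.image_singleton] at hx
    exact Ideal.Quotient.eq_zero_iff_mem.1 ((hi x).symm.trans (hkμ _ hx))
  · refine geo_cancel (geo_map hH) ?_
    have : j.comp (mapRingHom (mk.comp ψ)) = i.comp (eval₂RingHom ψ t) :=
      ringHom_ext (fun s => by simpa [hjC] using (RingHom.congr_fun hcomm s).symm) (by simp [hjX])
    rw [this]
    exact geo_comp h hiet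
  · obtain ⟨r, hr⟩ := hs y
    refine ⟨C (mk r), ?_⟩
    rw [Ideal.map_span, Set.image_singleton, hjX, hjC, ← sub_add_sub_cancel y (i r)]
    exact add_mem hr (hij r)
  · rw [Ideal.map_span, Set.image_singleton, hjX] at hx
    have h1 : μ'.comp j = evalRingHom 0 :=
      ringHom_ext (fun s => by simp [hjC, hj0]) (by simp [hjX, hi, ht])
    have h2 : eval 0 x = 0 := (RingHom.congr_fun h1 x).symm.trans (hkμ _ hx)
    rwa [Ideal.mem_span_singleton, X_dvd_iff, coeff_zero_eq_eval_zero]
  · exact (RingHom.congr_fun hcomm s).trans (hjC _).symm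

end KEW
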