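import Pool.Agent.P.MP_6277db_ag.KEW.L7.Alg3
import Pool.Agent.P.MP_6277db_ag.KEW.L7.Alg2
import Pool.Agent.P.MP_6277db_ag.KEW.L6.Defs
import Pool.Agent.P.MP_6277db_ag.KEW.CA.FP3
import Pool.Agent.P.MP_6277db_ag.KEW.CA.Pres

/-!
KEW project, layer L8b, row RAD: radicial descent of Nisnevich neighbourhoods, on rings.

Hints.
* `RadBC.pow`: the elements `y` of `R` with `y ^ p ^ k * i (β π) ^ N` in the image of `i` form a subring containing the
  images of `B` and `F` (`R` is trivial or has exponential characteristic `p`: `expChar_of_injective_ringHom`,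
  `add_pow_expChar_pow`); a pushout is generated by the two images (see `CA/PO.lean`).
* `RadBC.exists_point`: `x ∘ β` is injective (for `a ≠ 0` apply `pow` to the inverse of `f a`: `a` divides a power of `π`);
  so `F` and `K` are fields over the fraction field of `A`, their tensor product has a maximal ideal; then `exists_res`
  (`K` maps to the residue field because `IsRes x`).
* `rad_desc`: write `D = R[X]/(f)` with unit Jacobian (`Alg2_pres`, `Alg2_std` or `etale_presentation`). Choose `s : B`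
  with `x s ≠ 0`, divisible by `t`, such that all values `y X_k` lift to `R1 = R[1/i s]` (if `x' r ≠ 0` then `r` divides
  some `i b` with `x b ≠ 0`). Let `B1 = B[1/s]`, `D1` the subring of `R1` generated by `B1`, the coefficients of the `f`
  and of an inverse of the Jacobian, and the lifts. `D1` is finite over `B1`; the kernel `J` of the point on `D1` lies in
  the radical of `(ker x) D1`. Apply `HL` to the etale `D1`-algebra with the same equations; `EE.exists_retract` gives
  the point `x0`.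
* `dies_gen`: `exists_res`, `ev_of_field`, `exists_po`, `RadBC.exists_point`, `rad_desc` with `T = D0 ⊗ F`, `cmp.nat`,
  `cmp.bij`.
* `exists_radBC`: `F = PerfectClosure K p` for `K = FractionRing A` of characteristic `p`, or `K` in characteristic zero
  (or `perfectClosure K (AlgebraicClosure K)`, `isPurelyInseparable_iff_pow_mem`); every nonzero element of `A` is a unit
  times a power of `π`.
-/

namespace KEW

universe u v w

/-- `f : A → F` is, after inverting `π`, a purely inseparable extension of fields. -/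
structure RadBC {A F : Type u} [CommRing A] [Field F] (π : A) (f : A →+* F) : Prop where
  ne : f π ≠ 0
  inj : Function.Injective f
  insep : ∃ p : ℕ, ExpChar F p ∧ ∀ y : F, ∃ (k N : ℕ) (a : A), y ^ p ^ k * f π ^ N = f a

variable {A F B R D : Type u} [CommRing A] [Field F] [CommRing B] [CommRing R] [CommRing D] {π : A}
  {f : A →+* F}

theorem RadBC.pow (hf : RadBC π f) {β : A →+* B} {i : B →+* R} {b : F →+* R} (h : IsPO β f i b)
    (y : R) : ∃ (n N : ℕ) (c : B), 0 < n ∧ y ^ n * i (β π) ^ N = i c := by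
  obtain ⟨p, hp, hF⟩ := hf.insep
  rcases subsingleton_or_nontrivial R with hR | hR
  · exact ⟨1, 0, 0, one_pos, Subsingleton.elim _ _⟩
  have hR' : ExpChar R p := expChar_of_injective_ringHom b.injective p
  have key : ∃ (k N : ℕ) (c : B), y ^ p ^ k * i (β π) ^ N = i c := by
    refine PO_induction h (p := fun y => ∃ (k N : ℕ) (c : B), y ^ p ^ k * i (β π) ^ N = i c)
      (fun s t => ?_) (fun z w hz hw => ?_) y
    · obtain ⟨k, N, a, ha⟩ := hF t
      refine ⟨k, N, s ^ p ^ k * β a, ?_⟩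
      rw [map_mul, map_pow, PO_apply h a, ← ha, PO_apply h π, map_mul, map_pow, map_pow]
      ring
    · obtain ⟨k1, N1, c1, h1⟩ := hz
      obtain ⟨k2, N2, c2, h2⟩ := hw
      refine ⟨k1 + k2, N1 * p ^ k2 + N2 * p ^ k1,
        c1 ^ p ^ k2 * β π ^ (N2 * p ^ k1) + c2 ^ p ^ k1 * β π ^ (N1 * p ^ k2), ?_⟩
      rw [add_pow_expChar_pow]
      simp only [map_add, map_mul, map_pow]
      rw [← h1, ← h2]
      ring
  obtain ⟨k, N, c, hc⟩ := key
  exact ⟨p ^ k, N, c, expChar_pow_pos F p k, hc⟩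

theorem Rad_amalg {K : Type u} [Field K] (f : A →+* F) (hf : Function.Injective f) (g : A →+* K)
    (hg : Function.Injective g) :
    ∃ (L : Type u) (_ : Field L) (φ1 : F →+* L) (φ2 : K →+* L), φ1.comp f = φ2.comp g := by
  let _ := f.toAlgebra
  let _ := g.toAlgebra
  have := Algebra.TensorProduct.nontrivial_of_algebraMap_injective_of_isDomain A F K hf hg
  obtain ⟨m, hm⟩ := Ideal.exists_maximal (TensorProduct A F K)
  refine ⟨TensorProduct A F K ⧸ m, Ideal.Quotient.field m,
    (Ideal.Quotient.mk m).comp Algebra.TensorProduct.includeLeftRingHom,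
    (Ideal.Quotient.mk m).comp
      (Algebra.TensorProduct.includeRight : K →ₐ[A] TensorProduct A F K).toRingHom, ?_⟩
  rw [RingHom.comp_assoc, RingHom.comp_assoc]
  exact congrArg _ (PO_comm (isPO_tensor (R := A) (S := F) (T := K)))

theorem Rad_fac (ι : B →+* R) (hι : Function.Injective ι) (φ : D →+* R)
    (h : ∀ z, ∃ w, ι w = φ z) : ∃ e : D →+* B, ι.comp e = φ := by
  choose w hw using h
  refine ⟨⟨⟨⟨w, hι ?_⟩, fun a b => hι ?_⟩, hι ?_, fun a b => hι ?_⟩, RingHom.ext hw⟩
  · rw [hw, map_one, map_one]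
  · simp only [map_mul, hw]
  · simp only [map_zero, hw]
  · simp only [map_add, hw]

theorem RadBC.exists_point (hf : RadBC π f) {β : A →+* B} {i : B →+* R} {b : F →+* R}
    (h : IsPO β f i b) {K : Type u} [Field K] (x : B →+* K) (hr : IsRes x) (hx : x (β π) ≠ 0) :
    ∃ (K' : Type u) (_ : Field K') (x' : R →+* K') (e : K →+* K'),
      IsRes x' ∧ x'.comp i = e.comp x := by
  have hinj : Function.Injective (x.comp β) := by
    rw [injective_iff_map_eq_zero]
    intro a ha
    by_contra h0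
    have hfa : f a ≠ 0 := fun hh => h0 (hf.inj (hh.trans (map_zero f).symm))
    obtain ⟨p, hp, hF⟩ := hf.insep
    obtain ⟨k, N, a', ha'⟩ := hF (f a)⁻¹
    have e1 : π ^ N = a' * a ^ p ^ k := hf.inj (by
      rw [map_mul, map_pow, map_pow, ← ha', inv_pow]
      field_simp)
    have e2 := congrArg (x.comp β) e1
    rw [map_pow, map_mul, map_pow, ha, zero_pow (expChar_pow_pos F p k).ne', mul_zero] at e2
    exact pow_ne_zero N hx e2
  obtain ⟨L, _, φ1, φ2, hφ⟩ := Rad_amalg f hf.inj (x.comp β) hinj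
  obtain ⟨c, hc1, -⟩ := PO_desc h (φ2.comp x) φ1 hφ.symm
  obtain ⟨L0, _, x0, ι, hres, hι⟩ := S7.exists_res c
  have hc : ∀ r, ι (x0 (i r)) = φ2 (x r) := fun r =>
    (RingHom.congr_fun hι (i r)).trans (RingHom.congr_fun hc1 r)
  obtain ⟨e, he⟩ := Rad_fac ι ι.injective φ2 fun z => by
    obtain ⟨r, s, hs, hz⟩ := hr z
    refine ⟨x0 (i r) / x0 (i s), ?_⟩
    rw [map_div₀, hc, hc, ← hz, map_mul, mul_div_assoc, div_self ((map_ne_zero φ2).2 hs), mul_one]
  refine ⟨L0, inferInstance, x0, e, hres, RingHom.ext fun r => ι.injective ?_⟩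
  exact (hc r).trans (RingHom.congr_fun he (x r)).symm

theorem Rad_jac_map {n : ℕ} (l : B →+* R) (q : Fin n → MvPolynomial (Fin n) B) :
    MvPolynomial.map l (S7.Alg2_jac q) = S7.Alg2_jac fun k => MvPolynomial.map l (q k) := by
  rw [S7.Alg2_jac, RingHom.map_det, S7.Alg2_jac]
  congr 1
  ext1 a b
  simp [MvPolynomial.pderiv_map]

theorem Rad_common {K : Type u} [Field K] {x : R →+* K} (hr : IsRes x) {ι : Type} [Fintype ι]
    (z : ι → K) : ∃ σ : R, x σ ≠ 0 ∧ ∀ k, ∃ r, z k * x σ = x r := by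
  classical
  choose r s hs h using fun k => hr (z k)
  refine ⟨∏ k, s k, ?_, fun k => ⟨r k * ∏ j ∈ Finset.univ.erase k, s j, ?_⟩⟩
  · rw [map_prod]
    exact Finset.prod_ne_zero_iff.2 fun k _ => hs k
  · rw [← Finset.mul_prod_erase Finset.univ s (Finset.mem_univ k), map_mul, map_mul, ← h k,
      mul_assoc]

/-- The case in which `i` is radicial and the coordinates of the point lift to `R`. -/
theorem Rad_core {K K' : Type u} [Field K] [Field K'] (i : B →+* R)
    (hi : ∀ y : R, ∃ (n : ℕ) (c : B), 0 < n ∧ y ^ n = i c) (x : B →+* K) (x' : R →+* K')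
    (e : K →+* K') (he : x'.comp i = e.comp x) {n : ℕ} (q : Fin n → MvPolynomial (Fin n) R)
    (v : Fin n → R) (w : R) (h0 : ∀ k, MvPolynomial.eval₂Hom x' (fun k => x' (v k)) (q k) = 0)
    (hw : MvPolynomial.eval₂Hom x' (fun k => x' (v k)) (S7.Alg2_jac q) * x' w = 1) :
    ∃ (D0 : Type u) (_ : CommRing D0) (g0 : B →+* D0) (x0 : D0 →+* K), g0.Etale ∧ x0.comp g0 = x ∧
      ∀ (T : Type u) [CommRing T] (j : R →+* T) (δ : D0 →+* T), j.comp i = δ.comp g0 →
        ∃ u : Fin n → T, ∀ k, MvPolynomial.eval₂Hom j u (q k) = 0 := by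
  classical
  let _ := i.toAlgebra
  let S : Set R := (⋃ k, ((q k).coeffs : Set R)) ∪ Set.range v ∪ {w}
  have hS : S.Finite := ((Set.finite_iUnion fun k => (q k).coeffs.finite_toSet).union
    (Set.finite_range v)).union (Set.finite_singleton w)
  have hfin : Module.Finite B (Algebra.adjoin B S) :=
    Algebra.finite_adjoin_of_finite_of_isIntegral hS fun y _ => by
      obtain ⟨m, c, hm, hc⟩ := hi y
      refine IsIntegral.of_pow hm ?_
      rw [hc]
      exact isIntegral_algebraMap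
  obtain ⟨D1, _, δ1, ν, hδ, hν, hνδ, hq, hv, hw'⟩ : ∃ (D1 : Type u) (_ : CommRing D1)
      (δ1 : B →+* D1) (ν : D1 →+* R), δ1.Finite ∧ Function.Injective ν ∧ ν.comp δ1 = i ∧
      (∀ k, ∃ Q, MvPolynomial.map ν Q = q k) ∧ (∀ k, ∃ a, ν a = v k) ∧ ∃ a, ν a = w := by
    refine ⟨Algebra.adjoin B S, inferInstance, algebraMap B _, (Algebra.adjoin B S).val.toRingHom,
      RingHom.finite_algebraMap.2 hfin, Subtype.val_injective, rfl, fun k => ?_, fun k => ?_, ?_⟩
    · refine MvPolynomial.mem_range_map_iff_coeffs_subset.2 fun a ha => ?_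
      exact ⟨⟨a, Algebra.subset_adjoin (Or.inl (Or.inl (Set.mem_iUnion.2 ⟨k, ha⟩)))⟩, rfl⟩
    · exact ⟨⟨v k, Algebra.subset_adjoin (Or.inl (Or.inr ⟨k, rfl⟩))⟩, rfl⟩
    · exact ⟨⟨w, Algebra.subset_adjoin (Or.inr rfl)⟩, rfl⟩
  choose Q hQ using hq
  choose v1 hv1 using hv
  obtain ⟨w1, hw1⟩ := hw'
  have hJ : RingHom.ker (x'.comp ν) ≤ ((RingHom.ker x).map δ1).radical := fun z hz => by
    obtain ⟨m, c, hm, hc⟩ := hi (ν z)
    have h1 : z ^ m = δ1 c := hν (by rw [map_pow, hc, ← hνδ, RingHom.comp_apply])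
    have h2 : e (x c) = 0 := by
      rw [← RingHom.comp_apply, ← he, RingHom.comp_apply, ← hc, map_pow,
        show x' (ν z) = 0 from hz, zero_pow hm.ne']
    exact ⟨m, h1 ▸ Ideal.mem_map_of_mem _ ((map_eq_zero e).1 h2)⟩
  obtain ⟨E, _, θ, hθ, hθ0, hθl, -⟩ := S7.Alg2_std Q
  have hκ : Function.Injective (RingHom.kerLift (x'.comp ν)) := RingHom.kerLift_injective _
  have hev : ∀ P : MvPolynomial (Fin n) D1, RingHom.kerLift (x'.comp ν)
      (MvPolynomial.eval₂Hom (Ideal.Quotient.mk (RingHom.ker (x'.comp ν)))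
        (fun k => Ideal.Quotient.mk _ (v1 k)) P) =
      MvPolynomial.eval₂Hom x' (fun k => x' (v k)) (MvPolynomial.map ν P) := fun P => by
    have e1 : (RingHom.kerLift (x'.comp ν)).comp
        (MvPolynomial.eval₂Hom (Ideal.Quotient.mk (RingHom.ker (x'.comp ν)))
          fun k => Ideal.Quotient.mk _ (v1 k)) =
        (MvPolynomial.eval₂Hom x' fun k => x' (v k)).comp (MvPolynomial.map ν) := by
      refine MvPolynomial.ringHom_ext (fun a => ?_) fun k => ?_
      · simp
      · simp [hv1]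
    exact RingHom.congr_fun e1 P
  obtain ⟨s, hs⟩ := hθl _ (MvPolynomial.eval₂Hom (Ideal.Quotient.mk (RingHom.ker (x'.comp ν)))
    fun k => Ideal.Quotient.mk _ (v1 k)) (fun k => hκ (by rw [hev, hQ, h0, map_zero]))
    (IsUnit.of_mul_eq_one (Ideal.Quotient.mk _ w1) (hκ (by
      rw [map_mul, hev, Rad_jac_map, map_one, RingHom.kerLift_mk, RingHom.comp_apply, hw1]
      simpa only [hQ] using hw)))
  obtain ⟨D0, _, g0, hEE, H⟩ := HL hδ (RingHom.ker x) hJ hθ (RingHom.id D1) s (by
    rw [← RingHom.comp_assoc, hs]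
    ext a
    simp)
  obtain ⟨x0, hx0⟩ := hEE.exists_retract x fun z hz => hz
  refine ⟨D0, inferInstance, g0, x0, hEE.etale, hx0, fun T _ j δ hj => ?_⟩
  obtain ⟨s', hs', -⟩ := H T (j.comp ν) δ (by rw [RingHom.comp_assoc, hνδ, hj])
  refine ⟨fun k => s' (θ (MvPolynomial.X k)), fun k => ?_⟩
  have e1 : (MvPolynomial.eval₂Hom j fun k => s' (θ (MvPolynomial.X k))).comp
      (MvPolynomial.map ν) = s'.comp θ := by
    refine MvPolynomial.ringHom_ext (fun a => ?_) fun k => ?_
    · simpa using (RingHom.congr_fun hs' a).symm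
    · simp
  have e2 := RingHom.congr_fun e1 (Q k)
  rw [RingHom.comp_apply, RingHom.comp_apply, hQ, hθ0, map_zero] at e2
  exact e2

/-- Nisnevich neighbourhoods descend along maps which are radicial after inverting `t`. -/
theorem rad_desc {K K' : Type u} [Field K] [Field K'] (i : B →+* R) (t : B) (ht : IsUnit (i t))
    (hi : ∀ y : R, ∃ (n N : ℕ) (c : B), 0 < n ∧ y ^ n * i t ^ N = i c) (x : B →+* K)
    (hxt : x t ≠ 0) (x' : R →+* K') (hr : IsRes x') (e : K →+* K') (he : x'.comp i = e.comp x)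
    {g : R →+* D} (hg : g.Etale) (y : D →+* K') (hy : y.comp g = x') :
    ∃ (D0 : Type u) (_ : CommRing D0) (g0 : B →+* D0) (x0 : D0 →+* K), g0.Etale ∧ x0.comp g0 = x ∧
      ∀ (T : Type u) [CommRing T] (j : R →+* T) (δ : D0 →+* T), j.comp i = δ.comp g0 →
        ∃ s : D →+* T, s.comp g = j := by
  have _ := ht
  obtain ⟨n, xs, q, hsurj, hker, hjac⟩ := S7.Alg2_pres hg
  obtain ⟨w0, hw0⟩ := hjac.exists_right_inv
  obtain ⟨σ, hσ, hval⟩ := Rad_common hr (fun o : Option (Fin n) => y (o.elim w0 xs))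
  choose r hrv using hval
  obtain ⟨m, N, c, hm, hc⟩ := hi σ
  have hei : ∀ z, x' (i z) = e (x z) := RingHom.congr_fun he
  have hxc : x c ≠ 0 := fun h0 => by
    have h1 := congrArg x' hc
    rw [map_mul, map_pow, map_pow, hei, hei, h0, map_zero] at h1
    exact mul_ne_zero (pow_ne_zero _ hσ) (pow_ne_zero _ ((map_ne_zero e).2 hxt)) h1
  have hxs : x (c * t) ≠ 0 := by
    rw [map_mul]
    exact mul_ne_zero hxc hxt
  obtain ⟨B1, _, l0, hl0⟩ := S7.exists_away (c * t)
  obtain ⟨R1, _, l, hl⟩ := S7.exists_away (i (c * t))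
  obtain ⟨i1, hi1⟩ := S7.away_lift hl0 (l.comp i) (S7.away_unit hl :)
  obtain ⟨x1, hx1⟩ := S7.away_lift hl0 x (IsUnit.mk0 _ hxs)
  obtain ⟨x1', hx1'⟩ := S7.away_lift hl x' (IsUnit.mk0 _ (by
    rw [hei]
    exact (map_ne_zero e).2 hxs))
  have hil : ∀ z, i1 (l0 z) = l (i z) := RingHom.congr_fun hi1
  have hxl : ∀ z, x1' (l z) = x' z := RingHom.congr_fun hx1'
  have he1 : x1'.comp i1 = e.comp x1 := S7.away_ext hl0 (by
    rw [RingHom.comp_assoc, hi1, ← RingHom.comp_assoc, hx1', he, RingHom.comp_assoc, hx1])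
  have u0 : IsUnit (l0 (c * t)) := S7.away_unit hl0
  have ut : IsUnit (l0 t) := by
    rw [map_mul] at u0
    exact isUnit_of_mul_isUnit_right u0
  have uσ : IsUnit (l σ) := by
    have u1 : IsUnit (l (i c)) := by
      have u2 := S7.away_unit hl
      rw [map_mul, map_mul] at u2
      exact isUnit_of_mul_isUnit_left u2
    rw [← hc, map_mul, map_pow] at u1
    exact (isUnit_pow_iff hm.ne').1 (isUnit_of_mul_isUnit_left u1)
  obtain ⟨τ, hτ⟩ := uσ.exists_right_inv
  have hlift : ∀ o, x1' (l (r o) * τ) = y (o.elim w0 xs) := fun o => by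
    have h1 := congrArg x1' hτ
    rw [map_mul, hxl, map_one] at h1
    rw [map_mul, hxl, ← hrv o, mul_assoc, h1, mul_one]
  have hi' : ∀ z : R1, ∃ (k : ℕ) (d : B1), 0 < k ∧ z ^ k = i1 d := fun z => by
    obtain ⟨z0, a, hz⟩ := S7.away_surj hl z
    obtain ⟨k, M, d, hk, hd⟩ := hi z0
    obtain ⟨ν, hν⟩ := ((u0.pow (a * k)).mul (ut.pow M)).exists_right_inv
    refine ⟨k, l0 d * ν, hk, ?_⟩
    have h1 := congrArg i1 hν
    rw [map_mul, map_mul, map_pow, map_pow, hil, hil, map_one] at h1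
    rw [map_mul, hil, ← hd, map_mul, map_pow, map_pow, ← hz]
    linear_combination (-z ^ k) * h1
  have hev : ∀ Q : MvPolynomial (Fin n) R,
      MvPolynomial.eval₂Hom x1' (fun k => x1' (l (r (some k)) * τ)) (MvPolynomial.map l Q) =
        y (MvPolynomial.eval₂Hom g xs Q) := fun Q => by
    have e1 : (MvPolynomial.eval₂Hom x1' fun k => x1' (l (r (some k)) * τ)).comp
        (MvPolynomial.map l) = y.comp (MvPolynomial.eval₂Hom g xs) := by
      refine MvPolynomial.ringHom_ext (fun a => ?_) fun k => ?_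
      · simpa using (hxl a).trans (RingHom.congr_fun hy a).symm
      · simpa using hlift (some k)
    exact RingHom.congr_fun e1 Q
  have hq0 : ∀ k, MvPolynomial.eval₂Hom g xs (q k) = 0 := fun k => by
    rw [← RingHom.mem_ker, hker]
    exact Ideal.subset_span ⟨k, rfl⟩
  obtain ⟨D0, _, g0, x0, hg0, hx0, H⟩ := Rad_core i1 hi' x1 x1' e he1
    (fun k => MvPolynomial.map l (q k)) (fun k => l (r (some k)) * τ) (l (r none) * τ)
    (fun k => by rw [hev, hq0, map_zero])
    (by rw [← Rad_jac_map, hev, hlift none, Option.elim_none, ← map_mul, hw0, map_one])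
  refine ⟨D0, inferInstance, g0.comp l0, x0, S7.etale_comp (S7.away_etale hl0) hg0, ?_,
    fun T _ j δ hj => ?_⟩
  · rw [← RingHom.comp_assoc, hx0, hx1]
  · have uj : IsUnit (j (i (c * t))) := by
      rw [show j (i (c * t)) = δ (g0 (l0 (c * t))) from RingHom.congr_fun hj _]
      exact (u0.map g0).map δ
    obtain ⟨j1, hj1⟩ := S7.away_lift hl j uj
    obtain ⟨u, hu⟩ := H T j1 δ (S7.away_ext hl0 (by
      rw [RingHom.comp_assoc, hi1, ← RingHom.comp_assoc, hj1, hj, RingHom.comp_assoc]))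
    obtain ⟨s, hs⟩ := S7.Alg2_surj_lift hsurj (MvPolynomial.eval₂Hom j u) (by
      rw [hker, Ideal.span_le]
      rintro _ ⟨k, rfl⟩
      have h1 := hu k
      rw [MvPolynomial.eval₂Hom_map_hom, hj1] at h1
      exact h1)
    refine ⟨s, RingHom.ext fun a => ?_⟩
    simpa using RingHom.congr_fun hs (MvPolynomial.C a)

/-- A section which dies everywhere after base change dies at the points of the generic fibre. -/
theorem dies_gen (hf : RadBC π f) {h : RF.{u, v} A} {P : RF.{u, w} F} (cmp : L6.FCmp f h P)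
    {β : A →+* B} (hβ : EP β) {i : B →+* R} {b : F →+* R} (hi : IsPO β f i b) (z : h.obj β)
    (hz : ∀ (K' : Type u) [Field K'] (x' : R →+* K'), P.Dies x' (cmp.c i hi z))
    {K : Type u} [Field K] (x : B →+* K) (hx : x (β π) ≠ 0) : h.Dies x z := by
  obtain ⟨L, _, x0, ι, hres, rfl⟩ := S7.exists_res x
  have hx0 : x0 (β π) ≠ 0 := fun hh => hx (by rw [RingHom.comp_apply, hh, map_zero])
  refine S7.ev_of_field ι ?_
  obtain ⟨K', _, x', e, hr', he⟩ := hf.exists_point hi x0 hres hx0
  obtain ⟨D, _, g, y, hg, hy, h0⟩ := hz K' x'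
  have ht : IsUnit (i (β π)) := by
    rw [PO_apply hi π]
    exact (IsUnit.mk0 _ hf.ne).map b
  obtain ⟨D0, _, g0, x1, hg0, hx1, H⟩ := rad_desc i (β π) ht (hf.pow hi) x0 hx0 x' hr' e he hg y hy
  obtain ⟨T, _, i0, b0, hT⟩ := PO_exists (g0.comp β) f
  obtain ⟨j, hj1, hj2⟩ := PO_desc hi (i0.comp g0) b0 (PO_comm hT :)
  obtain ⟨s, hs⟩ := H T j i0 hj1
  have hβ0 : EP (g0.comp β) := S7.ep_etale hβ hg0
  refine ⟨D0, inferInstance, g0, x1, hg0, hx1, (cmp.bij i0 hT hβ0).1 ?_⟩
  have hs2 : s.comp (g.comp b) = b0 := by rw [← RingHom.comp_assoc, hs, hj2]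
  rw [cmp.nat i i0 hi hT g0 j rfl hj2 hj1 hβ hβ0 z, map_zero,
    P.map_congr hs.symm hj2 (by rw [hs, hj2]),
    ← P.map_comp g s rfl hs2 _ (S7.ep_etale (PO_ep hi hβ) hg), h0, map_zero]

theorem exists_radBC (A : Type u) [CommRing A] [IsDomain A] [IsDiscreteValuationRing A] {π : A}
    (hπ : Irreducible π) :
    ∃ (F : Type u) (_ : Field F) (_ : PerfectField F) (f : A →+* F), RadBC π f := by
  obtain ⟨p, hp⟩ := ExpChar.exists (FractionRing A)
  let F := perfectClosure (FractionRing A) (AlgebraicClosure (FractionRing A))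
  have hinj : Function.Injective
      ((algebraMap (FractionRing A) F).comp (algebraMap A (FractionRing A))) :=
    (algebraMap (FractionRing A) F).injective.comp (IsFractionRing.injective A (FractionRing A))
  refine ⟨F, inferInstance, inferInstance,
    (algebraMap (FractionRing A) F).comp (algebraMap A (FractionRing A)),
    fun h0 => hπ.ne_zero (hinj (h0.trans (map_zero _).symm)), hinj, p,
    expChar_of_injective_ringHom (algebraMap (FractionRing A) F).injective p, fun y => ?_⟩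
  obtain ⟨k, κ, hκ⟩ := IsPurelyInseparable.pow_mem (FractionRing A) p y
  obtain ⟨a, d, hd, rfl⟩ := IsFractionRing.div_surjective (A := A) κ
  have hd0 : d ≠ 0 := nonZeroDivisors.ne_zero hd
  obtain ⟨N, u, hu⟩ := IsDiscreteValuationRing.associated_pow_irreducible hd0 hπ
  refine ⟨k, N, a * u, ?_⟩
  have h1 : algebraMap A (FractionRing A) d ≠ 0 := fun hh =>
    hd0 (IsFractionRing.injective A (FractionRing A) (hh.trans (map_zero _).symm))
  rw [← hκ, ← map_pow, ← hu, RingHom.comp_apply, RingHom.comp_apply, ← map_mul]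
  congr 1
  rw [map_mul, map_mul]
  field_simp

end KEW
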