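import Pool.Agent.P.MP_6277db_ag.KEW.L8b.GB

/-!
KEW project: algebras with a family of endomorphisms.
-/

namespace KEW

universe u

/-- An `F`-algebra with a family of endomorphisms. -/
structure RP (F : Type u) [CommRing F] : Type (u + 1) where
  /-- the ring -/
  R : Type u
  [inst : CommRing R]
  /-- the structure map -/
  r : F →+* R
  /-- the endomorphisms -/
  Fam : Set (R →+* R)

attribute [instance] RP.inst

variable {F : Type u} [CommRing F]

/-- Adding one Laurent variable. -/
noncomputable def RP.step (P : RP F) : RP F := ⟨Lau P.R, (lauC P.R).comp P.r, lauFam P.Fam⟩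

/-- The algebra with the empty family. -/
def RP.base {R : Type u} [CommRing R] (a : F →+* R) : RP F := ⟨R, a, ∅⟩

/-- Finite type algebras with a finite family of commuting idempotent endomorphisms. -/
structure RP.Good (P : RP F) : Prop where
  ft : P.r.FiniteType
  fin : P.Fam.Finite
  ov : ∀ φ ∈ P.Fam, φ.comp P.r = P.r
  idem : ∀ φ ∈ P.Fam, φ.comp φ = φ
  comm : ∀ φ ∈ P.Fam, ∀ ψ ∈ P.Fam, φ.comp ψ = ψ.comp φ

theorem RP.good_base {R : Type u} [CommRing R] {a : F →+* R} (h : a.FiniteType) :
    (RP.base a).Good :=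
  ⟨h, Set.finite_empty, fun _ h => h.elim, fun _ h => h.elim, fun _ h => h.elim⟩

theorem lauCE_lauMap {R : Type u} [CommRing R] (φ : R →+* R) :
    ((lauC R).comp (lauE R)).comp (lauMap φ) = (lauMap φ).comp ((lauC R).comp (lauE R)) := by
  rw [RingHom.comp_assoc, lauE_lauMap, ← RingHom.comp_assoc, ← RingHom.comp_assoc, lauMap_lauC]

theorem finiteType_lauC (R : Type u) [CommRing R] : (lauC R).FiniteType :=
  have : Algebra.FinitePresentation (Polynomial R) (Lau R) :=
    IsLocalization.Away.finitePresentation Polynomial.X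
  RingHom.FiniteType.comp
    ((RingHom.finiteType_algebraMap (A := Polynomial R) (B := Lau R)).2 inferInstance)
    ((RingHom.finiteType_algebraMap (A := R) (B := Polynomial R)).2 inferInstance)

theorem RP.Good.step {P : RP F} (h : P.Good) : P.step.Good where
  ft := (finiteType_lauC P.R).comp h.ft
  fin := (h.fin.image _).insert _
  ov := by
    rintro _ (rfl | ⟨φ, hφ, rfl⟩)
    · exact congrArg (lauC P.R).comp (lauE_over P.r)
    · exact lauMap_over φ (h.ov φ hφ)
  idem := by
    rintro _ (rfl | ⟨φ, hφ, rfl⟩)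
    · change ((lauC P.R).comp (lauE P.R)).comp ((lauC P.R).comp (lauE P.R)) = _
      rw [RingHom.comp_assoc, ← RingHom.comp_assoc (lauE P.R), lauE_lauC, RingHom.id_comp]
    · exact (lauMap_comp φ φ).trans (congrArg lauMap (h.idem φ hφ))
  comm := by
    rintro _ (rfl | ⟨φ, hφ, rfl⟩) _ (rfl | ⟨ψ, hψ, rfl⟩)
    · rfl
    · exact lauCE_lauMap ψ
    · exact (lauCE_lauMap φ).symm
    · exact (lauMap_comp ψ φ).trans
        ((congrArg lauMap (h.comm φ hφ ψ hψ)).trans (lauMap_comp φ ψ).symm)

theorem RP.Good.iter {P : RP F} (h : P.Good) : ∀ n : ℕ, (RP.step^[n] P).Good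
  | 0 => h
  | n + 1 => by
    rw [Function.iterate_succ_apply']
    exact (RP.Good.iter h n).step

end KEW
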