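import Pool.Agent.P.MP_6277db_ag.KEW.L7.Cmp
import Pool.Agent.P.MP_6277db_ag.KEW.L7.Lau

/-!
KEW project, interface between L8.1 and L8.2: reduced global sections and reduced germs agree.
-/

namespace KEW

universe u v

variable {A : Type u} [CommRing A]

/-- The sections of `h` over `B` killed by the endomorphisms in `L` map bijectively onto the germs
along `V(π)` killed by the endomorphisms in `L`. -/
structure GB (π : A) (h : RF.{u, v} A) {B : Type u} [CommRing B] (β : A →+* B)
    (L : Set (B →+* B)) : Prop where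
  inj : ∀ b : h.obj β, (∀ φ ∈ L, h.map φ rfl b = 0) →
    ∀ (E : Type u) [CommRing E] (f : B →+* E), EE (Ideal.span {β π}) f → h.map f rfl b = 0 → b = 0
  surj : ∀ (E : Type u) [CommRing E] (f : B →+* E), EE (Ideal.span {β π}) f →
    ∀ a : h.obj (f.comp β),
    (∀ φ ∈ L, ∃ (E1 : Type u) (_ : CommRing E1) (f1 : B →+* E1) (ψ : E →+* E1),
      EE (Ideal.span {β π}) f1 ∧ ψ.comp f = f1.comp φ ∧ h.map ψ rfl a = 0) →
    ∃ b : h.obj β, (∀ φ ∈ L, h.map φ rfl b = 0) ∧
      ∃ (E' : Type u) (_ : CommRing E') (j : E →+* E'), EE (Ideal.span {β π}) (j.comp f) ∧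
        h.map j rfl a = h.map (j.comp f) rfl b

/-- The torus `A[t_1, 1/t_1, ..., t_r, 1/t_r]` as an iterated Laurent ring. -/
noncomputable def Tor (A : Type u) [CommRing A] : ℕ → CommRingCat.{u}
  | 0 => .of A
  | r + 1 => .of (Lau (Tor A r))

/-- The structure map of the torus. -/
noncomputable def torC (A : Type u) [CommRing A] : ∀ r : ℕ, A →+* Tor A r
  | 0 => RingHom.id A
  | r + 1 => (lauC (Tor A r)).comp (torC A r)

/-- The family of endomorphisms of `B[t, 1/t]` attached to a family of endomorphisms of `B`. -/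
def lauFam {B : Type u} [CommRing B] (L : Set (B →+* B)) : Set (Lau B →+* Lau B) :=
  insert ((lauC B).comp (lauE B)) (lauMap '' L)

/-- The endomorphisms `t_i ↦ 1` of the torus. -/
def torFam (A : Type u) [CommRing A] : ∀ r : ℕ, Set (Tor A r →+* Tor A r)
  | 0 => ∅
  | r + 1 => lauFam (torFam A r)

theorem torFam_finite (A : Type u) [CommRing A] : ∀ r : ℕ, (torFam A r).Finite
  | 0 => Set.finite_empty
  | r + 1 => ((torFam_finite A r).image _).insert _

theorem torFam_over (A : Type u) [CommRing A] :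
    ∀ r : ℕ, ∀ φ ∈ torFam A r, φ.comp (torC A r) = torC A r
  | 0, _, h => h.elim
  | r + 1, _, .inl rfl => congrArg (lauC (Tor A r)).comp (lauE_over (torC A r))
  | r + 1, _, .inr ⟨φ, h, rfl⟩ => lauMap_over φ (torFam_over A r φ h)

end KEW
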