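import Pool.Agent.P.MP_6277db_ag.KEW.L8b.BaseT
import Pool.Agent.P.MP_6277db_ag.KEW.G.Red
import Pool.Agent.P.MP_6277db_ag.KEW.L7.Br4
import Pool.Agent.P.MP_6277db_ag.KEW.L8a.EntD
import Pool.Agent.P.MP_6277db_ag.KEW.L8a.GermApi

/-!
KEW project, layer L8b, block BASE: the homotopy groups of a reduced presheaf with transfers on
rings and on schemes agree.
-/

set_option backward.isDefEq.respectTransparency false

noncomputable section

open CategoryTheory Limits AlgebraicGeometry Opposite Polynomial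

namespace Pool.Agent.KEW

open _root_.KEW L8

/-- The restriction of a cylinder to a stable full subcategory. -/
def L8.CylD.full {D : Type 1} [Category.{0} D] (c : CylD D) (S : ObjectProperty D)
    (hS : c.Stab S) : CylD S.FullSubcategory where
  I := S.lift (S.ι ⋙ c.I) fun B => hS _ B.property
  p B := ObjectProperty.homMk (c.p B.obj)
  i0 B := ObjectProperty.homMk (c.i0 B.obj)
  i1 B := ObjectProperty.homMk (c.i1 B.obj)
  mu B := ObjectProperty.homMk (c.mu B.obj)
  sw B := ObjectProperty.homMk (c.sw B.obj)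
  p_nat f := ObjectProperty.hom_ext _ (c.p_nat f.hom)
  i0_nat f := ObjectProperty.hom_ext _ (c.i0_nat f.hom)
  i1_nat f := ObjectProperty.hom_ext _ (c.i1_nat f.hom)
  mu_nat f := ObjectProperty.hom_ext _ (c.mu_nat f.hom)
  sw_nat f := ObjectProperty.hom_ext _ (c.sw_nat f.hom)
  p_i0 B := ObjectProperty.hom_ext _ (c.p_i0 B.obj)
  p_i1 B := ObjectProperty.hom_ext _ (c.p_i1 B.obj)
  mu_out0 B := ObjectProperty.hom_ext _ (c.mu_out0 B.obj)
  mu_out1 B := ObjectProperty.hom_ext _ (c.mu_out1 B.obj)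
  mu_in0 B := ObjectProperty.hom_ext _ (c.mu_in0 B.obj)
  mu_in1 B := ObjectProperty.hom_ext _ (c.mu_in1 B.obj)
  sw_out0 B := ObjectProperty.hom_ext _ (c.sw_out0 B.obj)
  sw_out1 B := ObjectProperty.hom_ext _ (c.sw_out1 B.obj)
  sw_sw B := ObjectProperty.hom_ext _ (c.sw_sw B.obj)

/-- The inclusion of a stable full subcategory is compatible with the cylinders. -/
def L8.CylD.fullF {D : Type 1} [Category.{0} D] (c : CylD D) (S : ObjectProperty D)
    (hS : c.Stab S) : CylF c (c.full S hS) S.ι where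
  w _ := 𝟙 _
  w_nat _ := (Category.comp_id _).trans (Category.id_comp _).symm
  w_i0 _ := Category.id_comp _
  w_i1 _ := Category.id_comp _

/-- Two affine lines over the same object are isomorphic. -/
theorem Cyl.isIso_pt {C : Type 1} [Category.{0} C] {u : C ⥤ Scheme.{0}} {U : C} (c c' : Cyl u U) :
    IsIso (c.pt c'.p c'.t) :=
  ⟨c'.pt c.p c.t, by rw [Cyl.comp_pt, Cyl.pt_p, Cyl.pt_t, Cyl.pt_p_t],
    by rw [Cyl.comp_pt, Cyl.pt_p, Cyl.pt_t, Cyl.pt_p_t]⟩

variable {A F : Type} [CommRing A] [Field F] {L : Type 1} [CommRing L] {m : ℕ}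

theorem isIso_spM {R S : Type} [CommRing R] [CommRing S] {a : A →+* R} {b : A →+* S} (ha : EP a)
    (hb : EP b) (g : R →+* S) (hg : g.comp a = b) (h : Function.Bijective g) :
    IsIso (spM ha hb g hg) := by
  have : IsIso (CommRingCat.ofHom g) := (ConcreteCategory.isIso_iff_bijective _).2 h
  have : IsIso ((smS A).map (spM ha hb g hg)) :=
    inferInstanceAs (IsIso (Spec.map (CommRingCat.ofHom g)))
  exact isIso_of_smS _

theorem isIso_pt_spM {R S : Type} [CommRing R] [CommRing S] {a : A →+* R} {b : A →+* S}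
    (ha : EP a) (hb : EP b) (g : R →+* S) (hg : g.comp a = b) (t : S)
    (h : Function.Bijective (eval₂RingHom g t)) :
    IsIso ((cylC (spE a ha)).pt (spM ha hb g hg) (unE hb t)) := by
  have e1 : (eval₂RingHom g t).comp C = g := RingHom.ext fun _ => eval₂_C _ _
  have e3 : eval₂RingHom g t X = t := eval₂_X _ _
  generalize eval₂RingHom g t = e at h e1 e3
  subst e1 e3
  have h1 := isIso_spM (S7.ep_poly ha) hb e hg h
  have h2 := (cylC _).isIso_pt (cylE ha)
  have h3 : (cylC (spE a ha)).pt (spM ha hb (e.comp C) hg) (unE hb (e X)) =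
      spM (S7.ep_poly ha) hb e hg ≫ (cylC _).pt (cylE ha).p (cylE ha).t := by
    rw [Cyl.comp_pt, spM_comp ha (S7.ep_poly ha) hb C e rfl hg hg]
    exact congrArg _ (RingHom.congr_fun (unE_nat (S7.ep_poly ha) hb e hg) X).symm
  rw [h3]
  infer_instance

variable (A) in
/-- The `EP` algebras. -/
def epP : ObjectProperty (Alg A) := fun B => EP B.s

theorem stab_epP : (cyl A).Stab (epP A) := fun _ h => S7.ep_poly h

variable (f : A →+* F)

theorem ep_bO {B : Alg A} (h : EP B.s) : EP (bO f B).s := (bPO f B).ep h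

/-- The generic fibre of an `EP` algebra. -/
def epS : (epP A).FullSubcategoryᵒᵖ ⥤ Sm F where
  obj B := spE (bO f B.unop.obj).s (ep_bO f B.unop.property)
  map g := spM _ _ (bM f g.unop.hom).1 (bM f g.unop.hom).2
  map_id B := (congrArg (fun k : bO f B.unop.obj ⟶ bO f B.unop.obj => spM _ _ k.1 k.2)
    ((bF f).map_id B.unop.obj)).trans (spM_id _ _)
  map_comp {B _ B''} g k := (congrArg (fun k : bO f B''.unop.obj ⟶ bO f B.unop.obj => spM _ _ k.1 k.2)
    ((bF f).map_comp k.unop.hom g.unop.hom)).trans (spM_comp _ _ _ _ _ _ _ _)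

variable (m) in
/-- The generic fibre as an object of the category of correspondences. -/
def epT : (epP A).FullSubcategory ⥤ (TrS m F)ᵒᵖ := (epS f ⋙ gamS m F).rightOp

/-- The comparison of the two affine lines. -/
def epW (B : (epP A).FullSubcategory) :
    (epS f).obj (op (((cyl A).full _ stab_epP).I.obj B)) ⟶ (cylC ((epS f).obj (op B))).I :=
  (cylC _).pt ((epS f).map (((cyl A).full _ stab_epP).p B).op)
    (unE (ep_bO f (S7.ep_poly B.property)) (bI f ((polyF A).obj B.obj) X))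

theorem gm_epS {B B' : (epP A).FullSubcategory} (g : B ⟶ B') (x : B.obj.R) :
    ((smS F).map ((epS f).map g.op)).appTop (unE (ep_bO f B.property) (bI f B.obj x)) =
      unE (ep_bO f B'.property) (bI f B'.obj (g.hom.1 x)) :=
  (RingHom.congr_fun (unE_nat _ _ (bM f g.hom).1 (bM f g.hom).2) _).trans
    (congrArg (unE (ep_bO f B'.property)) (RingHom.congr_fun (bM_bI f g.hom) x))

theorem epW_nat {B B' : (epP A).FullSubcategory} (g : B ⟶ B') :
    epW f B' ≫ (cylC _).pt ((cylC _).p ≫ (epS f).map g.op) (cylC _).t =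
      (epS f).map (((cyl A).full _ stab_epP).I.map g).op ≫ epW f B := by
  rw [epW, epW, Cyl.comp_pt, Cyl.comp_pt, Cyl.pt_p_assoc, Cyl.pt_t, ← Functor.map_comp,
    ← Functor.map_comp, ← op_comp, ← op_comp, CylD.p_nat]
  refine congrArg _ (Eq.trans ?_ (gm_epS f (((cyl A).full _ stab_epP).I.map g) X).symm)
  exact congrArg (fun x => unE _ (bI f _ x)) (map_X g.hom.1).symm

theorem epW_sec (B : (epP A).FullSubcategory) (i : ((cyl A).full _ stab_epP).I.obj B ⟶ B)
    (h : ((cyl A).full _ stab_epP).p B ≫ i = 𝟙 B) :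
    (epS f).map i.op ≫ epW f B =
      (cylC _).sec (unE (ep_bO f B.property) (bI f B.obj (i.hom.1 X))) := by
  rw [epW, Cyl.comp_pt, ← Functor.map_comp, ← op_comp, h, op_id, CategoryTheory.Functor.map_id,
    Cyl.sec]
  exact congrArg _ (gm_epS f i X)

theorem bO_poly (B : Alg A) : Function.Bijective
    (eval₂RingHom (bM f ((cyl A).p B)).1 (bI f ((polyF A).obj B) X)) := by
  refine PO_unique ((bPO f B).paste' (PO_poly (bI f B))) (bPO f ((polyF A).obj B))
    (ringHom_ext (fun r => ?_) ?_) (RingHom.ext fun r => ?_)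
  · exact (congrArg (eval₂RingHom _ _) (map_C (bI f B))).trans ((eval₂_C _ _).trans
      (RingHom.congr_fun (bM_bI f ((cyl A).p B)) r))
  · exact (congrArg (eval₂RingHom _ _) (map_X (bI f B))).trans (eval₂_X _ _)
  · exact (eval₂_C _ _).trans (RingHom.congr_fun (bM f ((cyl A).p B)).2 r)

theorem isIso_epW (B : (epP A).FullSubcategory) : IsIso (epW f B) :=
  isIso_pt_spM (ep_bO f B.property) _ _ _ _ (bO_poly f B.obj)

theorem gam_op_in' {V V' Z : Sm A} {g : V ⟶ V'} {k : Z ⟶ (cylC V).I} {l : Z ⟶ (cylC V').I}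
    (h : k ≫ (cylC V').pt ((cylC V).p ≫ g) (cylC V).t = l) :
    ((cylTr A m).map ((gamS m A).map g)).op ≫ ((gamS m A).map k).op = ((gamS m A).map l).op := by
  rw [cylTr_gam]
  exact gam_op_comp h

variable (m) in
/-- The generic fibre is compatible with the cylinders. -/
def epF : CylF (trCyl F m) ((cyl A).full _ stab_epP) (epT m f) where
  w B := ((gamS m F).map (epW f B)).op
  w_nat g := (gam_op_in' (epW_nat f g)).trans (gam_op_comp rfl).symm
  w_i0 B := gam_op_comp ((epW_sec f B _ (CylD.p_i0 _ B)).trans (congrArg _ (by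
    change unE _ (bI f _ (eval 0 X)) = 0
    rw [eval_X, map_zero, map_zero])))
  w_i1 B := gam_op_comp ((epW_sec f B _ (CylD.p_i1 _ B)).trans (congrArg _ (by
    change unE _ (bI f _ (eval 1 X)) = 1
    rw [eval_X, map_one, map_one])))

theorem isIso_epF (B : (epP A).FullSubcategory) : IsIso ((epF m f).w B) :=
  have := isIso_epW f B
  inferInstanceAs (IsIso ((gamS m F).map (epW f B)).op)

theorem epT_rho {R : Alg F} {B B' : (epP A).FullSubcategory} (g : B ⟶ B') :
    (rhoS L m R.s).map ((epT m f).map g) = (MM f m L R).map g.hom :=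
  congrArg (ext1 L) (AddMonoidHom.ext fun c => Corr.graph_comp _ c)

theorem epT_push {R : Alg F} (η : R ⟶ R) (B : (epP A).FullSubcategory) :
    (rhoH L m η.1 η.2).app ((epT m f).obj B) = (MMpush f m L η).app B.obj :=
  congrArg (ext1 L) (AddMonoidHom.ext fun c => Corr.comp_graph c _)

theorem mem_redS_iff (P : RP F) (B : (epP A).FullSubcategory) (x : (MM f m L (rpA P)).obj B.obj) :
    x ∈ (RedS f m L P).N B.obj ↔ ∃ b : (redP L m P.r P.Fam).obj ((epT m f).obj B),
      (jkerι _).app ((epT m f).obj B) b = x := by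
  refine (mem_kerSet _ _ _).trans (Iff.trans ?_ (mem_range_jkerι _ _).symm)
  constructor
  · rintro h _ ⟨φ, hφ, w, rfl⟩
    exact (congrArg (fun θ => θ.hom x) (epT_push f (R := rpA P) ⟨φ, w⟩ B)).trans
      (h _ ⟨⟨φ, w⟩, hφ, rfl⟩)
  · rintro h _ ⟨η, hη, rfl⟩
    exact (congrArg (fun θ => θ.hom x) (epT_push f η B)).symm.trans (h _ ⟨η.1, hη, η.2, rfl⟩)

variable (m L) in
/-- The comparison of the reduced functors. -/
def redCmp (P : RP F) : epT m f ⋙ redP L m P.r P.Fam ⟶ (epP A).ι ⋙ Red f m L P where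
  app B := ModuleCat.ofHom (((jkerι _).app ((epT m f).obj B)).hom.codRestrict
    ((RedS f m L P).N B.obj) fun b => (mem_redS_iff f P B _).2 ⟨b, rfl⟩)
  naturality _ _ g := ModuleCat.hom_ext (LinearMap.ext fun b =>
    Subtype.ext (congrArg (fun θ => θ.hom b.1) (epT_rho f (R := rpA P) g)))

theorem isIso_redCmp (P : RP F) : IsIso (redCmp L m f P) :=
  have : ∀ B, IsIso ((redCmp L m f P).app B) := fun B =>
    (ConcreteCategory.isIso_iff_bijective _).2
      ⟨fun a b h => jkerι_injective _ ((epT m f).obj B).unop (congrArg Subtype.val h :), fun x => by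
        obtain ⟨b, hb⟩ := (mem_redS_iff f P B x.1).1 x.2
        exact ⟨b, Subtype.ext hb⟩⟩
  NatIso.isIso_of_isIso_app _

/-- The sections over the generic fibre. -/
def genE (G : PSh (TrS m F) L) (B : (epP A).FullSubcategory) :
    ((fgt L m A).obj ((rs L (bcTr f m)).obj G)).obj (op (spE B.obj.s B.property)) ⟶
      (epT m f ⋙ G).obj B :=
  G.map ((gamS m F).map (toBc B.property (ep_bO f B.property) (bI f B.obj) (bPO f B.obj).comm)).op

instance (G : PSh (TrS m F) L) (B : (epP A).FullSubcategory) : IsIso (genE f G B) :=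
  have := isIso_toBc B.property (ep_bO f B.property) (bPO f B.obj)
  inferInstanceAs (IsIso (G.map ((gamS m F).map _).op))

theorem gam_op_bc {V V' : Sm A} {Z : Sm F} {g : V ⟶ V'} {k : Z ⟶ (bcFun f).obj V}
    {l : Z ⟶ (bcFun f).obj V'} (h : k ≫ (bcFun f).map g = l) :
    ((bcTr f m).map ((gamS m A).map g)).op ≫ ((gamS m F).map k).op = ((gamS m F).map l).op := by
  rw [(bcF f).tr_map_gam]
  exact gam_op_comp h

theorem genE_nat (G : PSh (TrS m F) L) {B B' : (epP A).FullSubcategory} (g : B ⟶ B') :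
    ((fgt L m A).obj ((rs L (bcTr f m)).obj G)).map (spM B.property B'.property g.hom.1 g.hom.2).op ≫
      genE f G B' = genE f G B ≫ (epT m f ⋙ G).map g := by
  refine (G.map_comp _ _).symm.trans (Eq.trans (congrArg G.map ?_) (G.map_comp _ _))
  exact (gam_op_bc f (toBc_nat _ _ _ _ _ _ _ _ _ _ _ (bM f g.hom).2 (bM_bI f g.hom))).trans
    (gam_op_comp rfl).symm

theorem rfIso_of_iso (G : PSh (TrS m F) L) (Y : Fn (Alg A) L) (e : epT m f ⋙ G ≅ (epP A).ι ⋙ Y) :
    Nonempty (RFIso (rf ((fgt L m A).obj ((rs L (bcTr f m)).obj G))) Y) := by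
  refine ⟨⟨fun B hB => (rfE _ hB).trans
    (asIso (genE f G ⟨B, hB⟩) ≪≫ e.app ⟨B, hB⟩).toLinearEquiv.toAddEquiv, ?_⟩⟩
  intro B B' hB hB' g x
  let g' : (⟨B, hB⟩ : (epP A).FullSubcategory) ⟶ ⟨B', hB'⟩ := ObjectProperty.homMk g
  change e.hom.app ⟨B', hB'⟩ (genE f G ⟨B', hB'⟩ (rfE _ hB' _)) =
    ((epP A).ι ⋙ Y).map g' (e.hom.app ⟨B, hB⟩ (genE f G ⟨B, hB⟩ (rfE _ hB x)))
  rw [rfE_map _ g.1 g.2 hB hB', ← nat_apply]
  exact congrArg _ (congrArg (fun θ => θ.hom (rfE _ hB x)) (genE_nat f G g'))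

/-- The homotopy groups on schemes and on rings agree. -/
theorem rfIso_piq (P : RP F) (q : ℕ) (G : PSh (TrS m F) L)
    (e : G ≅ ((trCyl F m).piq q).obj (redP L m P.r P.Fam)) :
    Nonempty (RFIso (rf ((fgt L m A).obj ((rs L (bcTr f m)).obj G)))
      (((cyl A).piq q).obj (Red f m L P))) := by
  have := isIso_redCmp (L := L) (m := m) f P
  obtain ⟨e1⟩ := (epF m f).exists_iso (isIso_epF f) q (Iso.refl (epT m f ⋙ redP L m P.r P.Fam))
  obtain ⟨e2⟩ := ((cyl A).fullF _ stab_epP).exists_iso (fun _ => inferInstanceAs (IsIso (𝟙 _))) q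
    (asIso (redCmp L m f P))
  exact rfIso_of_iso f G _ (Functor.isoWhiskerLeft _ e ≪≫ e1.symm ≪≫ e2)

end Pool.Agent.KEW
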