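import Pool.Agent.P.MP_6277db_ag.KEW.G.Need
import Pool.Agent.P.MP_6277db_ag.KEW.L8b.Rad
import Pool.Agent.P.MP_6277db_ag.KEW.L8b.BaseI
import Pool.Agent.P.MP_6277db_ag.KEW.L8a.Cpx
import Pool.Agent.P.MP_6277db_ag.KEW.L8a.Main
import Pool.Agent.P.MP_6277db_ag.KEW.L2b.Tens

/-!
KEW project, layer L8b, block BASE: the singular complex of the reduced presheaf with transfers of a
torus over an affine scheme.
-/

set_option backward.isDefEq.respectTransparency false

noncomputable section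

open CategoryTheory Limits AlgebraicGeometry Opposite Polynomial

namespace Pool.Agent.KEW

open _root_.KEW L8

section

variable {A : Type} [CommRing A] {L : Type 1} [CommRing L] {m : ℕ}

/-- A contractible presheaf with transfers is `A^1`-acyclic. -/
theorem loc_of_contr {K : PSh (TrS m A) L} (h : (trCyl A m).Contr K) :
    Loc (NGen (smS A)) ((sgl 0).obj ((fgt L m A).obj K)) := by
  obtain ⟨h, h0, h1⟩ := h
  refine loc_sgl_of_contraction _
    ⟨fun W a => (K.map ((gamS m A).map ((cylC W).sec (1 - a))).op).hom ∘ₗ (h.app (op ⟨W⟩)).hom,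
      fun {V W} f a g => ?_, fun W a g ha => ?_⟩ fun W g => ?_
  · have e : f ≫ (cylC W).sec (1 - a) = (cylC V).sec (1 - ((smS A).map f).appTop a) ≫
        (cylC W).pt ((cylC V).p ≫ f) (cylC V).t := by
      rw [Cyl.comp_pt, Cyl.sec_p_assoc, Cyl.sec_t, Cyl.sec, Cyl.comp_pt, Category.comp_id, map_sub,
        map_one]
    refine (map_map K _ _ _).trans (Eq.trans ?_ (congrArg (K.map _)
      (nat_apply h ((gamS m A).map f).op g).symm))
    refine Eq.trans ?_ (map_map K _ _ _).symm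
    exact congrArg (fun k => K.map k (h.app (op ⟨W⟩) g))
      ((gam_op_comp e).trans (gam_op_in' rfl).symm)
  · obtain rfl : a = 0 := ha
    refine Eq.trans ?_ (congrArg (fun k => k.app (op ⟨W⟩) g) h1)
    exact congrArg (fun a => K.map ((gamS m A).map ((cylC W).sec a)).op (h.app (op ⟨W⟩) g))
      (sub_zero 1)
  · refine Eq.trans ?_ (congrArg (fun k => k.app (op ⟨W⟩) g) h0)
    exact congrArg (fun a => K.map ((gamS m A).map ((cylC W).sec a)).op (h.app (op ⟨W⟩) g))
      (sub_self 1)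

/-- Invariant presheaves with transfers are homotopy invariant on rings. -/
theorem hi_of_inv {G : PSh (TrS m A) L} (h : (trCyl A m).Inv (fun _ => True) G) :
    (rf ((fgt L m A).obj G)).HI := by
  intro R _ a ha
  refine (bijective_cylE_iff _ ha).1 ?_
  have h1 : Function.Bijective (((fgt L m A).obj G).map (cylC (spE a ha)).p.op) :=
    ⟨Function.LeftInverse.injective (g := G.map ((trCyl A m).i0 (op ⟨spE a ha⟩))) fun x =>
      (map_map G ((trCyl A m).p _) _ x).trans (by rw [CylD.p_i0, map_id']),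
      h (op ⟨spE a ha⟩) trivial⟩
  have := (cylC _).isIso_pt (cylE ha)
  rw [← (cylC _).pt_p (cylE ha).p (cylE ha).t, op_comp, Functor.map_comp]
  exact (ConcreteCategory.bijective_of_isIso
    (((fgt L m A).obj G).map ((cylC _).pt (cylE ha).p (cylE ha).t).op)).comp h1

theorem inv_of_iso {G G' : PSh (TrS m A) L} (e : G ≅ G') (h : (trCyl A m).Inv (fun _ => True) G') :
    (trCyl A m).Inv (fun _ => True) G := by
  intro B _ y
  obtain ⟨x, hx⟩ := h B trivial (e.hom.app _ y)
  refine ⟨e.inv.app _ x, ?_⟩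
  rw [← nat_apply, hx]
  exact congrArg (fun k => k.app _ y) e.hom_inv_id

theorem eq_zero_of_isZero {D : Type 1} [Category.{0} D] {G : Fn D L} (h : IsZero G) {B : D}
    (x : G.obj B) : x = 0 :=
  congrArg (fun k : G ⟶ G => k.app B x) (h.eq_of_src (𝟙 G) 0)

theorem rf_eq_zero {G : PSh (Sm A) L} (h : IsZero G) {R : Type} [CommRing R] {a : A →+* R}
    (x : (rf G).obj a) : x = 0 := funext fun _ => eq_zero_of_isZero h _

theorem gb_of_isZero {G : PSh (Sm A) L} (h : IsZero G) (π : A) {B : Type} [CommRing B]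
    (β : A →+* B) (Λ : Set (B →+* B)) : GB π (rf G) β Λ :=
  ⟨fun b _ _ _ _ _ _ => rf_eq_zero h b, fun E _ _ hf _ _ => ⟨0, fun _ _ => map_zero _, E,
    inferInstance, RingHom.id E, hf, (rf_eq_zero h _).trans (rf_eq_zero h _).symm⟩⟩

/-- The singular complex of an additive presheaf with transfers. -/
theorem exists_sing (M : PSh (TrS m A) L) [M.Additive] :
    ∃ (K : Ch (TrS m A) L) (j : (sgl 0).obj ((fgt L m A).obj M) ⟶ (mapC (fgt L m A)).obj K),
      (∀ n, (K.X n).Additive) ∧ WG (NGen (smS A)) j ∧ (∀ q : ℤ, 0 < q → IsZero (K.homology q)) ∧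
      ∀ q : ℕ, Nonempty (K.homology (-(q : ℤ)) ≅ ((trCyl A m).piq q).obj M) := by
  obtain ⟨K, j, h0, hpos, hneg, hH, hP⟩ := (trCyl A m).exists_Cp M
  refine ⟨K, (HomologicalComplex.singleMapHomologicalComplex (fgt L m A) _ 0).inv.app M ≫
    (mapC (fgt L m A)).map j, ?_, (WG.of_isIso _).comp ?_, fun q hq => ?_, hH⟩
  · refine hP (fun G => G.Additive) (fun G G' ⟨e⟩ _ => Functor.additive_of_iso e)
      (fun G hG => ⟨ModuleCat.hom_ext (LinearMap.ext fun _ =>
        (eq_zero_of_isZero hG _).trans (eq_zero_of_isZero hG _).symm)⟩)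
      (fun _ _ => inferInstance) (fun _ _ => inferInstance) inferInstance
  · have hz : ∀ n : ℤ, n ≠ 0 → IsZero (((mapC (fgt L m A)).obj ((sgl 0).obj M)).X n) :=
      fun n hn => (fgt L m A).map_isZero (HomologicalComplex.isZero_single_obj_X _ _ _ _ hn)
    refine WG.of_terms _ 0 (fun n hn => hz n hn.ne') (fun n hn => (fgt L m A).map_isZero (hpos n hn))
      fun n => ?_
    rcases lt_trichotomy n 0 with hn | rfl | hn
    · exact WG.of_loc _ (Loc.of_isZero ((sgl 0).map_isZero (hz n hn.ne))) (loc_of_contr (hneg n hn))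
    · have : IsIso (((mapC (fgt L m A)).map j).f 0) :=
        inferInstanceAs (IsIso ((fgt L m A).map (j.f 0)))
      exact WG.of_isIso _
    · exact WG.of_loc _ (Loc.of_isZero ((sgl 0).map_isZero (hz n hn.ne')))
        (Loc.of_isZero ((sgl 0).map_isZero ((fgt L m A).map_isZero (hpos n hn))))
  · exact (HomologicalComplex.exactAt_iff_isZero_homology _ _).1
      (HomologicalComplex.ExactAt.of_isZero (hpos q hq))

end

variable {A κ F : Type} [CommRing A] [Field κ] [Field F] {π : A} {ρ : A →+* κ} {m : ℕ}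

theorem bs_of_radBC {f : A →+* F} (hf : RadBC π f) (hm : IsUnit (m : A)) : Bs π f m := by
  refine ⟨hf.ne, fun y => ?_, by simpa using (hm.map f).ne_zero⟩
  obtain ⟨p, hp, h⟩ := hf.insep
  obtain ⟨k, N, a, ha⟩ := h y
  obtain ⟨n, hn⟩ : ∃ n, p ^ k = n + 1 :=
    Nat.exists_eq_succ_of_ne_zero (pow_pos (expChar_pos F p) k).ne'
  refine ⟨N, X ^ (n + 1) - C (π ^ (N * n) * a), monic_X_pow_sub_C _ n.succ_ne_zero, ?_⟩
  rw [eval₂_sub, eval₂_X_pow, eval₂_C, map_mul, map_pow, ← ha, hn]
  ring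

theorem exists_cp [IsDomain A] [IsDiscreteValuationRing A] [HenselianLocalRing A]
    (hπ : Irreducible π) (hb : Base π ρ m) (hm : IsUnit (m : A)) {f : A →+* F} (hf : RadBC π f)
    (P : RP F) (hP : P.Good) (r : ℕ) :
    ∃ (C : Ch (TrS m F) (ULift.{1} (ZMod m)))
      (j : (sgl 0).obj ((fgt _ m F).obj (redP _ m (RP.step^[r] P).r (RP.step^[r] P).Fam)) ⟶
        (mapC (fgt _ m F)).obj C),
      (∀ n, (C.X n).Additive) ∧ WG (NGen (smS F)) j ∧
      (∀ q, (rf ((fgt _ m F).obj (C.homology q))).HI) ∧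
      ∀ q, GB π (rf ((fgt _ m A).obj ((rs _ (bcTr f m)).obj (C.homology q)))) (torC A r)
        (torFam A r) := by
  choose K j hA hW hpos hH using fun P : RP F => exists_sing (redP (Lm m) m P.r P.Fam)
  have hI : ∀ (P : RP F) (q : ℕ), (rf ((fgt _ m F).obj ((K P).homology (-(q : ℤ))))).HI :=
    fun P q => hi_of_inv (inv_of_iso (hH P q).some (CylD.inv_piq q _))
  have hc : ∀ q : ℤ, 0 < q ∨ ∃ n : ℕ, q = -(n : ℤ) := fun q =>
    (lt_or_ge 0 q).imp id fun h => ⟨(-q).toNat, by omega⟩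
  refine ⟨K _, j _, hA _, hW _, fun q => ?_, fun q => ?_⟩
  · rcases hc q with h | ⟨n, rfl⟩
    · exact hi_of_inv fun B _ y => ⟨0, (map_zero _).trans (eq_zero_of_isZero (hpos _ q h) y).symm⟩
    · exact hI _ n
  · rcases hc q with h | ⟨n, rfl⟩
    · exact gb_of_isZero ((rs _ (bcTr f m) ⋙ fgt _ m A).map_isZero (hpos _ q h)) _ _ _
    · refine germBij hπ.maximalIdeal_eq (bs_of_radBC hf hm)
        (fun P n => rf ((fgt _ m A).obj ((rs _ (bcTr f m)).obj ((K P).homology (-(n : ℤ))))))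
        (fun P _ n => rfIso_piq f P n _ (hH P n).some) (fun P _ n => ?_) P hP r n
      have := Functor.additive_of_iso (hH P n).some.symm
      exact rig_rf f hb.noeth hf.ne hm (ULift.ext _ _ (ZMod.natCast_self m)) _ (hinv_of_hi (hI P n))

end Pool.Agent.KEW
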