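import Pool.Agent.P.MP_6277db_ag.KEW.G.Site
import Pool.Agent.P.MP_6277db_ag.KEW.L1.Cyl
import Pool.Agent.P.MP_6277db_ag.KEW.L8a.Cyl

/-!
KEW project, layer L8b, block BASE: the affine line as a cylinder on finite correspondences.
-/

set_option backward.isDefEq.respectTransparency false

noncomputable section

open CategoryTheory Limits AlgebraicGeometry Opposite

namespace Pool.Agent.KEW

open _root_.KEW

section bc

variable {T T₁ T₂ T' : Scheme.{0}} {m : ℕ} {g r : T₁ ⟶ T} {g' r' : T' ⟶ T} {g2 r2 : T₂ ⟶ T}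
  {W U W' U' W'' U'' : Over T}

/-- Iterated base change of correspondences. -/
theorem Corr.bc_bc [IsSeparated U.hom] [IsSeparated U'.hom] [IsSeparated U''.hom]
    (a : BC g r W W') (b : BC g r U U') (a' : BC g' r' W' W'') (b' : BC g' r' U' U'')
    (a2 : BC g2 r2 W W'') (b2 : BC g2 r2 U U'') (k : T₂ ⟶ T₁) (l : T₂ ⟶ T')
    (h : ∀ (Z : Scheme.{0}) (s t : Z ⟶ T₂), s ≫ k = t ≫ k → s ≫ l = t ≫ l → s = t)
    (ha : a2.π = a'.π ≫ a.π) (ha1 : a2.q ≫ k = a'.π ≫ a.q) (ha2 : a2.q ≫ l = a'.q)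
    (hb : b2.π = b'.π ≫ b.π) (hb1 : b2.q ≫ k = b'.π ≫ b.q) (hb2 : b2.q ≫ l = b'.q)
    (c : Corr m W U) : Corr.bc m a' b' (Corr.bc m a b c) = Corr.bc m a2 b2 c := by
  classical
  refine Corr.ext_ent fun Om _ _ x y => ?_
  rw [Corr.ent_bc, Corr.ent_bc, Corr.ent_bc, ha, hb]
  simp only [Category.assoc]
  by_cases e : x ≫ a2.q = y ≫ b2.q
  · rw [if_pos e, if_pos, if_pos]
    · rw [← ha1, ← hb1, ← Category.assoc, e, Category.assoc]
    · rw [← ha2, ← hb2, ← Category.assoc, e, Category.assoc]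
  · rw [if_neg e]
    split_ifs with h1 h2
    · refine absurd (h _ _ _ ?_ ?_) e
      · rw [Category.assoc, Category.assoc, ha1, hb1, h2]
      · rw [Category.assoc, Category.assoc, ha2, hb2, h1]
    · rfl
    · rfl

end bc

variable {A : Type} [CommRing A]

/-- The projection of the affine line. -/
abbrev lpr (X : Scheme.{0}) : 𝔸(Fin 1; X) ⟶ X := 𝔸(Fin 1; X) ↘ X

/-- The map to the affine line given by a function. -/
abbrev lmk {X Y : Scheme.{0}} (p : X ⟶ Y) (a : Γ(X, ⊤)) : X ⟶ 𝔸(Fin 1; Y) :=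
  AffineSpace.homOfVector p fun _ => a

theorem lmk_lpr {X Y : Scheme.{0}} (p : X ⟶ Y) (a : Γ(X, ⊤)) : lmk p a ≫ lpr Y = p :=
  AffineSpace.homOfVector_over _ _

theorem lmk_coord {X Y : Scheme.{0}} (p : X ⟶ Y) (a : Γ(X, ⊤)) :
    (lmk p a).appTop (AffineSpace.coord Y 0) = a :=
  AffineSpace.homOfVector_appTop_coord _ _ _

theorem comp_lmk {X Y Z : Scheme.{0}} (h : Z ⟶ X) (p : X ⟶ Y) (a : Γ(X, ⊤)) :
    h ≫ lmk p a = lmk (h ≫ p) (h.appTop a) :=
  AffineSpace.comp_homOfVector _ _ _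

theorem lmk_ext {X Y : Scheme.{0}} {s t : X ⟶ 𝔸(Fin 1; Y)} (h : s ≫ lpr Y = t ≫ lpr Y)
    (h' : s.appTop (AffineSpace.coord Y 0) = t.appTop (AffineSpace.coord Y 0)) : s = t :=
  AffineSpace.hom_ext h fun i => by
    obtain rfl : i = 0 := Subsingleton.elim _ _
    exact h'

theorem map_eq_lmk {X Y : Scheme.{0}} (f : X ⟶ Y) :
    AffineSpace.map (Fin 1) f = lmk (lpr X ≫ f) (AffineSpace.coord X 0) :=
  lmk_ext ((AffineSpace.map_over f).trans (lmk_lpr _ _).symm)
    ((AffineSpace.map_appTop_coord f 0).trans (lmk_coord _ _).symm)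

instance (X : Scheme.{0}) : Smooth (lpr X) := Sites_smooth_affineSpace X

/-- The affine line over a smooth scheme. -/
def cylC (U : Sm A) : Cyl (smS A) U where
  I := smMk (lpr ((smS A).obj U) ≫ ((smV A).obj U).hom)
  p := smHom (lpr _) rfl
  t := AffineSpace.coord ((smS A).obj U) 0
  bij V := by
    refine ⟨fun φ ψ h => sm_ext (lmk_ext ?_ (congrArg Prod.snd h :)), fun x => ?_⟩
    · exact congrArg (fun x => (smS A).map x.1) h
    · refine ⟨smHom (lmk ((smS A).map x.1) x.2) ?_, Prod.ext (sm_ext (lmk_lpr _ _)) (lmk_coord _ _)⟩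
      exact (Category.assoc _ _ _).symm.trans
        ((congrArg (· ≫ ((smV A).obj U).hom) (lmk_lpr _ _)).trans (sm_w x.1))

theorem smS_pt {U V : Sm A} (x : V ⟶ U) (a : Γ((smS A).obj V, ⊤)) :
    (smS A).map ((cylC U).pt x a) = lmk ((smS A).map x) a :=
  lmk_ext ((congrArg (smS A).map ((cylC U).pt_p x a)).trans (lmk_lpr _ _).symm)
    (((cylC U).pt_t x a).trans (lmk_coord _ _).symm)

variable (A) in
/-- The affine line as an endofunctor of the smooth site. -/
def cylFun : Sm A ⥤ Sm A where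
  obj U := (cylC U).I
  map {W U} f := (cylC U).pt ((cylC W).p ≫ f) (cylC W).t
  map_id U := by rw [Category.comp_id, Cyl.pt_p_t]
  map_comp f g := by rw [Cyl.comp_pt, Cyl.pt_p_assoc, Cyl.pt_t, Category.assoc]

/-- The base change datum of the affine line. -/
def cylB (U : Sm A) : BC (lpr (Spec (.of A))) (lpr (Spec (.of A))) ((smV A).obj U)
    ((smV A).obj (cylC U).I) :=
  ⟨lpr _, AffineSpace.map (Fin 1) ((smV A).obj U).hom, AffineSpace.map_over _,
    (AffineSpace.isPullback_map _).flip⟩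

theorem cylB_q (U : Sm A) : (cylB U).q = lmk ((smV A).obj (cylC U).I).hom (cylC U).t :=
  map_eq_lmk _

theorem pt_q {U V : Sm A} (x : V ⟶ U) (a : Γ((smS A).obj V, ⊤)) :
    (smS A).map ((cylC U).pt x a) ≫ (cylB U).q = lmk ((smV A).obj V).hom a := by
  rw [cylB_q, comp_lmk, sm_w, Cyl.pt_t]

variable (A) in
/-- The affine line as a cartesian functor. -/
def cylCart : CartF (smV A) (smV A) (lpr (Spec (.of A))) (lpr (Spec (.of A))) where
  F := cylFun A
  β := cylB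
  map_π {_ U} _ := (((smS A).map_comp _ _).symm.trans
    (congrArg (smS A).map ((cylC U).pt_p _ _))).trans ((smS A).map_comp _ _)
  map_q {W _} _ := (pt_q _ _).trans (cylB_q W).symm

/-- The base change datum of the affine plane. -/
def cylB2 (U : Sm A) : BC (lpr _ ≫ lpr (Spec (.of A))) (lpr _ ≫ lpr (Spec (.of A)))
    ((smV A).obj U) ((smV A).obj (cylC (cylC U).I).I) :=
  ⟨lpr _ ≫ lpr _, AffineSpace.map (Fin 1) (AffineSpace.map (Fin 1) ((smV A).obj U).hom),
    ((AffineSpace.isPullback_map _).flip.paste_horiz (AffineSpace.isPullback_map _).flip).w.symm.trans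
      (Category.assoc _ _ _),
    (AffineSpace.isPullback_map _).flip.paste_horiz (AffineSpace.isPullback_map _).flip⟩

/-- The inner coordinate of the affine plane. -/
abbrev cylS (U : Sm A) : Γ((smS A).obj (cylC (cylC U).I).I, ⊤) :=
  ((smS A).map (cylC (cylC U).I).p).appTop (cylC U).t

theorem cylB2_q (U : Sm A) : (cylB2 U).q =
    lmk (lmk ((smV A).obj (cylC (cylC U).I).I).hom (cylS U)) (cylC (cylC U).I).t :=
  (map_eq_lmk _).trans (congrArg (lmk · _) ((congrArg (lpr _ ≫ ·) (map_eq_lmk _)).trans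
    (comp_lmk _ _ _)))

variable (m : ℕ)

variable (A) in
/-- The affine line on finite correspondences. -/
abbrev cylTr : TrS m A ⥤ TrS m A := (cylCart A).tr m

variable {m} {W U : TrS m A} (c : W ⟶ U)

theorem cylTr_map_map : (cylTr A m).map ((cylTr A m).map c) =
    Corr.bc m (cylB2 W.as) (cylB2 U.as) c := by
  have h : ∀ V : Sm A, (cylB2 V).q ≫ AffineSpace.map (Fin 1) (lpr (Spec (.of A))) =
      (cylB (cylC V).I).q := fun V =>
    (AffineSpace.map_comp _ _).symm.trans (congrArg _ (AffineSpace.map_over _))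
  exact Corr.bc_bc (cylB W.as) (cylB U.as) (cylB (cylC W.as).I) (cylB (cylC U.as).I) _ _ (lpr _)
    (AffineSpace.map (Fin 1) (lpr _)) (fun _ _ _ h h' => (AffineSpace.isPullback_map _).hom_ext h' h)
    rfl (AffineSpace.map_over _) (h _) rfl (AffineSpace.map_over _) (h _) c

theorem gam_comp {V : Sm A} (f : V ⟶ W.as) :
    (gamS m A).map f ≫ c = Corr.pull m ((smV A).map f) _ c := Corr.graph_comp _ _

theorem comp_gam {V : Sm A} (f : U.as ⟶ V) :
    c ≫ (gamS m A).map f = Corr.push m _ ((smV A).map f) c := Corr.comp_graph _ _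

theorem cyl_p_nat : (gamS m A).map (cylC W.as).p ≫ c =
    (cylTr A m).map c ≫ (gamS m A).map (cylC U.as).p := by
  rw [gam_comp, comp_gam]
  refine Eq.trans (congrArg _ (Corr.bc_refl c).symm) ?_
  exact Corr.bc_nat (lpr _) (cylB _) (cylB _) (BC.refl _) (BC.refl _) (Category.comp_id _) _ _
    (Category.comp_id _) (cylB _).pb.w (Category.comp_id _) (cylB _).pb.w c

theorem cyl_sec_nat (a : Γ(Spec (.of A), ⊤)) :
    (gamS m A).map ((cylC W.as).sec (((smV A).obj W.as).hom.appTop a)) ≫ (cylTr A m).map c =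
      c ≫ (gamS m A).map ((cylC U.as).sec (((smV A).obj U.as).hom.appTop a)) := by
  rw [gam_comp, comp_gam]
  refine Eq.trans ?_ (congrArg _ (Corr.bc_refl c))
  have h : ∀ V : Sm A, (smS A).map ((cylC V).sec (((smV A).obj V).hom.appTop a)) ≫ (cylB V).π =
      𝟙 _ := fun V => ((smS A).map_comp _ _).symm.trans
    ((congrArg (smS A).map ((cylC V).sec_p _)).trans ((smS A).map_id _))
  have h' : ∀ V : Sm A, (smS A).map ((cylC V).sec (((smV A).obj V).hom.appTop a)) ≫ (cylB V).q =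
      ((smV A).obj V).hom ≫ lmk (𝟙 _) a := fun V => by
    rw [Cyl.sec, pt_q, comp_lmk, Category.comp_id]
  exact Corr.bc_nat (lmk (𝟙 _) a) (BC.refl _) (BC.refl _) (cylB _) (cylB _) (lmk_lpr _ _) _ _
    (h _) (h' _) (h _) (h' _) c

/-- The comultiplication. -/
def cylMu (V : Sm A) : (cylC (cylC V).I).I ⟶ (cylC V).I :=
  (cylC V).pt ((cylC _).p ≫ (cylC V).p) (cylS V + (cylC _).t - cylS V * (cylC _).t)

/-- The exchange of the coordinates. -/
def cylSw (V : Sm A) : (cylC (cylC V).I).I ⟶ (cylC (cylC V).I).I :=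
  (cylC _).pt ((cylC V).pt ((cylC _).p ≫ (cylC V).p) (cylC _).t) (cylS V)

theorem cylB2_inner (V : Sm A) : (cylB2 V).q.appTop
    ((lpr _).appTop (AffineSpace.coord (Spec (.of A)) (0 : Fin 1))) = cylS V := by
  rw [← CommRingCat.comp_apply, ← Scheme.Hom.comp_appTop, cylB2_q, lmk_lpr, lmk_coord]

theorem cylB2_outer (V : Sm A) : (cylB2 V).q.appTop (AffineSpace.coord _ (0 : Fin 1)) =
    (cylC (cylC V).I).t := by
  rw [cylB2_q, lmk_coord]

theorem cyl_mu_nat : (gamS m A).map (cylMu W.as) ≫ (cylTr A m).map c =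
    (cylTr A m).map ((cylTr A m).map c) ≫ (gamS m A).map (cylMu U.as) := by
  rw [gam_comp, comp_gam, cylTr_map_map]
  have h : ∀ V : Sm A, (smS A).map (cylMu V) ≫ (cylB V).π = (cylB2 V).π := fun V =>
    ((smS A).map_comp _ _).symm.trans
      ((congrArg (smS A).map ((cylC V).pt_p _ _)).trans ((smS A).map_comp _ _))
  have h' : ∀ V : Sm A, (smS A).map (cylMu V) ≫ (cylB V).q = (cylB2 V).q ≫
      lmk (lpr _ ≫ lpr _) ((lpr _).appTop (AffineSpace.coord _ 0) + AffineSpace.coord _ 0 -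
        (lpr _).appTop (AffineSpace.coord _ 0) * AffineSpace.coord _ 0) := fun V => by
    rw [cylMu, pt_q, comp_lmk, (cylB2 V).hq, map_sub, map_add, map_mul, cylB2_inner, cylB2_outer]
  exact Corr.bc_nat _ (cylB2 _) (cylB2 _) (cylB _) (cylB _) (lmk_lpr _ _) _ _
    (h _) (h' _) (h _) (h' _) c

theorem cyl_sw_nat : (gamS m A).map (cylSw W.as) ≫ (cylTr A m).map ((cylTr A m).map c) =
    (cylTr A m).map ((cylTr A m).map c) ≫ (gamS m A).map (cylSw U.as) := by
  rw [gam_comp, comp_gam, cylTr_map_map]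
  have h : ∀ V : Sm A, (smS A).map (cylSw V) ≫ (cylB2 V).π = (cylB2 V).π := fun V => by
    have e : cylSw V ≫ (cylC _).p ≫ (cylC V).p = (cylC _).p ≫ (cylC V).p := by
      rw [cylSw, Cyl.pt_p_assoc, Cyl.pt_p]
    exact congrArg (smS A).map e
  have h' : ∀ V : Sm A, (smS A).map (cylSw V) ≫ (cylB2 V).q = (cylB2 V).q ≫
      lmk (lmk (lpr _ ≫ lpr _) (AffineSpace.coord _ 0))
        ((lpr _).appTop (AffineSpace.coord _ 0)) := fun V => by
    rw [comp_lmk, comp_lmk, (cylB2 V).hq, cylB2_inner, cylB2_outer, cylB2_q, comp_lmk, comp_lmk,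
      sm_w, ← CommRingCat.comp_apply, ← Scheme.Hom.comp_appTop, ← Functor.map_comp, cylSw, Cyl.pt_p,
      Cyl.pt_t, Cyl.pt_t]
  exact Corr.bc_nat _ (cylB2 _) (cylB2 _) (cylB2 _) (cylB2 _)
    (by rw [← Category.assoc, lmk_lpr, lmk_lpr]) _ _ (h _) (h' _) (h _) (h' _) c

theorem cyl_sec0_nat : (gamS m A).map ((cylC W.as).sec 0) ≫ (cylTr A m).map c =
    c ≫ (gamS m A).map ((cylC U.as).sec 0) := by
  have := cyl_sec_nat c 0
  rwa [map_zero, map_zero] at this

theorem cyl_sec1_nat : (gamS m A).map ((cylC W.as).sec 1) ≫ (cylTr A m).map c =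
    c ≫ (gamS m A).map ((cylC U.as).sec 1) := by
  have := cyl_sec_nat c 1
  rwa [map_one, map_one] at this

theorem cylTr_gam {V V' : Sm A} (f : V ⟶ V') : (cylTr A m).map ((gamS m A).map f) =
    (gamS m A).map ((cylC V').pt ((cylC V).p ≫ f) (cylC V).t) := (cylCart A).tr_map_gam m f

theorem smS_appTop_comp {V V' V'' : Sm A} (f : V ⟶ V') (g : V' ⟶ V'') (a : Γ((smS A).obj V'', ⊤)) :
    ((smS A).map f).appTop (((smS A).map g).appTop a) = ((smS A).map (f ≫ g)).appTop a := by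
  rw [Functor.map_comp, Scheme.Hom.comp_appTop]
  rfl

theorem smS_appTop_id {V : Sm A} (a : Γ((smS A).obj V, ⊤)) :
    ((smS A).map (𝟙 V)).appTop a = a := by
  rw [CategoryTheory.Functor.map_id, Scheme.Hom.id_appTop]
  rfl

theorem pt_cylMu {V Z : Sm A} (x : Z ⟶ V) (a b : Γ((smS A).obj Z, ⊤)) :
    (cylC _).pt ((cylC V).pt x a) b ≫ cylMu V = (cylC V).pt x (a + b - a * b) := by
  rw [cylMu, Cyl.comp_pt, Cyl.pt_p_assoc, Cyl.pt_p, map_sub, map_add, map_mul, smS_appTop_comp,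
    Cyl.pt_p, Cyl.pt_t, Cyl.pt_t]

theorem pt_cylSw {V Z : Sm A} (x : Z ⟶ V) (a b : Γ((smS A).obj Z, ⊤)) :
    (cylC _).pt ((cylC V).pt x a) b ≫ cylSw V = (cylC _).pt ((cylC V).pt x b) a := by
  rw [cylSw, Cyl.comp_pt, Cyl.comp_pt, Cyl.pt_p_assoc, Cyl.pt_p, smS_appTop_comp, Cyl.pt_p,
    Cyl.pt_t, Cyl.pt_t]

theorem sec_out (V : Sm A) (b : Γ((smS A).obj (cylC V).I, ⊤)) :
    (cylC (cylC V).I).sec b = (cylC _).pt ((cylC V).pt (cylC V).p (cylC V).t) b := by
  rw [Cyl.pt_p_t, Cyl.sec]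

theorem p_sec (V : Sm A) (a : Γ((smS A).obj V, ⊤)) :
    (cylC V).p ≫ (cylC V).sec a = (cylC V).pt (cylC V).p (((smS A).map (cylC V).p).appTop a) := by
  rw [Cyl.sec, Cyl.comp_pt, Category.comp_id]

theorem cylMu_out0 (V : Sm A) : (cylC (cylC V).I).sec 0 ≫ cylMu V = 𝟙 _ := by
  rw [sec_out, pt_cylMu, add_zero, mul_zero, sub_zero, Cyl.pt_p_t]

theorem cylMu_out1 (V : Sm A) :
    (cylC (cylC V).I).sec 1 ≫ cylMu V = (cylC V).p ≫ (cylC V).sec 1 := by
  rw [sec_out, pt_cylMu, p_sec, map_one, mul_one, add_sub_cancel_left]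

theorem cylMu_in0 (V : Sm A) :
    (cylC (cylC V).I).pt ((cylC V).p ≫ (cylC V).sec 0) (cylC V).t ≫ cylMu V = 𝟙 _ := by
  rw [p_sec, pt_cylMu, map_zero, zero_add, zero_mul, sub_zero, Cyl.pt_p_t]

theorem cylMu_in1 (V : Sm A) :
    (cylC (cylC V).I).pt ((cylC V).p ≫ (cylC V).sec 1) (cylC V).t ≫ cylMu V =
      (cylC V).p ≫ (cylC V).sec 1 := by
  rw [p_sec, pt_cylMu, map_one, one_mul, add_sub_cancel_right]

theorem cylSw_out0 (V : Sm A) : (cylC (cylC V).I).sec 0 ≫ cylSw V =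
    (cylC (cylC V).I).pt ((cylC V).p ≫ (cylC V).sec 0) (cylC V).t := by
  rw [sec_out, pt_cylSw, p_sec, map_zero]

theorem cylSw_out1 (V : Sm A) : (cylC (cylC V).I).sec 1 ≫ cylSw V =
    (cylC (cylC V).I).pt ((cylC V).p ≫ (cylC V).sec 1) (cylC V).t := by
  rw [sec_out, pt_cylSw, p_sec, map_one]

theorem cylSw_sw (V : Sm A) : cylSw V ≫ cylSw V = 𝟙 _ := by
  refine (pt_cylSw _ _ _).trans (Eq.trans (congrArg ((cylC _).pt · _) ?_) (Cyl.pt_p_t _))
  rw [← Cyl.comp_pt, Cyl.pt_p_t, Category.comp_id]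

theorem gam_op_comp {V V' V'' : Sm A} {f : V ⟶ V'} {g : V' ⟶ V''} {k : V ⟶ V''} (h : f ≫ g = k) :
    ((gamS m A).map g).op ≫ ((gamS m A).map f).op = ((gamS m A).map k).op := by
  rw [← op_comp, ← Functor.map_comp, h]

theorem gam_op_in {V V' Z : Sm A} {f : V ⟶ V'} {g : (cylC V').I ⟶ Z} {k : (cylC V).I ⟶ Z}
    (h : (cylC V').pt ((cylC V).p ≫ f) (cylC V).t ≫ g = k) :
    ((gamS m A).map g).op ≫ ((cylTr A m).map ((gamS m A).map f)).op = ((gamS m A).map k).op := by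
  rw [cylTr_gam]
  exact gam_op_comp h

theorem gam_op_id (V : Sm A) : ((gamS m A).map (𝟙 V)).op = 𝟙 _ := by
  rw [CategoryTheory.Functor.map_id, op_id]

variable (A m) in
/-- The affine line as a cylinder on finite correspondences. -/
def trCyl : L8.CylD (TrS m A)ᵒᵖ where
  I := (cylTr A m).op
  p B := ((gamS m A).map (cylC B.unop.as).p).op
  i0 B := ((gamS m A).map ((cylC B.unop.as).sec 0)).op
  i1 B := ((gamS m A).map ((cylC B.unop.as).sec 1)).op
  mu B := ((gamS m A).map (cylMu B.unop.as)).op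
  sw B := ((gamS m A).map (cylSw B.unop.as)).op
  p_nat f := congrArg Quiver.Hom.op (cyl_p_nat f.unop)
  i0_nat f := congrArg Quiver.Hom.op (cyl_sec0_nat f.unop)
  i1_nat f := congrArg Quiver.Hom.op (cyl_sec1_nat f.unop)
  mu_nat f := congrArg Quiver.Hom.op (cyl_mu_nat f.unop)
  sw_nat f := congrArg Quiver.Hom.op (cyl_sw_nat f.unop)
  p_i0 _ := (gam_op_comp (Cyl.sec_p _ _)).trans (gam_op_id _)
  p_i1 _ := (gam_op_comp (Cyl.sec_p _ _)).trans (gam_op_id _)
  mu_out0 B := (gam_op_comp (cylMu_out0 B.unop.as)).trans (gam_op_id _)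
  mu_out1 B := (gam_op_comp (cylMu_out1 B.unop.as)).trans (gam_op_comp rfl).symm
  mu_in0 B := (gam_op_in (cylMu_in0 B.unop.as)).trans (gam_op_id _)
  mu_in1 B := (gam_op_in (cylMu_in1 B.unop.as)).trans (gam_op_comp rfl).symm
  sw_out0 B := (gam_op_comp (cylSw_out0 B.unop.as)).trans
    (congrArg Quiver.Hom.op (cylTr_gam _)).symm
  sw_out1 B := (gam_op_comp (cylSw_out1 B.unop.as)).trans
    (congrArg Quiver.Hom.op (cylTr_gam _)).symm
  sw_sw B := (gam_op_comp (cylSw_sw B.unop.as)).trans (gam_op_id _)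

instance : (trCyl A m).I.Additive := inferInstanceAs (cylTr A m).op.Additive

end Pool.Agent.KEW
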