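import Pool.Agent.P.MP_6277db_ag.KEW.G.Cut
import Pool.Agent.P.MP_6277db_ag.KEW.G.Pts
import Pool.Agent.P.MP_6277db_ag.KEW.L8b.Rad
import Pool.Agent.P.MP_6277db_ag.KEW.TensW

/-!
KEW project, layer L8b, row JW: direct images along base change of the smooth site.

Hints.
* `exists_nisSq_bc`: `bc_map_isPullback`; `uniq` and `res` say that every field valued point outside the open part lifts
  uniquely (`Geom_fac`, `Geom_pt_ext`, `Geom_res_of_sec`, `Geom_sec_of_res`), which is stable under base change.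
* `isLocal_rs`: `IsSite.isLocal_nis_iff`; a test complex `T` is a `FinCell (rs L Φ) ⊤` with lift the test complex of
  `Φ ⋙ rep` (`TrData` with `P = ⊤`, `ρ = Φ ⋙ rep`, `cellQ`, `FinCell.single`, `FinCell.shift`, `FinCell.exists_lift`,
  `orth_G0_iff`, `FinCell.isKProjective`, `IsLocal.homotopy_of_map_eq`, `Functor.mapHomotopy`).
* `isLocal_bc`: `IsLocal.of_nis_of_cyl`; the base change of a cylinder is a cylinder (`bcLift`, `bc_ext`, `st_bc`),
  `IsLocal.bijective_cyl`, `TW_homologyMapIso`.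
* `locZero_jj`: `locZero_cut_of_dies`, `dies_gen` with `fcmp f P`, `locZero_iff_dies`.
* `jj_gen`: first kind of generator: `TW_homologyMapIso`, `locZero_jj`. Second kind: for `P = JJ (K ⊗ line)` there is a
  natural map `P ⊗ line ⟶ P`, `(k ⊗ [a]) ⊗ [b] ↦ k ⊗ [a * π^* b]`, with section `x ↦ x ⊗ [1]` (`lineEl`); so the complex
  is a retract of `(tens line).obj _` (`Loc.of_retract`; compare `loc_sgl_of_contraction` in L2b/Sum.lean).
-/

set_option backward.isDefEq.respectTransparency false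

noncomputable section

open CategoryTheory Limits AlgebraicGeometry Opposite MonoidalCategory

namespace Pool.Agent.KEW

open _root_.KEW

section

variable {C C' : Type 1} [Category.{0} C] [Category.{0} C'] {L : Type 1} [CommRing L]
  {u : C ⥤ Scheme.{0}} {u' : C' ⥤ Scheme.{0}}

/-- `Φ` sends the empty scheme to the empty scheme and elementary squares to elementary squares. -/
structure PresSq (u : C ⥤ Scheme.{0}) (u' : C' ⥤ Scheme.{0}) (Φ : C ⥤ C') : Prop where
  empty : ∀ U, IsEmpty (u.obj U) → IsEmpty (u'.obj (Φ.obj U))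
  open_i : ∀ S : NisSq u, IsOpenImmersion (u'.map (Φ.map S.i))
  etale_f : ∀ S : NisSq u, Etale (u'.map (Φ.map S.f))
  pb : ∀ S : NisSq u, IsPullback (u'.map (Φ.map S.j)) (u'.map (Φ.map S.g)) (u'.map (Φ.map S.f))
    (u'.map (Φ.map S.i))
  uniq : ∀ (S : NisSq u) (x : u'.obj (Φ.obj S.X)), x ∉ Set.range (u'.map (Φ.map S.i)) →
    ∃! y : u'.obj (Φ.obj S.Y), u'.map (Φ.map S.f) y = x
  res : ∀ (S : NisSq u) (y : u'.obj (Φ.obj S.Y)),
    u'.map (Φ.map S.f) y ∉ Set.range (u'.map (Φ.map S.i)) →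
      IsIso ((u'.map (Φ.map S.f)).residueFieldMap y)

/-- A point with a unique preimage with trivial residue field extension keeps this property after
base change. -/
lemma JW_pt {X Y X' Y' : Scheme.{0}} {pY : Y' ⟶ Y} {f' : Y' ⟶ X'} {f : Y ⟶ X} {pX : X' ⟶ X}
    (H : IsPullback pY f' f pX) (x : X') (y : Y) (hy : f y = pX x) (hy' : ∀ z, f z = pX x → z = y)
    (hres : IsIso (f.residueFieldMap y)) :
    ∃ y₀, (f' y₀ = x ∧ IsIso (f'.residueFieldMap y₀)) ∧ ∀ z, f' z = x → z = y₀ := by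
  obtain ⟨s, hs, -⟩ := Geom_sec_of_res f hy hres
  have hc : (Spec.map (pX.residueFieldMap x) ≫ s) ≫ f = X'.fromSpecResidueField x ≫ pX := by
    rw [Category.assoc, hs, Scheme.Hom.SpecMap_residueFieldMap_fromSpecResidueField]
  refine ⟨H.lift _ _ hc default, Geom_res_of_sec f' x _ (H.lift_snd _ _ _) default, ?_⟩
  rintro z rfl
  have h1 : Y'.fromSpecResidueField z ≫ f' =
      (Spec.map (f'.residueFieldMap z) ≫ H.lift _ _ hc) ≫ f' := by
    rw [Category.assoc, H.lift_snd, Scheme.Hom.SpecMap_residueFieldMap_fromSpecResidueField]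
  have h2 : ∀ a : Spec (Y'.residueField z) ⟶ Y', a ≫ f' = Y'.fromSpecResidueField z ≫ f' →
      ∀ t, (a ≫ pY) t = y := fun a ha t => hy' _ (by
    rw [← Scheme.Hom.comp_apply, Category.assoc, H.w, ← Category.assoc, ha, Category.assoc,
      Scheme.Hom.comp_apply, Scheme.fromSpecResidueField_apply, Scheme.Hom.comp_apply])
  have h3 : Y'.fromSpecResidueField z = Spec.map (f'.residueFieldMap z) ≫ H.lift _ _ hc := by
    refine H.hom_ext (Geom_pt_ext f hres (K := Y'.residueField z) (h2 _ rfl _) (h2 _ h1.symm _) ?_)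
      h1
    rw [Category.assoc, H.w, ← Category.assoc, h1, Category.assoc, ← H.w]
    exact (Category.assoc _ _ _).symm
  have h4 := congrArg (fun a : Spec (Y'.residueField z) ⟶ Y' => a default) h3
  simp only [Scheme.fromSpecResidueField_apply, Scheme.Hom.comp_apply] at h4
  exact h4.trans (congrArg _ (Subsingleton.elim _ _))

/-- A functor with cartesian projections preserves elementary squares. -/
theorem presSq_of_cart (Φ : C ⥤ C') (p : ∀ U, u'.obj (Φ.obj U) ⟶ u.obj U)
    (hp : ∀ {U V : C} (φ : U ⟶ V), IsPullback (p U) (u'.map (Φ.map φ)) (u.map φ) (p V)) :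
    PresSq u u' Φ := by
  have key : ∀ (S : NisSq u) (x : u'.obj (Φ.obj S.X)), x ∉ Set.range (u'.map (Φ.map S.i)) →
      ∃ y₀, (u'.map (Φ.map S.f) y₀ = x ∧ IsIso ((u'.map (Φ.map S.f)).residueFieldMap y₀)) ∧
        ∀ y, u'.map (Φ.map S.f) y = x → y = y₀ := by
    intro S x hx
    have h1 : p S.X x ∉ Set.range (u.map S.i) := by
      rintro ⟨a, ha⟩
      obtain ⟨a', -, ha'⟩ := Scheme.exists_preimage_of_isPullback (hp S.i) a x ha
      exact hx ⟨a', ha'⟩
    obtain ⟨y, hy, hy'⟩ := S.uniq _ h1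
    exact JW_pt (hp S.f) x y hy hy' (S.res y (hy ▸ h1))
  refine ⟨fun U hU => ⟨fun x => hU.elim (p U x)⟩,
    fun S => MorphismProperty.of_isPullback (hp S.i) S.open_i,
    fun S => MorphismProperty.of_isPullback (hp S.f) S.etale_f, fun S => ?_, fun S x hx => ?_,
    fun S y hy => ?_⟩
  · refine IsPullback.of_right ?_ (by simp only [← Functor.map_comp, S.w]) (hp S.f)
    rw [← (hp S.j).w, ← (hp S.i).w]
    exact (hp S.g).paste_horiz S.pb
  · obtain ⟨y, hy, hy'⟩ := key S x hx
    exact ⟨y, hy.1, hy'⟩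
  · obtain ⟨y₀, hy₀, hy'⟩ := key S _ hy
    rw [hy' y rfl]
    exact hy₀.2

variable (L) in
/-- The representables of the images represent the sections of a restriction. -/
def JW_tr (Φ : C ⥤ C') : TrData L Φ where
  P _ := True
  closed := closedCl_top
  ρ := Φ ⋙ rep C' L
  mem _ := trivial
  e U := repEl L (𝟙 (Φ.obj U))
  e_nat _ := (rep_map_repEl _ _).trans
    ((congrArg (repEl L) ((Category.id_comp _).trans (Category.comp_id _).symm)).trans
      (map_repEl _ _).symm)
  yoneda U F _ := repSec_bijective (Φ.obj U) F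

lemma JW_orth {R : PSh C' L ⥤ PSh C L} [IsExact R] {T : Ch C L} (c : FinCell R (fun _ => True) T)
    [c.T'.IsKProjective] {X : Ch C' L} (h : Orth (G0 C' L) c.T' X) :
    Orth (G0 C L) T ((mapC R).obj X) := by
  have := c.isKProjective
  rw [orth_G0_iff] at h ⊢
  intro n g
  obtain ⟨φ, rfl⟩ := (c.shift n).exists_lift (fun _ => trivial) g
  obtain ⟨H⟩ := h n φ
  exact ⟨((R.mapHomotopy H).compLeft (c.shift n).η).trans (Homotopy.ofEq (by simp))⟩

theorem isLocal_rs (hu : IsSite u) (hu' : IsSite u') {Φ : C ⥤ C'} (h : PresSq u u' Φ) {X : Ch C' L}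
    (hX : IsLocal (NisGen u') X) : IsLocal (NisGen u) ((mapC (rs L Φ)).obj X) := by
  have hX' := (hu'.isLocal_nis_iff X).1 hX
  refine (hu.isLocal_nis_iff _).2 ?_
  rintro _ (⟨U, hU, rfl⟩ | ⟨S, rfl⟩)
  · have : (FinCell.single closedCl_top ((JW_tr L Φ).goodTerm U) 0).T'.IsKProjective :=
      (FinCell.single closedCl_top (goodTerm_rep (L := L) (Φ.obj U)) 0).isKProjective
    exact JW_orth (FinCell.single closedCl_top ((JW_tr L Φ).goodTerm U) 0)
      (hX' _ (Or.inl ⟨Φ.obj U, h.empty U hU, rfl⟩))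
  · let S' : NisSq u' := ⟨_, _, _, _, Φ.map S.i, Φ.map S.f, Φ.map S.j, Φ.map S.g,
      by simp only [← Functor.map_comp, S.w], h.open_i S, h.etale_f S, h.pb S, h.uniq S, h.res S⟩
    have : (cellQ closedCl_top (JW_tr L Φ).goodTerm S).T'.IsKProjective :=
      (cellQ (R := 𝟭 (PSh C' L)) closedCl_top (ρ := rep C' L) (e := 𝟙 _)
        (fun U => goodTerm_rep U) S').isKProjective
    exact JW_orth (cellQ closedCl_top (JW_tr L Φ).goodTerm S) (hX' _ (Or.inr ⟨S', rfl⟩))

variable (u) in
/-- A natural action of the functions on a presheaf which contracts it. -/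
structure JW_Con (P : PSh C L) where
  /-- the action -/
  μ : ∀ V : C, Γ(u.obj V, ⊤) → (P.obj (op V) →ₗ[L] P.obj (op V))
  nat : ∀ {V W : C} (φ : W ⟶ V) (b : Γ(u.obj V, ⊤)) (x : P.obj (op V)),
    P.map φ.op (μ V b x) = μ W ((u.map φ).appTop b) (P.map φ.op x)
  zero : ∀ V, μ V 0 = 0
  one : ∀ V, μ V 1 = LinearMap.id

/-- The action as a bilinear map. -/
def JW_Con.lin {P : PSh C L} (c : JW_Con u P) (V : C) :
    (u.op ⋙ line L).obj (op V) →ₗ[L] P.obj (op V) →ₗ[L] P.obj (op V) :=
  Submodule.liftQ _ (Finsupp.linearCombination L (c.μ V)) (by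
    rw [Finsupp.supported_eq_span_single, Submodule.span_le]
    rintro _ ⟨a, rfl, rfl⟩
    simp [c.zero])

lemma JW_Con.lin_el {P : PSh C L} (c : JW_Con u P) (V : C) (b : Γ(u.obj V, ⊤)) :
    c.lin V (lineEl L u b) = c.μ V b := by
  rw [JW_Con.lin, lineEl]
  erw [Submodule.liftQ_apply, Finsupp.linearCombination_single]
  rw [one_smul]

lemma JW_line_ext {V : C} {M : Type 1} [AddCommGroup M] [Module L M]
    {f g : (u.op ⋙ line L).obj (op V) →ₗ[L] M}
    (h : ∀ a : Γ(u.obj V, ⊤), f (lineEl L u a) = g (lineEl L u a)) : f = g :=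
  Submodule.linearMap_qext _ (Finsupp.lhom_ext' fun a => LinearMap.ext_ring (h a))

lemma JW_Con.loc {P : PSh C L} (c : JW_Con u P) : Loc (NGen u) ((sgl 0).obj P) := by
  let s : P ⟶ P ⊗ (u.op ⋙ line L) :=
    { app := fun V => ModuleCat.ofHom
        ((TensorProduct.mk L (P.obj V) ((u.op ⋙ line L).obj V)).flip (lineEl L u 1))
      naturality := fun V W φ => ModuleCat.hom_ext (LinearMap.ext fun x => by
        change P.map φ x ⊗ₜ[L] lineEl L u 1 =
          P.map φ x ⊗ₜ[L] (u.op ⋙ line L).map φ.unop.op (lineEl L u 1)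
        rw [map_lineEl, map_one]) }
  let r : P ⊗ (u.op ⋙ line L) ⟶ P :=
    { app := fun V => ModuleCat.ofHom (TensorProduct.lift (c.lin V.unop).flip)
      naturality := fun V W φ => ModuleCat.hom_ext (TensorProduct.ext (LinearMap.ext fun x =>
        JW_line_ext (V := V.unop) fun a => by
          change c.lin W.unop ((u.op ⋙ line L).map φ.unop.op (lineEl L u a)) (P.map φ x) =
            P.map φ (c.lin V.unop (lineEl L u a) x)
          rw [map_lineEl, c.lin_el, c.lin_el]
          exact (c.nat φ.unop a x).symm)) }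
  have e : s ≫ r = 𝟙 P := by
    ext V x
    change c.lin V.unop (lineEl L u 1) x = x
    rw [c.lin_el, c.one]
    rfl
  exact Loc.of_retract ((sgl 0).map s) ((sgl 0).map r)
    (by rw [← Functor.map_comp, e, CategoryTheory.Functor.map_id]) (loc_sgl_tensor_line P 0)

variable (u L) in
/-- Multiplication on the reduced affine line. -/
def JW_mul (V : C) (b : Γ(u.obj V, ⊤)) :
    (u.op ⋙ line L).obj (op V) →ₗ[L] (u.op ⋙ line L).obj (op V) :=
  Submodule.mapQ _ _ (Finsupp.lmapDomain L L fun a : Γ(u.obj V, ⊤) => a * b)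
    ((Finsupp.supported_mono (t := (fun a : Γ(u.obj V, ⊤) => a * b) ⁻¹' {0})
      (by rintro _ rfl; simp)).trans (Finsupp.supported_comap_lmapDomain L L _ _))

lemma JW_mul_el (V : C) (a b : Γ(u.obj V, ⊤)) :
    JW_mul L u V b (lineEl L u a) = lineEl L u (a * b) :=
  congrArg Submodule.Quotient.mk (Finsupp.mapDomain_single (f := fun a : Γ(u.obj V, ⊤) => a * b))

/-- The reduced affine line is contracted by multiplication. -/
def JW_Con.line : JW_Con u (u.op ⋙ line L) where
  μ := JW_mul L u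
  nat {V W} φ b x := LinearMap.congr_fun (JW_line_ext
    (f := ((u.op ⋙ Pool.Agent.KEW.line L).map φ.op).hom ∘ₗ JW_mul L u V b)
    (g := JW_mul L u W ((u.map φ).appTop b) ∘ₗ ((u.op ⋙ Pool.Agent.KEW.line L).map φ.op).hom)
    fun a => by
      change (u.op ⋙ Pool.Agent.KEW.line L).map φ.op (JW_mul L u V b (lineEl L u a)) =
        JW_mul L u W _ ((u.op ⋙ Pool.Agent.KEW.line L).map φ.op (lineEl L u a))
      rw [JW_mul_el, map_lineEl, map_lineEl, JW_mul_el, map_mul]) x
  zero V := JW_line_ext fun a => by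
    rw [JW_mul_el, mul_zero, lineEl_zero]
    rfl
  one V := JW_line_ext fun a => by
    rw [JW_mul_el, mul_one]
    rfl

/-- Tensor products with a contracted presheaf are contracted. -/
def JW_Con.tensor {P : PSh C L} (c : JW_Con u P) (G : PSh C L) : JW_Con u (G ⊗ P) where
  μ V b := LinearMap.lTensor (G.obj (op V)) (c.μ V b)
  nat {V W} φ b x := LinearMap.congr_fun (TensorProduct.ext'
    (g := ((G ⊗ P).map φ.op).hom ∘ₗ LinearMap.lTensor (G.obj (op V)) (c.μ V b))
    (h := LinearMap.lTensor (G.obj (op W)) (c.μ W ((u.map φ).appTop b)) ∘ₗ ((G ⊗ P).map φ.op).hom)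
    fun g y => congrArg (G.map φ.op g ⊗ₜ[L] ·) (c.nat φ b y)) x
  zero V := by rw [c.zero, LinearMap.lTensor_zero]
  one V := by rw [c.one, LinearMap.lTensor_id]

/-- Direct images of contracted presheaves are contracted. -/
def JW_Con.res {P : PSh C' L} (c : JW_Con u' P) (Φ : C ⥤ C')
    (p : ∀ U, u'.obj (Φ.obj U) ⟶ u.obj U)
    (hp : ∀ {U V : C} (φ : U ⟶ V), u'.map (Φ.map φ) ≫ p V = p U ≫ u.map φ) :
    JW_Con u ((rs L Φ).obj P) where
  μ V b := c.μ (Φ.obj V) ((p V).appTop b)
  nat {V W} φ b x := by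
    have e : (u'.map (Φ.map φ)).appTop ((p V).appTop b) = (p W).appTop ((u.map φ).appTop b) := by
      rw [← CommRingCat.comp_apply, ← CommRingCat.comp_apply, ← Scheme.Hom.comp_appTop,
        ← Scheme.Hom.comp_appTop, hp]
    rw [← e]
    exact c.nat (Φ.map φ) _ x
  zero V := by rw [map_zero, c.zero]
  one V := by rw [map_one, c.one]

/-- Extensions by zero of contracted presheaves are contracted. -/
def JW_Con.cut {P : PSh C L} (c : JW_Con u P) (S : Siev C) : JW_Con u ((cut L S).obj P) where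
  μ V b := (c.μ V b).restrict (cutSub_map id _)
  nat φ b x := Subtype.ext (c.nat φ b x.1)
  zero V := LinearMap.ext fun x => Subtype.ext (LinearMap.congr_fun (c.zero V) x.1)
  one V := LinearMap.ext fun x => Subtype.ext (LinearMap.congr_fun (c.one V) x.1)

end

variable {A : Type} [CommRing A] {L : Type 1} [CommRing L]

/-- The affine line over a smooth scheme, with its universal property for all schemes. -/
lemma JW_exists_cyl (U : Sm A) : ∃ c : Cyl (smS A) U, ∀ V : Scheme.{0}, Function.Bijective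
    fun φ : V ⟶ (smS A).obj c.I => (φ ≫ (smS A).map c.p, φ.appTop c.t) := by
  have hs := Sites_smooth_affineSpace ((smS A).obj U)
  let I : Sm A := smMk ((𝔸(Fin 1; (smS A).obj U) ↘ (smS A).obj U) ≫ ((smV A).obj U).hom)
  let p : I ⟶ U := smHom (𝔸(Fin 1; (smS A).obj U) ↘ (smS A).obj U) rfl
  have key : ∀ V : Scheme.{0}, Function.Bijective fun φ : V ⟶ (smS A).obj I =>
      (φ ≫ (smS A).map p, φ.appTop (AffineSpace.coord ((smS A).obj U) 0)) := fun V => by
    refine ⟨fun φ ψ h => AffineSpace.hom_ext (congrArg Prod.fst h) fun i => ?_, fun ⟨g, t⟩ =>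
      ⟨AffineSpace.homOfVector g fun _ => t, Prod.ext (AffineSpace.homOfVector_over _ _)
        (AffineSpace.homOfVector_appTop_coord _ _ _)⟩⟩
    obtain rfl : i = 0 := Subsingleton.elim _ _
    exact congrArg Prod.snd h
  refine ⟨⟨I, p, AffineSpace.coord ((smS A).obj U) 0, fun V => ⟨fun φ ψ h => ?_, ?_⟩⟩, key⟩
  · exact sm_ext ((key _).1 (Prod.ext (congrArg (fun x => (smS A).map x.1) h :)
      (congrArg Prod.snd h :)))
  · rintro ⟨g, t⟩
    obtain ⟨k, hk⟩ := (key _).2 ((smS A).map g, t)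
    have h1 : k ≫ (smS A).map p = (smS A).map g := congrArg Prod.fst hk
    refine ⟨smHom k (by rw [← sm_w p, ← Category.assoc, h1, sm_w]), Prod.ext (sm_ext h1) ?_⟩
    exact (congrArg Prod.snd hk :)

theorem isLocal_bc {F : Type} [CommRing F] [IsNoetherianRing A] [IsNoetherianRing F] (f : A →+* F)
    {X : Ch (Sm F) L} (h : IsLocal (NGen (smS F)) X) :
    IsLocal (NGen (smS A)) ((mapC (rs L (bcFun f))).obj X) := by
  refine (isLocal_rs (isSite_sm A) (isSite_sm F)
    (presSq_of_cart (bcFun f) (bcπ f) (bc_map_isPullback f)) h.nis).of_nis_of_cyl fun U => ?_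
  obtain ⟨c, hc⟩ := JW_exists_cyl U
  have e : ∀ {V : Sm F} (φ : V ⟶ (bcFun f).obj c.I),
      ((smS F).map φ).appTop ((bcπ f c.I).appTop c.t) = ((smS F).map φ ≫ bcπ f c.I).appTop c.t :=
    fun φ => by rw [Scheme.Hom.comp_appTop, CommRingCat.comp_apply]
  have e' : ∀ {V : Sm F} (φ : V ⟶ (bcFun f).obj c.I), ((smS F).map φ ≫ bcπ f c.I) ≫ (smS A).map c.p =
      (smS F).map (φ ≫ (bcFun f).map c.p) ≫ bcπ f U := fun φ => by
    rw [Functor.map_comp, Category.assoc, Category.assoc, bc_map_π]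
  let c' : Cyl (smS F) ((bcFun f).obj U) :=
    ⟨(bcFun f).obj c.I, (bcFun f).map c.p, (bcπ f c.I).appTop c.t, fun V => by
      refine ⟨fun φ ψ h => bc_ext ((hc _).1 (Prod.ext ?_ ?_)), fun ⟨g, t⟩ => ?_⟩
      · have h1 : φ ≫ (bcFun f).map c.p = ψ ≫ (bcFun f).map c.p := (Prod.ext_iff.1 h).1
        exact (e' φ).trans (by rw [h1]; exact (e' ψ).symm)
      · exact (e φ).symm.trans ((Prod.ext_iff.1 h).2.trans (e ψ))
      · obtain ⟨k, hk⟩ := (hc _).2 ((smS F).map g ≫ bcπ f U, t)
        have h1 : k ≫ (smS A).map c.p = (smS F).map g ≫ bcπ f U := congrArg Prod.fst hk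
        have w : k ≫ ((smV A).obj c.I).hom = ((smV F).obj V).hom ≫ spm f := by
          rw [← sm_w c.p, ← Category.assoc, h1, Category.assoc, (bc_isPullback f U).w,
            ← Category.assoc, sm_w]
        refine ⟨bcLift k w, Prod.ext (bc_ext ?_) ?_⟩
        · exact (e' _).symm.trans (by rw [bcLift_π, h1])
        · exact (e _).trans (by rw [bcLift_π]; exact congrArg Prod.snd hk)⟩
  refine ⟨c, fun q => (ConcreteCategory.isIso_iff_bijective _).1 ?_⟩
  exact (NatIso.isIso_map_iff (TW_homologyMapIso (rs L (bcFun f)) X q) c.p.op).2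
    ((ConcreteCategory.isIso_iff_bijective _).2 (h.bijective_cyl c' q))

variable {F : Type} [Field F] [IsNoetherianRing A] {π : A} {f : A →+* F}

theorem locZero_jj (hf : RadBC π f) {P : PSh (Sm F) L} (h : LocZero (smS F) P) :
    LocZero (smS A) ((JJ L f π).obj P) := by
  refine (locZero_iff _).2 fun U a x => ?_
  by_cases hU : Gen π U
  · refine (locZero_cut_of_dies π ((rs L (bcFun f)).obj P) ?_ U hU a.1 x).mono
      fun V g hg => Subtype.ext hg
    intro R K _ _ β y hβ hy z
    obtain ⟨R', _, i, j, hi⟩ := exists_isPO β f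
    exact dies_gen hf (fcmp f P) hβ hi z
      (fun K' _ y' => (locZero_iff_dies P).1 h R' K' j y' (hi.ep hβ) _) y hy
  · rw [cut_eq_zero (S := genS π) ((rs L (bcFun f)).obj P) hU a]
    exact Site_el_zero _ U x

theorem jj_gen (hf : RadBC π f) (X : Ch (Sm F) L) (h : NGen (smS F) X) :
    Loc (NGen (smS A)) ((mapC (JJ L f π)).obj X) := by
  rcases h with h | ⟨K, rfl⟩
  · exact Loc.gen _ (Or.inl fun q =>
      (locZero_jj hf (h q)).of_iso (TW_homologyMapIso (JJ L f π) X q).symm)
  · have := isExact_tensor_line (u := smS F) (L := L)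
    exact loc_map_of_rep (tensorRight ((smS F).op ⋙ line L) ⋙ JJ L f π) (fun U =>
      (((JW_Con.line.tensor _).res (bcFun f) (bcπ f) (bc_map_π f)).cut (genS π)).loc) K

end Pool.Agent.KEW
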