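import Pool.Agent.P.MP_6277db_ag.KEW.L8b.GB
import Pool.Agent.P.MP_6277db_ag.KEW.L7.Alg1
import Pool.Agent.P.MP_6277db_ag.KEW.L6.Main

/-!
KEW project, layer L8b, row EV: eventual isomorphisms along the special fibre.

Hints. `EE.cancel`, `IsPO.ee`, `EE.comp`, `exists_isPO`, `L6.rf_map_map`, `RF.map_congr`; all rings that occur are `EP`
over `A` (`S7.ep_etale`).
* `G2.of_inj`: if `a|E' = ψ^* b` and `θ a = 0`, then `θ b` dies on `B2 = E' ⧸ X`, which is `EE` over `B`; replace `B1` by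
  `B2` and `E'` by `E' ⊗_B1 B2`.
* `GB.transfer`, `GB.bij`: push the neighbourhood `j : E → E'` out along `ψ` (resp. along `φ`).
* `EvIso.bijective_of_zero`: for `π = 0` the `EE` maps are bijective (`L6.ee_zero`, `L6.rf_bijective`).
-/

namespace KEW

universe u v w w'

variable {A B : Type u} [CommRing A] [CommRing B] {π : A} {h : RF.{u, v} A} {g : RF.{u, w} A}
  {k : RF.{u, w'} A}

/-- `θ` is an isomorphism on germs along the special fibre of `B`. -/
structure EvIso (π : A) (β : A →+* B) (θ : h.Hom g) : Prop where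
  inj : ∀ (E : Type u) [CommRing E] (e : B →+* E), EE (Ideal.span {β π}) e →
    ∀ x : h.obj (e.comp β), θ.app _ x = 0 →
    ∃ (E' : Type u) (_ : CommRing E') (j : E →+* E'), EE (Ideal.span {β π}) (j.comp e) ∧
      h.map j (rfl : j.comp (e.comp β) = j.comp (e.comp β)) x = 0
  surj : ∀ (E : Type u) [CommRing E] (e : B →+* E), EE (Ideal.span {β π}) e →
    ∀ y : g.obj (e.comp β),
    ∃ (E' : Type u) (_ : CommRing E') (j : E →+* E') (x : h.obj (j.comp (e.comp β))),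
      EE (Ideal.span {β π}) (j.comp e) ∧
      θ.app _ x = g.map j (rfl : j.comp (e.comp β) = j.comp (e.comp β)) y

/-- Composition of natural transformations. -/
def RF.Hom.comp (θ : h.Hom g) (θ' : g.Hom k) : h.Hom k where
  app a := (θ'.app a).comp (θ.app a)
  nat f hf ha hb y := by
    rw [AddMonoidHom.comp_apply, θ.nat f hf ha hb, θ'.nat f hf ha hb]
    rfl

theorem EvIso.comp {β : A →+* B} (hβ : EP β) {θ : h.Hom g} {θ' : g.Hom k} (h1 : EvIso π β θ)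
    (h2 : EvIso π β θ') : EvIso π β (θ.comp θ') := by
  refine ⟨fun E _ e he x hx => ?_, fun E _ e he y => ?_⟩
  · obtain ⟨E', _, j, hj, H⟩ := h2.inj E e he (θ.app _ x) hx
    have hE := L6.ep_ee hβ he
    have hE' : EP (j.comp (e.comp β)) := (L6.ep_ee hβ hj :)
    rw [← θ.nat j rfl hE hE'] at H
    obtain ⟨E'', _, j', hj', H'⟩ := h1.inj E' (j.comp e) hj _ H
    exact ⟨E'', inferInstance, j'.comp j, hj', (h.map_comp j j' rfl rfl rfl hE' x).symm.trans H'⟩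
  · obtain ⟨E', _, j, x, hj, H⟩ := h2.surj E e he y
    obtain ⟨E'', _, j', z, hj', H'⟩ := h1.surj E' (j.comp e) hj x
    have hE' : EP (j.comp (e.comp β)) := (L6.ep_ee hβ hj :)
    have hE'' : EP (j'.comp (j.comp (e.comp β))) := (L6.ep_ee hβ hj' :)
    refine ⟨E'', inferInstance, j'.comp j, z, hj', ?_⟩
    refine (congrArg (θ'.app _) H').trans ((θ'.nat j' rfl hE' hE'' x).trans ?_)
    rw [H]
    exact k.map_comp j j' rfl rfl rfl hE' y

theorem evIso_of_bijective {β : A →+* B} (hβ : EP β) {θ : h.Hom g}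
    (H : ∀ (R : Type u) [CommRing R] (a : A →+* R), EP a → Function.Bijective (θ.app a)) :
    EvIso π β θ := by
  refine ⟨fun E _ e he x hx => ?_, fun E _ e he y => ?_⟩
  · have h0 : x = 0 := (injective_iff_map_eq_zero _).1 (H E _ (L6.ep_ee hβ he)).1 x hx
    exact ⟨E, inferInstance, RingHom.id E, he, by rw [h0, map_zero]⟩
  · obtain ⟨x, hx⟩ := (H E _ (L6.ep_ee hβ he)).2 y
    exact ⟨E, inferInstance, RingHom.id E, x, he, hx.trans (g.map_id rfl y).symm⟩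

theorem EvIso.bijective_of_zero {F R : Type u} [Field F] [CommRing R] {h : RF.{u, v} F}
    {g : RF.{u, w} F} {β : F →+* R} (hβ : EP β) {θ : h.Hom g} (H : EvIso (0 : F) β θ) :
    Function.Bijective (θ.app β) := by
  refine ⟨(injective_iff_map_eq_zero _).2 fun x hx => ?_, fun y => ?_⟩
  · obtain ⟨E', _, j, hj, H'⟩ := H.inj R (RingHom.id R) (ee_id _) x hx
    exact (injective_iff_map_eq_zero _).1 (L6.rf_bijective h hβ (e := j) (L6.ee_zero hj) rfl).1 x H'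
  · obtain ⟨E', _, j, x, hj, H'⟩ := H.surj R (RingHom.id R) (ee_id _) y
    obtain ⟨x0, rfl⟩ := (L6.rf_bijective h hβ (e := j) (L6.ee_zero hj) rfl).2 x
    exact ⟨x0, (L6.rf_bijective g hβ (e := j) (L6.ee_zero hj) rfl).1
      ((θ.nat j rfl hβ (L6.ep_ee hβ (e := j) hj) x0).symm.trans H')⟩

/-- Condition (G2) passes to kernels. -/
theorem G2.of_inj (ι : k.Hom h) (θ : h.Hom g)
    (hι : ∀ (R : Type u) [CommRing R] (a : A →+* R), EP a → Function.Injective (ι.app a))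
    (hex : ∀ (R : Type u) [CommRing R] (a : A →+* R), EP a → ∀ x : h.obj a,
      θ.app a x = 0 ↔ ∃ y, ι.app a y = x) (hG : L6.G2 π h) : L6.G2 π k := by
  intro B E _ _ β η ε hη hβ hε a
  subst hη
  have hE : EP ((ε.comp Polynomial.C).comp β) :=
    L6.ep_ee (β := Polynomial.C.comp β) (L6.ep_poly hβ) hε
  obtain ⟨B1, E', _, _, f, e, ψ, hψ, b, hf, he, hc, H⟩ := hG B E β _ ε rfl hβ hε (ι.app _ a)
  have hE' := L6.ep_ee hE he
  have hB1 := L6.ep_ee hβ hf
  obtain ⟨B2, _, p0, f2, h0⟩ := exists_isPO (e.comp ε) (Polynomial.evalRingHom 0)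
  have hf2 : EE (Ideal.span {β π}) f2 := by simpa using L6.ee_po h0 (L6.ee_comp hε he)
  have hr : (p0.comp ψ).comp f = f2 := by
    rw [RingHom.comp_assoc, hc]
    refine RingHom.ext fun c => (h0.comm_apply (Polynomial.C c)).trans ?_
    simp
  subst hr
  have hB2 : EP ((p0.comp ψ).comp (f.comp β)) := (L6.ep_ee hβ hf2 :)
  have hp0 : p0.comp (e.comp ((ε.comp Polynomial.C).comp β)) = (p0.comp ψ).comp (f.comp β) := by
    rw [← hψ]
    rfl
  have h1 : θ.app _ (h.map (p0.comp ψ) rfl b) = 0 := by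
    rw [← h.map_comp ψ p0 hψ hp0 rfl hE', ← H, θ.nat _ _ hE' hB2, θ.nat _ _ hE hE',
      (hex _ _ hE _).2 ⟨a, rfl⟩, map_zero, map_zero]
  obtain ⟨b2, hb2⟩ := (hex _ _ hB2 _).1 h1
  obtain ⟨P, _, i, ψ2, hP⟩ := exists_isPO ψ (p0.comp ψ)
  have hi : EE (Ideal.span {e (((ε.comp Polynomial.C).comp β) π)}) i := by
    have h2 := L6.ee_po hP.flip (L6.ee_cancel hf hf2)
    rwa [show ψ (f (β π)) = e (((ε.comp Polynomial.C).comp β) π) from
      RingHom.congr_fun hψ π] at h2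
  have hi' := L6.ee_comp he hi
  have hPe : EP ((i.comp e).comp ((ε.comp Polynomial.C).comp β)) := L6.ep_ee hE hi'
  have h3 : ψ2.comp ((p0.comp ψ).comp f) = (i.comp e).comp (ε.comp Polynomial.C) := by
    rw [← RingHom.comp_assoc, ← hP.comm, RingHom.comp_assoc, hc]
    rfl
  have h4 : ψ2.comp ((p0.comp ψ).comp (f.comp β)) =
      (i.comp e).comp ((ε.comp Polynomial.C).comp β) := congrArg (fun c => c.comp β) h3
  have h5 : (i.comp ψ).comp (f.comp β) = (i.comp e).comp ((ε.comp Polynomial.C).comp β) := by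
    rw [RingHom.comp_assoc, hψ]
    rfl
  refine ⟨B2, P, inferInstance, inferInstance, _, i.comp e, ψ2, h4, b2, hf2, hi', h3,
    hι _ _ hPe ?_⟩
  refine (ι.nat _ rfl hE hPe a).trans (Eq.trans ?_ (ι.nat ψ2 h4 hB2 hPe b2).symm)
  rw [hb2, L6.rf_map_map h _ ψ2 (i.comp ψ) rfl h4 h5 hP.comm.symm hB2,
    ← h.map_comp e i rfl rfl rfl hE', H]
  exact h.map_comp ψ i hψ rfl h5 hE' b

/-- Condition (G2) passes along maps which are onto on germs. -/
theorem G2.of_evSurj (θ : h.Hom g)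
    (hs : ∀ (E : Type u) [CommRing E] (η : A →+* E), EP η → ∀ a : g.obj η,
      ∃ (E' : Type u) (_ : CommRing E') (e : E →+* E') (b : h.obj (e.comp η)),
        EE (Ideal.span {η π}) e ∧ θ.app _ b = g.map e rfl a) (hG : L6.G2 π h) : L6.G2 π g :=
  L6.G2.of_surj ⟨fun a => θ.app a, fun f hf ha hb x => θ.nat f hf ha hb x⟩ hs hG

theorem g2_of_hi_of_ui (h1 : g.HI) (h2 : g.UI π) : L6.G2 π g := by
  exact L6.g2_of_hinv (fun _ _ β hβ => (h1 β hβ).2)
    fun _ _ _ _ β e hβ he => (h2 β e hβ he.etale (S7.ee_ul he)).2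

theorem Ev_zero (h : RF.{u, v} A) {R S : Type u} [CommRing R] [CommRing S] {a : A →+* R}
    {b : A →+* S} (f : R →+* S) (hf : f.comp a = b) (x : h.obj a) :
    h.map f hf x = 0 ↔ h.map f rfl x = 0 := by
  subst hf
  rfl

theorem Ev_kill {β : A →+* B} (hβ : EP β) {θ : h.Hom g} (h1 : EvIso π β θ) {E E' E1 : Type u}
    [CommRing E] [CommRing E'] [CommRing E1] {f : B →+* E} (hf : EE (Ideal.span {β π}) f)
    {j : E →+* E'} (hj : EE (Ideal.span {β π}) (j.comp f)) {a : g.obj (f.comp β)}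
    {x : h.obj (j.comp (f.comp β))} (hx : θ.app _ x = g.map j rfl a) {φ : B →+* B}
    (hφ : φ.comp β = β) {f1 : B →+* E1} {ψ : E →+* E1} (hf1 : EE (Ideal.span {β π}) f1)
    (hψ : ψ.comp f = f1.comp φ) (h0 : g.map ψ rfl a = 0) :
    ∃ (E2 : Type u) (_ : CommRing E2) (f2 : B →+* E2) (ψ2 : E' →+* E2),
      EE (Ideal.span {β π}) f2 ∧ ψ2.comp (j.comp f) = f2.comp φ ∧ h.map ψ2 rfl x = 0 := by
  obtain ⟨P, _, i, j1, hP⟩ := exists_isPO j ψ
  have e1 : ψ.comp (f.comp β) = f1.comp β := by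
    rw [← RingHom.comp_assoc, hψ, RingHom.comp_assoc, hφ]
  have hj1 : EE (Ideal.span {f1 (β π)}) j1 := by
    have h2 := L6.ee_po hP (L6.ee_cancel hf hj)
    rwa [show ψ (f (β π)) = f1 (β π) from RingHom.congr_fun e1 π] at h2
  have hf2 := L6.ee_comp hf1 hj1
  have e2 : (i.comp j).comp (f.comp β) = (j1.comp f1).comp β := by
    rw [hP.comm, RingHom.comp_assoc, e1]
    rfl
  have e3 : i.comp (j.comp (f.comp β)) = (j1.comp f1).comp β := e2
  have hE' : EP (j.comp (f.comp β)) := (L6.ep_ee hβ hj :)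
  have hPe := L6.ep_ee hβ hf2
  have h3 : θ.app _ (h.map i e3 x) = 0 := by
    rw [θ.nat i e3 hE' hPe, hx, g.map_comp j i rfl e3 e2 hE',
      ← L6.rf_map_map g ψ j1 _ e1 rfl e2 hP.comm.symm (L6.ep_ee hβ hf1), (Ev_zero g ψ e1 a).2 h0,
      map_zero]
  obtain ⟨P', _, j', hj', H⟩ := h1.inj P (j1.comp f1) hf2 _ h3
  have e4 : (j'.comp i).comp (j.comp (f.comp β)) = j'.comp ((j1.comp f1).comp β) := by
    rw [RingHom.comp_assoc, e3]
  refine ⟨P', inferInstance, j'.comp (j1.comp f1), j'.comp i, hj', ?_,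
    (Ev_zero h _ e4 x).1 ((h.map_comp i j' e3 rfl e4 hPe x).symm.trans H)⟩
  rw [RingHom.comp_assoc, ← RingHom.comp_assoc f j i, hP.comm, RingHom.comp_assoc, hψ]
  rfl

theorem GB.transfer {β : A →+* B} (hβ : EP β) {L : Set (B →+* B)} (hL : ∀ φ ∈ L, φ.comp β = β)
    {θ : h.Hom g} (h1 : EvIso π β θ) (h2 : Function.Bijective (θ.app β)) (H : GB π h β L) :
    GB π g β L := by
  refine ⟨fun b hb E _ f hf hb0 => ?_, fun E _ f hf a ha => ?_⟩
  · obtain ⟨b, rfl⟩ := h2.2 b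
    have hE := L6.ep_ee hβ hf
    rw [← θ.nat f rfl hβ hE] at hb0
    obtain ⟨E', _, j, hj, H'⟩ := h1.inj E f hf _ hb0
    rw [H.inj b (fun φ hφ => ?_) E' (j.comp f) hj
      ((h.map_comp f j rfl rfl rfl hE b).symm.trans H'), map_zero]
    refine (Ev_zero h φ (hL φ hφ) b).1 ((injective_iff_map_eq_zero _).1 h2.1 _ ?_)
    rw [θ.nat φ _ hβ hβ]
    exact (Ev_zero g φ (hL φ hφ) _).2 (hb φ hφ)
  · obtain ⟨E', _, j, x, hj, hx⟩ := h1.surj E f hf a
    obtain ⟨b, hb, E'', _, j', hj', H'⟩ := H.surj E' (j.comp f) hj x fun φ hφ => by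
      obtain ⟨E1, _, f1, ψ, hf1, hψ, h0⟩ := ha φ hφ
      exact Ev_kill hβ h1 hf hj hx (hL φ hφ) hf1 hψ h0
    have hE' : EP (j.comp (f.comp β)) := (L6.ep_ee hβ hj :)
    have hE'' : EP (j'.comp (j.comp (f.comp β))) := (L6.ep_ee hβ hj' :)
    refine ⟨θ.app β b, fun φ hφ => ?_, E'', inferInstance, j'.comp j, hj', ?_⟩
    · rw [← θ.nat φ rfl hβ (by rw [hL φ hφ]; exact hβ), hb φ hφ, map_zero]
    · refine (g.map_comp j j' rfl rfl rfl hE' a).symm.trans ?_
      rw [← hx]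
      exact (θ.nat j' rfl hE' hE'' x).symm.trans ((congrArg (θ.app _) H').trans
        (θ.nat (j'.comp (j.comp f)) rfl hβ hE'' b))

theorem GB.bij {β : A →+* B} (hβ : EP β) {L : Set (B →+* B)} (hL : ∀ φ ∈ L, φ.comp β = β)
    {θ : h.Hom g} (h1 : EvIso π β θ) (hg : g.UI π) (H : GB π h β L) :
    (∀ x : h.obj β, (∀ φ (hφ : φ ∈ L), h.map φ (hL φ hφ) x = 0) → θ.app β x = 0 → x = 0) ∧
    ∀ y : g.obj β, (∀ φ (hφ : φ ∈ L), g.map φ (hL φ hφ) y = 0) →
      ∃ x : h.obj β, (∀ φ (hφ : φ ∈ L), h.map φ (hL φ hφ) x = 0) ∧ θ.app β x = y := by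
  refine ⟨fun x hx h0 => ?_, fun y hy => ?_⟩
  · obtain ⟨E', _, j, hj, H'⟩ := h1.inj B (RingHom.id B) (ee_id _) x h0
    exact H.inj x (fun φ hφ => (Ev_zero h φ (hL φ hφ) x).1 (hx φ hφ)) E' j hj H'
  · obtain ⟨E', _, j, x, hj, hx⟩ := h1.surj B (RingHom.id B) (ee_id _) y
    obtain ⟨b, hb, E'', _, j', hj', H'⟩ := H.surj E' (j.comp (RingHom.id B)) hj x fun φ hφ =>
      Ev_kill hβ h1 (ee_id _) hj hx (hL φ hφ) (ψ := φ) (ee_id _) rfl
        ((Ev_zero g φ (hL φ hφ) y).1 (hy φ hφ))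
    have hE' : EP (j.comp β) := L6.ep_ee hβ (e := j) hj
    have hE'' : EP ((j'.comp j).comp β) := L6.ep_ee hβ (e := j'.comp j) hj'
    refine ⟨b, fun φ hφ => (Ev_zero h φ (hL φ hφ) b).2 (hb φ hφ), ?_⟩
    refine (hg β (j'.comp j) hβ hj'.etale (S7.ee_ul hj')).1 ?_
    refine (θ.nat (j'.comp j) rfl hβ hE'' b).symm.trans ((congrArg (θ.app _) H').symm.trans
      ((θ.nat j' rfl hE' hE'' x).trans ?_))
    exact (congrArg (g.map j' rfl) hx).trans (g.map_comp j j' rfl rfl rfl hE' y)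

end KEW
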