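import Pool.Agent.P.MP_6277db_ag.KEW.G.Thick
import Pool.Agent.P.MP_6277db_ag.KEW.G.Cut
import Pool.Agent.P.MP_6277db_ag.KEW.G.Pts
import Pool.Agent.P.MP_6277db_ag.KEW.L8b.Ev
import Pool.Agent.P.MP_6277db_ag.KEW.L8a.Cyl

/-!
KEW project, layer L8b, row NN: the quotient of a presheaf with transfers by the sections which come from schemes with
empty special fibre.

Hints.
* `corr_dies`: the support of `c` lies in the image of a scheme `Z` finite over `Spec R` which maps to `V`, so that `π` is a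
  unit on `Z`; the image of `Z` in `Spec R` is a closed set `V(I)` disjoint from `V(π)`, so `I + (π) = R`; take `s ∈ I`
  congruent to `1`; the pull back of `c` is the function `c ∘ lmap` (`Corr.graph_comp`).
* `n0_dies`: induction on the span; products of elements congruent to `1`; an additive presheaf sends the zero
  correspondence to zero.
* `exists_nn`: use `L8.SubF.fn`, `SubF.quot` (or `cokernel`) to define functors `n0`, `nn` on presheaves with transfers
  and `N = (mapC nn).obj D`; `N.X n` vanishes on `Gen` objects (the identity is a correspondence); homology with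
  `cls_surjective`, `cls_eq_zero_iff`, `map_cls`, `homologyMap_cls`, `TW_homologyMapIso` and its naturality
  (`ShortComplex.mapHomologyIso_hom_naturality`); `IsAway.ee`, `EE.comp`. The map `cut (fgt P) ⟶ fgt (n0 P)` is
  injective and locally surjective (`locally_gen` off the special fibre; `locally_ep` and `n0_dies` on it), so it is in
  `WG (NisGen _)` termwise (`wg_nis_of_terms`); `Thick.cone_g_iff`, `Thick.wg_iff`.
-/

set_option backward.isDefEq.respectTransparency false

noncomputable section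

open CategoryTheory Limits AlgebraicGeometry Opposite

namespace Pool.Agent.KEW

open _root_.KEW

variable {A R : Type} [CommRing A] [CommRing R] {L : Type 1} [CommRing L] {m : ℕ} {π : A}
  {a : A →+* R}

theorem NN_gen_pt {V : Sm A} (hV : Gen π V) (v : (smS A).obj V) :
    π ∉ PrimeSpectrum.asIdeal (R := A) (((smV A).obj V).hom v) := by
  have h1 : ((smV A).obj V).hom ⁻¹ᵁ (Spec (.of A)).basicOpen ((Scheme.ΓSpecIso (.of A)).inv π) =
      ⊤ := by
    rw [Scheme.preimage_basicOpen_top]
    exact Scheme.basicOpen_of_isUnit _ hV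
  rw [basicOpen_eq_of_affine] at h1
  have h2 : v ∈ (⊤ : ((smS A).obj V).Opens) := trivial
  exact h1.ge h2

/-- A correspondence to a scheme with empty special fibre vanishes near the special fibre. -/
theorem corr_dies (ha : EP a) {V : TrS m A} (hV : Gen π V.as)
    (c : (gamS m A).obj (spE a ha) ⟶ V) :
    ∃ s : R, s - 1 ∈ Ideal.span {a π} ∧ ∀ (S : Type) [CommRing S] (l : R →+* S)
      (hl : EP (l.comp a)), IsUnit (l s) → (gamS m A).map (spM ha hl l rfl) ≫ c = 0 := by
  obtain ⟨Z, i, hfin, hsupp⟩ := c.2.2.2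
  let p := pullback.fst ((smV A).obj (spE a ha)).hom ((smV A).obj V.as).hom
  have hfin' : IsFinite (i ≫ p) := hfin
  have hcl : IsClosed (Set.range (i ≫ p)) := (i ≫ p).isClosedMap.isClosed_range
  obtain ⟨I, hI⟩ := (PrimeSpectrum.isClosed_iff_zeroLocus_ideal (R := R) _).1 hcl
  have hdis : ∀ z : Z, a π ∉ PrimeSpectrum.asIdeal (R := R) ((i ≫ p) z) := fun z hz => by
    refine NN_gen_pt hV ((i ≫ pullback.snd _ _) z) ?_
    have e : (i ≫ p) ≫ ((smV A).obj (spE a ha)).hom =
        (i ≫ pullback.snd _ _) ≫ ((smV A).obj V.as).hom := by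
      rw [Category.assoc, Category.assoc, pullback.condition]
      rfl
    rw [← Scheme.Hom.comp_apply, ← e, Scheme.Hom.comp_apply]
    exact hz
  have htop : I ⊔ Ideal.span {a π} = ⊤ := by
    by_contra hne
    obtain ⟨M, hM, hle⟩ := Ideal.exists_le_maximal _ hne
    have h1 : (⟨M, hM.isPrime⟩ : PrimeSpectrum R) ∈ PrimeSpectrum.zeroLocus (I : Set R) :=
      fun r hr => hle (Ideal.mem_sup_left hr)
    rw [← hI] at h1
    obtain ⟨z, hz⟩ := h1
    refine hdis z ?_
    rw [hz]
    exact hle (Ideal.mem_sup_right (Ideal.mem_span_singleton_self _))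
  obtain ⟨s, hs, t, ht, hst⟩ := Submodule.mem_sup.1 ((Ideal.eq_top_iff_one _).1 htop)
  refine ⟨s, ?_, fun S _ l hl hu => ?_⟩
  · rw [← hst, sub_add_cancel_left]
    exact neg_mem ht
  refine (Corr.graph_comp ((smV A).map (spM ha hl l rfl)) c).trans (Subtype.ext (funext fun x => ?_))
  by_contra hx
  obtain ⟨z, hz⟩ := hsupp (show Corr.lmap ((smV A).map (spM ha hl l rfl)) _ x ∈
    Function.support c.1 from hx)
  have h1 : (i ≫ p) z ∈ PrimeSpectrum.zeroLocus (I : Set R) := hI ▸ ⟨z, rfl⟩
  have e : (i ≫ p) z = ((smV A).map (spM ha hl l rfl)).left (pullback.fst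
      ((smV A).obj (spE (l.comp a) hl)).hom ((smV A).obj V.as).hom x) := by
    rw [Scheme.Hom.comp_apply, hz, ← Scheme.Hom.comp_apply, ← Corr.Corr_lmap_fst,
      Scheme.Hom.comp_apply]
    rfl
  rw [e] at h1
  exact (PrimeSpectrum.isPrime (R := S) _).ne_top (Ideal.eq_top_of_isUnit_mem _ (h1 hs) hu)

variable (π) in
/-- The sections generated by the pull backs along correspondences to schemes with empty special
fibre. -/
def n0Sub (D : PSh (TrS m A) L) (U : TrS m A) : Submodule L (D.obj (op U)) :=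
  Submodule.span L {x | ∃ V : TrS m A, Gen π V.as ∧ ∃ (c : U ⟶ V) (y : D.obj (op V)),
    x = D.map c.op y}

theorem n0_dies (D : PSh (TrS m A) L) [D.Additive] (ha : EP a)
    {x : D.obj (op ((gamS m A).obj (spE a ha)))} (hx : x ∈ n0Sub π D _) :
    ∃ s : R, s - 1 ∈ Ideal.span {a π} ∧ ∀ (S : Type) [CommRing S] (l : R →+* S)
      (hl : EP (l.comp a)), IsUnit (l s) →
        D.map ((gamS m A).map (spM ha hl l rfl)).op x = 0 := by
  induction hx using Submodule.span_induction with
  | mem x hx =>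
    obtain ⟨V, hV, c, y, rfl⟩ := hx
    obtain ⟨s, hs, h⟩ := corr_dies ha hV c
    refine ⟨s, hs, fun S _ l hl hu => ?_⟩
    rw [← Site_res, h S l hl hu, op_zero, D.map_zero]
    rfl
  | zero => exact ⟨1, by simp, fun S _ l hl _ => map_zero _⟩
  | add x y _ _ hx hy =>
    obtain ⟨s, hs, h⟩ := hx
    obtain ⟨t, ht, h'⟩ := hy
    refine ⟨s * t, ?_, fun S _ l hl hu => ?_⟩
    · rw [show s * t - 1 = (s - 1) * t + (t - 1) by ring]
      exact add_mem (Ideal.mul_mem_right _ _ hs) ht
    · rw [map_mul] at hu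
      rw [map_add, h S l hl (isUnit_of_mul_isUnit_left hu),
        h' S l hl (isUnit_of_mul_isUnit_right hu), add_zero]
  | smul r x _ hx =>
    obtain ⟨s, hs, h⟩ := hx
    exact ⟨s, hs, fun S _ l hl hu => by rw [map_smul, h S l hl hu, smul_zero]⟩

theorem NN_map_mem (P : PSh (TrS m A) L) {U W : TrS m A} (f : W ⟶ U) {x : P.obj (op U)}
    (hx : x ∈ n0Sub π P U) : P.map f.op x ∈ n0Sub π P W := by
  refine (Submodule.span_le (p := (n0Sub π P W).comap (P.map f.op).hom)).2 ?_ hx
  rintro _ ⟨V, hV, c, y, rfl⟩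
  exact Submodule.subset_span ⟨V, hV, f ≫ c, y, (Site_res P f c y).symm⟩

theorem NN_app_mem {P Q : PSh (TrS m A) L} (φ : P ⟶ Q) (U : TrS m A) {x : P.obj (op U)}
    (hx : x ∈ n0Sub π P U) : φ.app (op U) x ∈ n0Sub π Q U := by
  refine (Submodule.span_le (p := (n0Sub π Q U).comap (φ.app (op U)).hom)).2 ?_ hx
  rintro _ ⟨V, hV, c, y, rfl⟩
  exact Submodule.subset_span ⟨V, hV, c, φ.app _ y, Site_nat φ c y⟩

theorem NN_mem_of_gen (P : PSh (TrS m A) L) {U : TrS m A} (hU : Gen π U.as) (x : P.obj (op U)) :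
    x ∈ n0Sub π P U :=
  Submodule.subset_span ⟨U, hU, 𝟙 U, x, (Site_id P x).symm⟩

variable (π) in
/-- The generic part as a subfunctor. -/
def NN_sub (P : PSh (TrS m A) L) : L8.SubF P where
  N U := n0Sub π P U.unop
  map_mem f _ hx := NN_map_mem P f.unop hx

variable (π L m) in
/-- The generic part as a functor. -/
def NN_n0 : PSh (TrS m A) L ⥤ PSh (TrS m A) L where
  obj P := (NN_sub π P).fn
  map {P Q} φ := (NN_sub π Q).lift ((NN_sub π P).ι ≫ φ) fun U x => NN_app_mem φ U.unop x.2
  map_id _ := rfl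
  map_comp _ _ := rfl

variable (π L m) in
/-- The quotient by the generic part as a functor. -/
def NN_nn : PSh (TrS m A) L ⥤ PSh (TrS m A) L where
  obj P := (NN_sub π P).quot
  map {P Q} φ := (NN_sub π P).desc (φ ≫ (NN_sub π Q).π) fun U _ hx =>
    (L8.SubF.π_eq_zero _ _ _).2 (NN_app_mem φ U.unop hx)
  map_id P := L8.fn_ext fun B x => by
    obtain ⟨y, rfl⟩ := (NN_sub π P).π_surj B x
    rfl
  map_comp {P _ _} _ _ := L8.fn_ext fun B x => by
    obtain ⟨y, rfl⟩ := (NN_sub π P).π_surj B x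
    rfl

instance : (NN_n0 L m π).Additive where
  map_add := rfl

instance : (NN_nn L m π).Additive where
  map_add {P _ _ _} := L8.fn_ext fun B x => by
    obtain ⟨y, rfl⟩ := (NN_sub π P).π_surj B x
    rfl

theorem NN_additive (P : PSh (TrS m A) L) [P.Additive] : ((NN_nn L m π).obj P).Additive where
  map_add {U V f g} := by
    ext x
    obtain ⟨y, rfl⟩ := (NN_sub π P).π_surj U x
    change (NN_sub π P).π.app V (P.map (f + g) y) =
      (NN_sub π P).π.app V (P.map f y) + (NN_sub π P).π.app V (P.map g y)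
    rw [P.map_add, ← map_add]
    rfl

variable (π) in
/-- The inclusion of the generic part of a complex. -/
def NN_inc (D : Ch (TrS m A) L) : (mapC (NN_n0 L m π)).obj D ⟶ D where
  f n := (NN_sub π (D.X n)).ι
  comm' _ _ _ := rfl

variable (π) in
/-- The projection to the quotient by the generic part. -/
def NN_pr (D : Ch (TrS m A) L) : D ⟶ (mapC (NN_nn L m π)).obj D where
  f n := (NN_sub π (D.X n)).π
  comm' _ _ _ := rfl

theorem NN_pr_surj (D : Ch (TrS m A) L) (n : ℤ) (U : TrS m A) :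
    Function.Surjective (((NN_pr π D).f n).app (op U)) := (NN_sub π (D.X n)).π_surj _

theorem NN_pr_eq_zero (D : Ch (TrS m A) L) (n : ℤ) (U : TrS m A) (x : (D.X n).obj (op U)) :
    ((NN_pr π D).f n).app (op U) x = 0 ↔ x ∈ n0Sub π (D.X n) U := (NN_sub π (D.X n)).π_eq_zero _ x

theorem NN_d_pr (D : Ch (TrS m A) L) (n k : ℤ) (U : TrS m A) (x : (D.X n).obj (op U)) :
    (((mapC (NN_nn L m π)).obj D).d n k).app (op U) (((NN_pr π D).f n).app (op U) x) =
      ((NN_pr π D).f k).app (op U) ((D.d n k).app (op U) x) := rfl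

variable (π) in
/-- The short exact sequence of the generic part. -/
def NN_sc (D : Ch (TrS m A) L) : ShortComplex (Ch (TrS m A) L) :=
  ShortComplex.mk (NN_inc π D) (NN_pr π D) (HomologicalComplex.hom_ext _ _ fun n =>
    L8.fn_ext fun U x => (NN_pr_eq_zero D n U.unop _).2 x.2)

theorem NN_shortExact (D : Ch (TrS m A) L) : (NN_sc π D).ShortExact := by
  refine HomologicalComplex.shortExact_of_degreewise_shortExact _ fun n => ?_
  exact ShortComplex.ShortExact.mk'
    (psh_exact _ fun U b hb => (NN_sub π (D.X n)).exists_ι ((NN_pr_eq_zero D n U b).1 hb))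
    (psh_mono _ fun U => (NN_sub π (D.X n)).ι_inj _) (psh_epi _ fun U => NN_pr_surj D n U)

variable (π) in
/-- The comparison between extension by zero and the generic part. -/
def NN_cmp (P : PSh (TrS m A) L) :
    (cut L (genS π)).obj ((fgt L m A).obj P) ⟶ (fgt L m A).obj ((NN_n0 L m π).obj P) where
  app U := ModuleCat.ofHom (Submodule.inclusion
    (p := cutSub (L := L) (Gen π U.unop) (P.obj (op ((gamS m A).obj U.unop))))
    (p' := n0Sub π P ((gamS m A).obj U.unop)) fun x hx =>
      hx.elim (fun h => NN_mem_of_gen P h x) fun h => h ▸ zero_mem _)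
  naturality _ _ _ := rfl

variable (π) in
/-- The comparison for complexes. -/
def NN_cmpC (D : Ch (TrS m A) L) :
    (mapC (cut L (genS π))).obj ((mapC (fgt L m A)).obj D) ⟶
      (mapC (fgt L m A)).obj ((mapC (NN_n0 L m π)).obj D) where
  f n := NN_cmp π (D.X n)
  comm' _ _ _ := rfl

theorem NN_locSurj [IsNoetherianRing A] (P : PSh (TrS m A) L) [P.Additive] :
    LocSurj (smS A) (NN_cmp π P) := by
  intro U b x
  refine (locally_ep U x).bind ?_
  rintro _ f ⟨R, _, a, ha, rfl⟩ y
  by_cases hy : evp (spE a ha) y (st (spE a ha) π) = 0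
  · obtain ⟨s, hs, h⟩ := n0_dies P ha (NN_map_mem P ((gamS m A).map f) b.2)
    obtain ⟨S, _, l, hl⟩ := exists_isAway s
    have h0 : ((evp (spE a ha) y).comp (unE ha)) (a π) = 0 := by
      rw [← unE_st ha] at hy
      exact hy
    have h1 : ((evp (spE a ha) y).comp (unE ha)) s = 1 := by
      obtain ⟨t, ht⟩ := Ideal.mem_span_singleton'.1 hs
      rw [show s = t * a π + 1 by rw [ht]; ring, map_add, map_mul, h0, map_one, mul_zero, zero_add]
    obtain ⟨x', hx'⟩ := hl.exists_lift ((evp (spE a ha) y).comp (unE ha)) (h1 ▸ isUnit_one)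
    refine locally_spE_of_ev ha y ⟨S, inferInstance, l, x', hl.etale, hx', fun hg => ⟨0, ?_⟩⟩
    refine (map_zero _).trans (Subtype.ext ?_)
    change 0 = P.map ((gamS m A).map (spM ha hg l rfl ≫ f)).op b.1
    rw [Functor.map_comp, Site_res, h S l hg hl.isUnit]
  · exact (locally_gen π _ y hy).mono fun W g hW =>
      ⟨⟨P.map ((gamS m A).map (g ≫ f)).op b.1, Or.inl hW⟩, rfl⟩

theorem NN_wg [IsNoetherianRing A] (D : Ch (TrS m A) L) (hD : ∀ n, (D.X n).Additive) :
    WG (NGen (smS A)) (NN_cmpC π D) := by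
  refine WG.of_nis (wg_nis_of_terms _ (fun n => ?_) fun n => ?_)
  · have : Mono ((NN_cmpC π D).f n) := psh_mono _ fun U x y h =>
      Subtype.ext (congrArg Subtype.val h :)
    exact LocInj.of_mono _
  · have := hD n
    exact NN_locSurj (D.X n)

theorem NN_g1 (D : Ch (TrS m A) L) (q : ℤ) :
    G1 π ((fgt L m A).obj (((mapC (NN_nn L m π)).obj D).homology q)) := by
  intro V hV x
  obtain ⟨z, hz, rfl⟩ := cls_surjective (U := (gamS m A).obj V) x
  refine (cls_eq_zero_iff z hz (q - 1) (by omega)).2 ⟨0, (map_zero _).trans ?_⟩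
  obtain ⟨w, rfl⟩ := NN_pr_surj D q _ z
  exact ((NN_pr_eq_zero D q _ w).2 (NN_mem_of_gen _ hV w)).symm

theorem NN_ee {B E : Type} [CommRing B] [CommRing E] {β : A →+* B} {e : B →+* E}
    (he : EE (Ideal.span {β π}) e) {s : E} (hs : s - 1 ∈ Ideal.span {(e.comp β) π}) :
    ∃ (E' : Type) (_ : CommRing E') (j : E →+* E'), j.Etale ∧ IsUnit (j s) ∧
      EE (Ideal.span {β π}) (j.comp e) := by
  obtain ⟨E', _, j, hj⟩ := exists_isAway s
  refine ⟨E', inferInstance, j, hj.etale, hj.isUnit, he.comp (hj.ee ⟨1, ?_⟩)⟩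
  rw [one_mul, Ideal.map_span, Set.image_singleton]
  exact hs

theorem NN_evIso (D : Ch (TrS m A) L) (hD : ∀ n, (D.X n).Additive) (q : ℤ) {B : Type} [CommRing B]
    {β : A →+* B} (hβ : EP β) :
    EvIso π β (rfHom ((fgt L m A).map (HomologicalComplex.homologyMap (NN_pr π D) q))) := by
  refine ⟨fun E _ e he x hx => ?_, fun E _ e he y => ?_⟩
  · have hE : EP (e.comp β) := S7.ep_etale hβ he.etale
    obtain ⟨z, hz, hzx⟩ := cls_surjective (X := D) (q := q) (U := (gamS m A).obj (spE _ hE))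
      (rfE _ hE x)
    have h1 : (HomologicalComplex.homologyMap (NN_pr π D) q).app _ (cls D q z hz) = 0 := by
      rw [hzx]
      exact (rfE_app _ hE x).symm.trans ((congrArg _ hx).trans (map_zero _))
    rw [homologyMap_cls, cls_eq_zero_iff _ _ (q - 1) (by omega)] at h1
    obtain ⟨w, hw⟩ := h1
    obtain ⟨w, rfl⟩ := NN_pr_surj D _ _ w
    rw [NN_d_pr, ← sub_eq_zero, ← map_sub, NN_pr_eq_zero] at hw
    have := hD q
    obtain ⟨s, hs, h⟩ := n0_dies _ hE hw
    obtain ⟨E', _, j, hj, hu, hee⟩ := NN_ee he hs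
    have hE' : EP (j.comp (e.comp β)) := S7.ep_etale hE hj
    refine ⟨E', inferInstance, j, hee, (rfE _ hE').injective ?_⟩
    rw [rfE_map _ j rfl hE hE', ← hzx, map_zero]
    refine (map_cls ((gamS m A).map (spM hE hE' j rfl)) z hz).trans ?_
    refine (cls_eq_zero_iff _ _ (q - 1) (by omega)).2
      ⟨(D.X (q - 1)).map ((gamS m A).map (spM hE hE' j rfl)).op w, ?_⟩
    rw [Site_nat, ← sub_eq_zero, ← map_sub]
    exact h E' j hE' hu
  · have hE : EP (e.comp β) := S7.ep_etale hβ he.etale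
    obtain ⟨z, hz, hzy⟩ := cls_surjective (X := (mapC (NN_nn L m π)).obj D) (q := q)
      (U := (gamS m A).obj (spE _ hE)) (rfE _ hE y)
    obtain ⟨z, rfl⟩ := NN_pr_surj D _ _ z
    have hw := (NN_pr_eq_zero D (q + 1) _ _).1 ((NN_d_pr D q (q + 1) _ z).symm.trans hz)
    have := hD (q + 1)
    obtain ⟨s, hs, h⟩ := n0_dies _ hE hw
    obtain ⟨E', _, j, hj, hu, hee⟩ := NN_ee he hs
    have hE' : EP (j.comp (e.comp β)) := S7.ep_etale hE hj
    have hz' : (D.d q (q + 1)).app _
        ((D.X q).map ((gamS m A).map (spM hE hE' j rfl)).op z) = 0 :=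
      (Site_nat _ _ _).trans (h E' j hE' hu)
    refine ⟨E', inferInstance, j,
      (rfE ((fgt L m A).obj (D.homology q)) hE').symm (cls D q _ hz'), hee,
      (rfE _ hE').injective ?_⟩
    rw [rfE_map _ j rfl hE hE', ← hzy, rfE_app, AddEquiv.apply_symm_apply]
    refine (homologyMap_cls (NN_pr π D) _ hz').trans
      (Eq.trans ?_ (map_cls ((gamS m A).map (spM hE hE' j rfl)) _ hz).symm)
    rfl

variable (π) in
theorem exists_nn [IsNoetherianRing A] (D : Ch (TrS m A) L) (hD : ∀ n, (D.X n).Additive) :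
    ∃ (N : Ch (TrS m A) L) (p : D ⟶ N), (∀ n, (N.X n).Additive) ∧
      (∀ q, G1 π ((fgt L m A).obj (N.homology q))) ∧
      (∀ (q : ℤ) (B : Type) [CommRing B] (β : A →+* B), EP β →
        EvIso π β (rfHom ((fgt L m A).map (HomologicalComplex.homologyMap p q)))) ∧
      ∀ K : Ch (Sm A) L → Prop, Thick (NGen (smS A)) K →
        K (CochainComplex.mappingCone ((mapC (fgt L m A)).map p)) →
        K ((mapC (cut L (genS π))).obj ((mapC (fgt L m A)).obj D)) := by
  refine ⟨(mapC (NN_nn L m π)).obj D, NN_pr π D, fun n => ?_, NN_g1 D,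
    fun q B _ β hβ => NN_evIso D hD q hβ, fun K hK h => ?_⟩
  · have := hD n
    exact NN_additive (D.X n)
  · exact (hK.wg_iff (NN_wg D hD)).2
      ((hK.cone_g_iff (shortExact_mapC (fgt L m A) (NN_shortExact D))).1 h)

end Pool.Agent.KEW
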