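import Pool.Agent.P.MP_6277db_ag.KEW.L8b.Rad
import Pool.Agent.P.MP_6277db_ag.KEW.L8b.GB
import Pool.Agent.P.MP_6277db_ag.KEW.L7.InjH
import Pool.Agent.P.MP_6277db_ag.KEW.L7.Red
import Pool.Agent.P.MP_6277db_ag.KEW.PT.All

/-!
KEW project, layer L8b, row ZR: locally zero functors with a comparison pretheory.

Hints.
* `torus_dies`: `vanF_of_dies` gives `P.VanF`; `P` vanishes on `Tor κ r` (induction with `PT.VanF.G`, `PT.G`, or
  `PT.VanF.torus` after identifying the ring); `E ⧸ π` is `Tor κ r`: there is a surjection `φ : E → Tor κ r` with kernel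
  `(π)` (`EE.exists_retract`; `lauMap` of a surjection with kernel `(p)` is a surjection with kernel `(lauC p)`); apply
  `Cmp.inj` with `M = ⊥`.
* `dies_bc`: off the special fibre `dies_gen`. Let `x (a π) = 0` and let `ξ ≤ ker x` be a minimal prime over `(a π)`.
  The local ring `O` of `R` at `ξ` is noetherian with maximal ideal generated by `π` (`radical_ep`), and `π` is not
  nilpotent (`a` is flat, `π` is regular in `A`), so every element outside `η = ker (R → O)` is a unit times a power of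
  `π` in `O` (Krull intersection) and `η` is a minimal prime. The prime `η'` of `R ⊗ F` over `η` (`RadBC.exists_point`,
  `RadBC.pow`) is minimal and `R ⊗ F` is reduced (`Alg3_reduced`), so a Nisnevich neighbourhood of `η'` is refined by a
  principal open `D(s)` (`locRed_min` with `I = ⊥`, `descend_fp` or `genEE`); `s ^ n π ^ N = i c`, `v c = u π ^ k` with
  `u, v ∉ ξ`. So `z` dies on `R[1/(u v)]`; finish with `injH` (`NZ` holds because `u v ∉ ξ`).
-/

namespace KEW

universe u v w w'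

variable {A κ F : Type u} [CommRing A] [Field κ] [Field F] {π : A} {ρ : A →+* κ} {m : ℕ}

/-- Every section over an `EE` neighbourhood of the special fibre of `B` dies on a smaller one. -/
def EvZero (π : A) {B : Type u} [CommRing B] (β : A →+* B) (h : RF.{u, v} A) : Prop :=
  ∀ (E : Type u) [CommRing E] (e : B →+* E), EE (Ideal.span {β π}) e → ∀ z : h.obj (e.comp β),
    ∃ (E' : Type u) (_ : CommRing E') (j : E →+* E'), EE (Ideal.span {β π}) (j.comp e) ∧
      h.map j (rfl : j.comp (e.comp β) = j.comp (e.comp β)) z = 0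

theorem ep_torC (A : Type u) [CommRing A] : ∀ r : ℕ, EP (torC A r)
  | 0 => S7.ep_id
  | r + 1 => S7.ep_lau (ep_torC A r)

theorem Zr_van (r : ℕ) : ∀ (P : PT.{u, w} κ m), P.VanF → ∀ x : P.obj (torC κ r), x = 0 := by
  induction r with
  | zero => exact fun P hP x => hP κ (RingHom.id κ) S7.ep_id.indEP x
  | succ r ih => exact fun P hP x => ih P.G hP.G x

theorem Zr_tor (hb : Base π ρ m) (r : ℕ) : ∃ φ : Tor A r →+* Tor κ r,
    φ.comp (torC A r) = (torC κ r).comp ρ ∧ LocRed (Ideal.span {torC A r π}) ⊥ φ := by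
  induction r with
  | zero =>
    have hρ : LocRed (Ideal.span {π}) ⊥ ρ := by
      refine ⟨fun s hs => ?_, fun z => ?_, fun b hb' => ?_, fun b hb' => ⟨1, one_mem _, ?_⟩⟩
      · rw [Submonoid.mem_bot.1 hs, map_one]
        exact isUnit_one
      · obtain ⟨b, rfl⟩ := hb.surj z
        exact ⟨b, 1, one_mem _, by simp⟩
      · rwa [← hb.ker] at hb'
      · rw [one_mul, ← hb.ker]
        exact hb'
    exact ⟨ρ, rfl, hρ⟩
  | succ r ih =>
    obtain ⟨φ, h1, h2⟩ := ih
    have h3 := S7.Red_locRed h2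
    rw [Submonoid.map_bot] at h3
    exact ⟨lauMap φ, S7.Red_over h1, h3⟩

theorem Zr_locRed_ee {B E T : Type u} [CommRing B] [CommRing E] [CommRing T] {I : Ideal B}
    {e : B →+* E} (he : EE I e) {φ : B →+* T} (hφ : LocRed I ⊥ φ) {ψ : E →+* T}
    (hψ : ψ.comp e = φ) : LocRed (I.map e) ⊥ ψ := by
  have h1 : ∀ b, ψ (e b) = φ b := RingHom.congr_fun hψ
  have h0 : ∀ y ∈ I.map e, ψ y = 0 := by
    intro y hy
    have : I.map e ≤ RingHom.ker ψ := Ideal.map_le_iff_le_comap.2 fun b hb => by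
      change ψ (e b) = 0
      rw [h1]
      exact hφ.zero b hb
    exact this hy
  refine ⟨fun s hs => ?_, fun z => ?_, h0, fun y hy => ⟨1, one_mem _, ?_⟩⟩
  · rw [Submonoid.mem_bot.1 hs, map_one]
    exact isUnit_one
  · obtain ⟨b, s, hs, h⟩ := hφ.surj z
    rw [Submonoid.mem_bot.1 hs] at h
    exact ⟨e b, 1, one_mem _, by rw [h1, ← h, map_one, map_one]⟩
  · obtain ⟨x, hx⟩ := he.surj y
    have h2 : φ x = 0 := by
      have := h0 _ hx
      rw [map_sub, hy, h1, zero_sub, neg_eq_zero] at this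
      exact this
    obtain ⟨s, hs, h3⟩ := hφ.inj x h2
    rw [Submonoid.mem_bot.1 hs, one_mul] at h3
    rw [one_mul, ← sub_add_cancel y (e x)]
    exact add_mem hx (Ideal.mem_map_of_mem e h3)

theorem torus_dies (hb : Base π ρ m) {h : RF.{u, v} A} (hh : HasPT.{u, v, w} π ρ m h)
    (h0 : ∀ (R K : Type u) [CommRing R] [Field K] (a : A →+* R) (x : R →+* K), EP a → x (a π) = 0 →
      ∀ z : h.obj a, h.Dies x z) (r : ℕ) : EvZero π (torC A r) h := by
  obtain ⟨P, ⟨c⟩⟩ := hh
  have hV : P.VanF := S7.vanF_of_dies hb c h0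
  obtain ⟨φ, h1, h2⟩ := Zr_tor hb r
  intro E _ e he z
  obtain ⟨ψ, hψ⟩ := he.exists_retract φ h2.zero
  have h3 := Zr_locRed_ee he h2 hψ
  have h4 : (Ideal.span {torC A r π}).map e = Ideal.span {(e.comp (torC A r)) π} := by
    rw [Ideal.map_span, Set.image_singleton]
    rfl
  rw [h4] at h3
  have h5 : ψ.comp (e.comp (torC A r)) = (torC κ r).comp ρ := by
    rw [← RingHom.comp_assoc, hψ, h1]
  obtain ⟨s, hs, Bs, B1, _, _, l, g, hl, hg, hz⟩ :=
    c.inj ψ h5 ⊥ (S7.ep_etale (ep_torC A r) he.etale) h3 z (Zr_van r P hV _)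
  refine ⟨B1, inferInstance, g.comp l, ?_, hz⟩
  have h6 : EE ((Ideal.span {torC A r π}).map e) l :=
    hl.ee ⟨1, by rw [Submonoid.mem_bot.1 hs, one_mul, sub_self]; exact zero_mem _⟩
  have h7 : EE (((Ideal.span {torC A r π}).map e).map l) g := by
    rw [h4, Ideal.map_span, Set.image_singleton]
    exact hg
  exact he.comp (h6.comp h7)

theorem Zr_reg {R : Type u} [CommRing R] [IsDomain A] {a : A →+* R} (ha : EP a) (hπ : π ≠ 0)
    (y : R) (hy : a π * y = 0) : y = 0 := by
  obtain ⟨n, x, hx⟩ := ha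
  let := (MvPolynomial.eval₂Hom a x).toAlgebra
  have : Module.Flat (MvPolynomial (Fin n) A) R := etale_flat hx
  have h1 := Module.Flat.isSMulRegular_of_nonZeroDivisors (M := R)
    (mem_nonZeroDivisors_of_ne_zero (MvPolynomial.C_ne_zero.2 hπ :
      (MvPolynomial.C π : MvPolynomial (Fin n) A) ≠ 0))
  refine h1.right_eq_zero_of_smul ?_
  change MvPolynomial.eval₂Hom a x (MvPolynomial.C π) * y = 0
  rw [MvPolynomial.eval₂Hom_C, hy]

theorem Zr_krull {R : Type u} [CommRing R] [IsNoetherianRing R] {t : R}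
    (ht : (Ideal.span {t}).IsRadical) {ξ : Ideal R} (hξ : ξ ∈ (Ideal.span {t}).minimalPrimes)
    (c : R) : (∃ v, v ∉ ξ ∧ v * c = 0) ∨ ∃ (u v : R) (k : ℕ), u ∉ ξ ∧ v ∉ ξ ∧ v * c = u * t ^ k := by
  classical
  have hp : ξ.IsPrime := hξ.1.1
  have hle : Ideal.span {t} ≤ ξ := hξ.1.2
  by_cases H : ∀ k : ℕ, ∃ v w : R, v ∉ ξ ∧ v * c = w * t ^ k
  · left
    let O := Localization.AtPrime ξ
    have hne : Ideal.span {algebraMap R O t} ≠ ⊤ := by
      rw [Ne, Ideal.span_singleton_eq_top, IsLocalization.AtPrime.isUnit_to_map_iff O ξ]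
      exact fun h => h (hle (Ideal.mem_span_singleton_self t))
    have h1 : algebraMap R O c ∈ ⨅ k : ℕ, Ideal.span {algebraMap R O t} ^ k := by
      refine Ideal.mem_iInf.2 fun k => ?_
      obtain ⟨v, w, hv, e⟩ := H k
      have hu : IsUnit (algebraMap R O v) := (IsLocalization.AtPrime.isUnit_to_map_iff O ξ v).2 hv
      rw [Ideal.span_singleton_pow, ← Ideal.unit_mul_mem_iff_mem _ hu, ← map_mul, e, map_mul,
        map_pow]
      exact Ideal.mul_mem_left _ _ (Ideal.mem_span_singleton_self _)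
    rw [Ideal.iInf_pow_eq_bot_of_isLocalRing _ hne, Ideal.mem_bot,
      IsLocalization.map_eq_zero_iff ξ.primeCompl] at h1
    obtain ⟨v, hv⟩ := h1
    exact ⟨v, v.2, hv⟩
  · right
    have H' : ∃ k : ℕ, ¬ ∃ v w : R, v ∉ ξ ∧ v * c = w * t ^ k := not_forall.1 H
    have h0 : Nat.find H' ≠ 0 := by
      intro e
      have := Nat.find_spec H'
      rw [e] at this
      exact this ⟨1, c, (Ideal.ne_top_iff_one ξ).1 hp.ne_top, by simp⟩
    obtain ⟨k, hk⟩ := Nat.exists_eq_succ_of_ne_zero h0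
    have h1 := Nat.find_min H' (m := k) (by omega)
    obtain ⟨v, w, hv, e⟩ := not_not.1 h1
    refine ⟨w, v, k, fun hw => ?_, hv, e⟩
    obtain ⟨s, n, hs, hn⟩ := S7.exists_pow_mem_of_min hξ hw
    have h2 : s * w ∈ Ideal.span {t} := by
      refine ht ⟨n + 1, ?_⟩
      have : (s * w) ^ (n + 1) = (s ^ n * w) * (s * w ^ n) := by ring
      rw [this]
      exact Ideal.mul_mem_left _ _ hn
    obtain ⟨w', hw'⟩ := Ideal.mem_span_singleton'.1 h2
    have h3 := Nat.find_spec H'
    rw [hk] at h3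
    refine h3 ⟨s * v, w', fun h => (hp.mem_or_mem h).elim hs hv, ?_⟩
    rw [mul_assoc, e, ← mul_assoc, ← hw', pow_succ]
    ring

theorem Zr_reduced {R : Type u} [CommRing R] {b : F →+* R} (hb : EP b) : IsReduced R := by
  obtain ⟨n, x, hx⟩ := hb
  exact S7.Alg3_reduced hx

/-- A section dies away from an element outside a given generic point of the special fibre. -/
theorem Zr_away (hb : Base π ρ m) {f : A →+* F} (hf : RadBC π f) {h : RF.{u, v} A}
    {P : RF.{u, w'} F} (cmp : L6.FCmp f h P)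
    (hP : ∀ (R K : Type u) [CommRing R] [Field K] (b : F →+* R) (x : R →+* K), EP b →
      ∀ z : P.obj b, P.Dies x z)
    {R : Type u} [CommRing R] {a : A →+* R} (ha : EP a) (z : h.obj a) {ξ : Ideal R}
    (hξ : ξ ∈ (Ideal.span {a π}).minimalPrimes) :
    ∃ s, s ∉ ξ ∧ ∀ (D : Type u) [CommRing D] (l : R →+* D), IsAway l s →
      h.map l (rfl : l.comp a = l.comp a) z = 0 := by
  have := hb.noeth
  have : IsNoetherianRing R := S7.noeth_of_ep ha
  have : IsDomain A := hf.inj.isDomain f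
  have hp : ξ.IsPrime := hξ.1.1
  have hπ : π ≠ 0 := fun e => hf.ne (by rw [e, map_zero])
  obtain ⟨η, hη, hηξ⟩ := Ideal.exists_minimalPrimes_le (I := ⊥) (J := ξ) bot_le
  have hq : η.IsPrime := hη.1.1
  have hπη : a π ∉ η := by
    intro hm
    obtain ⟨s, n, hs, hn⟩ := S7.exists_pow_mem_of_min hη hm
    rw [Ideal.mem_bot] at hn
    have : ∀ n : ℕ, s * a π ^ n = 0 → s = 0 := by
      intro n
      induction n with
      | zero => simp
      | succ n ih =>
        intro e
        refine ih (Zr_reg ha hπ _ ?_)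
        rw [← e]
        ring
    exact hs (by rw [this n hn]; exact zero_mem _)
  obtain ⟨K, _, x, hx, hker⟩ := S7.exists_res_of_prime η
  obtain ⟨R', _, i, b, hi⟩ := S7.exists_po a f
  have hb' : EP b := hi.ep ha
  have hw : ∀ t, i (a t) = b (f t) := RingHom.congr_fun (S7.po_w hi)
  have hu : IsUnit (i (a π)) := by
    rw [hw]
    exact (Ne.isUnit hf.ne).map b
  obtain ⟨K', _, x', e, hx', he⟩ := hf.exists_point hi x hx (by
    rw [← hker] at hπη
    exact hπη)
  have he' : ∀ r, x' (i r) = e (x r) := RingHom.congr_fun he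
  have hmem : ∀ r, x' (i r) = 0 ↔ r ∈ η := by
    intro r
    rw [he', map_eq_zero, ← hker, RingHom.mem_ker]
  have hmin : RingHom.ker x' ∈ (⊥ : Ideal R').minimalPrimes := by
    refine ⟨⟨RingHom.ker_isPrime x', bot_le⟩, fun q hq' hle y hy => ?_⟩
    have hq1 : q.IsPrime := hq'.1
    have h1 : η ≤ q.comap i :=
      hη.2 ⟨Ideal.comap_isPrime i q, bot_le⟩ fun r hr => (hmem r).1 (hle hr)
    obtain ⟨n, N, c, hn, hc⟩ := hf.pow hi y
    have h2 : c ∈ η := by
      rw [← hmem, ← hc, map_mul, map_pow, RingHom.mem_ker.1 hy, zero_pow hn.ne', zero_mul]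
    have h3 : y ^ n * i (a π) ^ N ∈ q := by
      rw [hc]
      exact h1 h2
    rw [Ideal.mul_unit_mem_iff_mem _ (hu.pow N)] at h3
    exact hq1.mem_of_pow_mem n h3
  have : IsReduced R' := Zr_reduced hb'
  have hL := S7.locRed_min (Ideal.isRadical_bot (R := R')) hx' hmin
  obtain ⟨D, _, g, y, hg, hy, hz⟩ := hP R' K' b x' hb' (cmp.c i hi z)
  obtain ⟨s, hs, Tf, _, c, σ, τ, hc, hσ, -⟩ := S7.descend_fp (etale_finitePresentation hg) hL hy
  have hs' : IsUnit (x' s) := hs
  obtain ⟨n, N, c0, hn, hc0⟩ := hf.pow hi s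
  have hc1 : c0 ∉ η := by
    rw [← hmem, ← hc0, map_mul, map_pow, map_pow]
    exact ((hs'.pow n).mul ((hu.map x').pow N)).ne_zero
  obtain ⟨u, v, k, hu', hv', huv⟩ : ∃ (u v : R) (k : ℕ), u ∉ ξ ∧ v ∉ ξ ∧ v * c0 = u * a π ^ k := by
    refine (Zr_krull (S7.radical_ep hb ha) hξ c0).resolve_left ?_
    rintro ⟨v, hv, e0⟩
    have : v * c0 ∈ η := by
      rw [e0]
      exact zero_mem _
    exact (hq.mem_or_mem this).elim (fun h' => hv (hηξ h')) hc1
  refine ⟨u, hu', fun E _ l hl => ?_⟩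
  have hE : EP (l.comp a) := S7.ep_away ha hl
  obtain ⟨E', _, i', b', hi'⟩ := S7.exists_po (l.comp a) f
  obtain ⟨g', hg1, hg2⟩ := S7.po_desc hi (i'.comp l) b' (S7.po_w hi' :)
  have hg3 : ∀ r, g' (i r) = i' (l r) := RingHom.congr_fun hg1
  have hunit : IsUnit (g' s) := by
    have h1 : IsUnit (g' (i (v * c0))) := by
      rw [huv, map_mul, map_pow, map_mul, map_pow, hg3]
      exact ((S7.away_unit hl).map i').mul ((hu.map g').pow k)
    rw [map_mul, map_mul, ← hc0, map_mul, map_pow] at h1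
    exact (isUnit_pow_iff hn.ne').1 (isUnit_of_mul_isUnit_left (isUnit_of_mul_isUnit_right h1))
  obtain ⟨χ, hχ, -⟩ := S7.locRed_lift hc g' (fun r hr => by rw [Ideal.mem_bot.1 hr, map_zero]) (by
    rintro _ ⟨j, rfl⟩
    simpa using hunit.pow j)
  have hfac : (χ.comp σ).comp g = g' := by rw [RingHom.comp_assoc, hσ, hχ]
  refine (cmp.bij i' hi' hE).1 ?_
  rw [map_zero, cmp.nat i i' hi hi' l g' rfl hg2 hg1 ha hE,
    P.map_congr hfac.symm hg2 (by rw [hfac, hg2]),
    ← P.map_comp g (χ.comp σ) rfl (by rw [← RingHom.comp_assoc, hfac, hg2]) _ (S7.ep_etale hb' hg),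
    hz, map_zero]

theorem dies_bc (hb : Base π ρ m) {f : A →+* F} (hf : RadBC π f) {h : RF.{u, v} A}
    {P : RF.{u, w'} F} (cmp : L6.FCmp f h P) (hh : HasPT.{u, v, w} π ρ m h)
    (hP : ∀ (R K : Type u) [CommRing R] [Field K] (b : F →+* R) (x : R →+* K), EP b →
      ∀ z : P.obj b, P.Dies x z)
    (R K : Type u) [CommRing R] [Field K] (a : A →+* R) (x : R →+* K) (ha : EP a) (z : h.obj a) :
    h.Dies x z := by
  by_cases hx : x (a π) = 0
  · have hle : Ideal.span {a π} ≤ RingHom.ker x := by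
      rw [Ideal.span_le, Set.singleton_subset_iff]
      exact hx
    have := RingHom.ker_isPrime x
    obtain ⟨ξ, hξ, hξx⟩ := Ideal.exists_minimalPrimes_le hle
    have hp : ξ.IsPrime := hξ.1.1
    obtain ⟨s, hs, H⟩ := Zr_away hb hf cmp hP ha z hξ
    refine S7.injH hb hh a x s z ha hx (fun t n ht => ?_) fun L _ x' _ hx' => S7.ev_away hx' H
    exact hξx ((hp.mem_or_mem (hξ.1.2 ht)).resolve_right fun h' => hs (hp.mem_of_pow_mem n h'))
  · obtain ⟨R', _, i, b, hi⟩ := S7.exists_po a f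
    exact dies_gen hf cmp ha hi z (fun K' _ x' => hP R' K' b x' (hi.ep ha) _) x hx

end KEW
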