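import Pool.Agent.P.MP_6277db_ag.KEW.G.Thick
import Pool.Agent.P.MP_6277db_ag.KEW.G.Cut
import Pool.Agent.P.MP_6277db_ag.KEW.L8b.Zr
import Pool.Agent.P.MP_6277db_ag.KEW.L7.Br4
import Pool.Agent.P.MP_6277db_ag.KEW.DefsD

/-!
KEW project, layer L8b, row TORUS: the powers of the Tate object and the reduced parts of tori.

Hints. Let `Gm` be the presheaf `U ↦ L[O(U)ˣ] / L[1]` on schemes, `Un` the presheaf `U ↦ L[O(U)ˣ]`, and `G r` the iterated
tensor product `G 0 = 𝟙_`, `G (r + 1) = G r ⊗ Gm`.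
* `RedOf`: `rep (spE (id A)) ≅ 𝟙_`; `rep (spE (lauC ∘ a)) ≅ rep (spE a) ⊗ Un` naturally in `a` (`spE_hom_ext`,
  `spE_hom_exists`, `lauLift`, `lau_ext`; compare `Cyl.π`, `Cyl.s` in L1/Cyl.lean); `Gm` is the retract of `Un` given by
  `[a] ↦ [a] - [1]`; if `(i, p)` is a `RedOf` datum for `T` then `(i ⊗ i', p ⊗ p')` is one for `T ⊗ Un`, because
  `1 - e ⊗ e' = (1 - e) ⊗ 1 + (e ⊗ 1) ≫ (1 ⊗ (1 - e'))`.
* Thick classes: `0 → Gm → funQuot {1} → tate → 0` is short exact with free terms and `funQuot {1} ≅ line` by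
  `a ↦ a - 1`, so `K (X ⊗ T) ↔ K (X ⊗ Gm)` for every thick `K` and every complex `X`. Induction on `r` for all thick `K`
  at once, using that `X ↦ K (X ⊗ T)` is thick (`Thick.comap`, `isExact_tensorRight`, `flat_tate`, `tens_loc`),
  `HomologicalComplex.singleMapHomologicalComplex`, `Thick.sgl_iff`.
-/

set_option backward.isDefEq.respectTransparency false

noncomputable section

open CategoryTheory Limits AlgebraicGeometry Opposite MonoidalCategory

namespace Pool.Agent.KEW

open _root_.KEW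

/-- `G` is the retract of `T` on which all maps in `Λ` vanish. -/
structure RedOf {C : Type 1} [Category.{0} C] {L : Type 1} [CommRing L] {T : PSh C L}
    (Λ : Set (T ⟶ T)) (G : PSh C L) where
  /-- the inclusion -/
  i : G ⟶ T
  /-- the projection -/
  p : T ⟶ G
  ip : i ≫ p = 𝟙 G
  kill : ∀ ε ∈ Λ, ε ≫ p = 0

section Torus_quot

variable {L : Type 1} [CommRing L] {α : Type} {S : Set α}

variable (L S) in
/-- The class of a basis element in `L[α] / L[S]`. -/
def Torus_el (a : α) : (α →₀ L) ⧸ Finsupp.supported L L S :=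
  Submodule.Quotient.mk (Finsupp.single a 1)

theorem Torus_el_zero {a : α} (h : a ∈ S) : Torus_el L S a = 0 :=
  (Submodule.Quotient.mk_eq_zero _).2 (Finsupp.single_mem_supported L _ h)

theorem Torus_ext {M : Type 1} [AddCommGroup M] [Module L M]
    {f g : ((α →₀ L) ⧸ Finsupp.supported L L S) →ₗ[L] M}
    (h : ∀ a, f (Torus_el L S a) = g (Torus_el L S a)) : f = g :=
  Submodule.linearMap_qext _ (Finsupp.lhom_ext' fun a => LinearMap.ext_ring (h a))

variable (L) in
/-- Linear maps out of `L[α] / L[S]`. -/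
def Torus_desc {M : Type 1} [AddCommGroup M] [Module L M] (φ : α → M) (h : ∀ a ∈ S, φ a = 0) :
    ((α →₀ L) ⧸ Finsupp.supported L L S) →ₗ[L] M :=
  Submodule.liftQ _ (Finsupp.linearCombination L φ) (by
    rw [Finsupp.supported_eq_span_single, Submodule.span_le]
    rintro _ ⟨a, ha, rfl⟩
    simp [h a ha])

theorem Torus_desc_el {M : Type 1} [AddCommGroup M] [Module L M] (φ : α → M)
    (h : ∀ a ∈ S, φ a = 0) (a : α) : Torus_desc L φ h (Torus_el L S a) = φ a := by
  rw [Torus_desc, Torus_el, Submodule.liftQ_apply, Finsupp.linearCombination_single, one_smul]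

end Torus_quot

section Torus_gm

variable {L : Type 1} [CommRing L]

variable (L) in
/-- The presheaf `U ↦ L[O(U)ˣ] / L[1]` on schemes. -/
def Torus_Gm : PSh Scheme.{0} L where
  obj U := ModuleCat.of L
    ((Γ(U.unop, ⊤)ˣ →₀ L) ⧸ Finsupp.supported L L ({1} : Set Γ(U.unop, ⊤)ˣ))
  map f := ModuleCat.ofHom (Submodule.mapQ _ _
    (Finsupp.lmapDomain L L (Units.map f.unop.appTop.hom.toMonoidHom))
    ((Finsupp.supported_mono (by
      rintro _ rfl
      exact map_one _)).trans (Finsupp.supported_comap_lmapDomain L L _ _)))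
  map_id U := by
    ext x
    simp
  map_comp f g := by
    refine ModuleCat.hom_ext (Torus_ext fun a => ?_)
    change Submodule.Quotient.mk (Finsupp.mapDomain _ (Finsupp.single a 1)) =
      Submodule.Quotient.mk (Finsupp.mapDomain _ (Finsupp.mapDomain _ (Finsupp.single a 1)))
    rw [Finsupp.mapDomain_single, Finsupp.mapDomain_single, Finsupp.mapDomain_single]
    rfl

theorem Torus_Gm_map {U V : Scheme.{0}ᵒᵖ} (f : U ⟶ V) (a : Γ(U.unop, ⊤)ˣ) :
    (Torus_Gm L).map f (Torus_el L {1} a) =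
      Torus_el L {1} (Units.map f.unop.appTop.hom.toMonoidHom a) :=
  congrArg Submodule.Quotient.mk
    (Finsupp.mapDomain_single (f := Units.map f.unop.appTop.hom.toMonoidHom))

theorem Torus_line_map {U V : Scheme.{0}ᵒᵖ} (f : U ⟶ V) (a : Γ(U.unop, ⊤)) :
    (line L).map f (Torus_el L {0} a) = Torus_el L {0} (f.unop.appTop a) :=
  congrArg Submodule.Quotient.mk (Finsupp.mapDomain_single (f := f.unop.appTop))

theorem Torus_tate_map {U V : Scheme.{0}ᵒᵖ} (f : U ⟶ V) (a : Γ(U.unop, ⊤)) :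
    (tate L).map f (Torus_el L {a | IsUnit a} a) =
      Torus_el L {a | IsUnit a} (f.unop.appTop a) :=
  congrArg Submodule.Quotient.mk (Finsupp.mapDomain_single (f := f.unop.appTop))

variable (L) in
/-- The linear map `[a] ↦ [a - 1]`. -/
def Torus_fLin (R : Type) [CommRing R] : ((Rˣ →₀ L) ⧸ Finsupp.supported L L ({1} : Set Rˣ)) →ₗ[L]
    (R →₀ L) ⧸ Finsupp.supported L L ({0} : Set R) :=
  Torus_desc L (fun a => Torus_el L {0} ((a : R) - 1)) (by
    rintro _ rfl
    exact Torus_el_zero (by simp))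

variable (L) in
/-- The linear map `[a] ↦ [a + 1]`. -/
def Torus_gLin (R : Type) [CommRing R] : ((R →₀ L) ⧸ Finsupp.supported L L ({0} : Set R)) →ₗ[L]
    (R →₀ L) ⧸ Finsupp.supported L L {a : R | IsUnit a} :=
  Torus_desc L (fun a => Torus_el L {a : R | IsUnit a} (a + 1)) (by
    rintro _ rfl
    exact Torus_el_zero (by simp))

theorem Torus_fLin_el {R : Type} [CommRing R] (a : Rˣ) :
    Torus_fLin L R (Torus_el L {1} a) = Torus_el L {0} ((a : R) - 1) :=
  Torus_desc_el _ _ a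

theorem Torus_gLin_el {R : Type} [CommRing R] (a : R) :
    Torus_gLin L R (Torus_el L {0} a) = Torus_el L {a : R | IsUnit a} (a + 1) :=
  Torus_desc_el _ _ a

theorem Torus_gf (R : Type) [CommRing R] : (Torus_gLin L R).comp (Torus_fLin L R) = 0 :=
  Torus_ext fun a => by
    rw [LinearMap.comp_apply, Torus_fLin_el, Torus_gLin_el, LinearMap.zero_apply]
    exact Torus_el_zero (by simp)

variable (L) in
/-- The sequence `L[Rˣ] / L[1] ⟶ L[R] / L[0] ⟶ L[R] / L[Rˣ]`. -/
def Torus_sesR (R : Type) [CommRing R] : ShortComplex (ModuleCat.{1} L) :=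
  ShortComplex.mk (ModuleCat.ofHom (Torus_fLin L R)) (ModuleCat.ofHom (Torus_gLin L R))
    (ModuleCat.hom_ext (Torus_gf R))

open Classical in
variable (L) in
/-- The retraction. -/
def Torus_rLin (R : Type) [CommRing R] : ((R →₀ L) ⧸ Finsupp.supported L L ({0} : Set R)) →ₗ[L]
    (Rˣ →₀ L) ⧸ Finsupp.supported L L ({1} : Set Rˣ) :=
  Torus_desc L (fun a => if h : IsUnit (a + 1) then Torus_el L {1} h.unit else 0) (by
    rintro _ rfl
    rw [dif_pos (by simp)]
    exact Torus_el_zero (Units.ext (by simp)))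

open Classical in
variable (L) in
/-- The section. -/
def Torus_sLin (R : Type) [CommRing R] :
    ((R →₀ L) ⧸ Finsupp.supported L L {a : R | IsUnit a}) →ₗ[L]
      (R →₀ L) ⧸ Finsupp.supported L L ({0} : Set R) :=
  Torus_desc L (fun a => if IsUnit a then 0 else Torus_el L {0} (a - 1)) fun _ h => if_pos h

theorem Torus_rLin_pos {R : Type} [CommRing R] {a : R} (h : IsUnit (a + 1)) :
    Torus_rLin L R (Torus_el L {0} a) = Torus_el L {1} h.unit :=
  (Torus_desc_el _ _ a).trans (dif_pos h)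

theorem Torus_rLin_neg {R : Type} [CommRing R] {a : R} (h : ¬IsUnit (a + 1)) :
    Torus_rLin L R (Torus_el L {0} a) = 0 :=
  (Torus_desc_el _ _ a).trans (dif_neg h)

theorem Torus_sLin_pos {R : Type} [CommRing R] {a : R} (h : IsUnit a) :
    Torus_sLin L R (Torus_el L {a : R | IsUnit a} a) = 0 :=
  (Torus_desc_el _ _ a).trans (if_pos h)

theorem Torus_sLin_neg {R : Type} [CommRing R] {a : R} (h : ¬IsUnit a) :
    Torus_sLin L R (Torus_el L {a : R | IsUnit a} a) = Torus_el L {0} (a - 1) :=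
  (Torus_desc_el _ _ a).trans (if_neg h)

variable (L) in
/-- The sequence `L[Rˣ] / L[1] ⟶ L[R] / L[0] ⟶ L[R] / L[Rˣ]` splits. -/
def Torus_split (R : Type) [CommRing R] : (Torus_sesR L R).Splitting where
  r := ModuleCat.ofHom (Torus_rLin L R)
  s := ModuleCat.ofHom (Torus_sLin L R)
  f_r := ModuleCat.hom_ext (Torus_ext fun a => by
    change Torus_rLin L R (Torus_fLin L R (Torus_el L {1} a)) = Torus_el L {1} a
    rw [Torus_fLin_el, Torus_rLin_pos (by simp)]
    exact congrArg _ (Units.ext (by simp)))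
  s_g := ModuleCat.hom_ext (Torus_ext fun a => by
    change Torus_gLin L R (Torus_sLin L R (Torus_el L {a : R | IsUnit a} a)) =
      Torus_el L {a : R | IsUnit a} a
    by_cases h : IsUnit a
    · rw [Torus_sLin_pos h, map_zero, Torus_el_zero (S := {a : R | IsUnit a}) h]
    · rw [Torus_sLin_neg h, Torus_gLin_el, sub_add_cancel])
  id := ModuleCat.hom_ext (Torus_ext fun a => by
    change Torus_fLin L R (Torus_rLin L R (Torus_el L {0} a)) +
      Torus_sLin L R (Torus_gLin L R (Torus_el L {0} a)) = Torus_el L {0} a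
    by_cases h : IsUnit (a + 1)
    · rw [Torus_rLin_pos h, Torus_fLin_el, Torus_gLin_el, Torus_sLin_pos h, add_zero,
        IsUnit.unit_spec, add_sub_cancel_right]
    · rw [Torus_rLin_neg h, map_zero, Torus_gLin_el, Torus_sLin_neg h, zero_add,
        add_sub_cancel_right])

variable (L) in
/-- The map `Gm ⟶ line`. -/
def Torus_f : Torus_Gm L ⟶ line L where
  app U := ModuleCat.ofHom (Torus_fLin L Γ(U.unop, ⊤))
  naturality U V f := ModuleCat.hom_ext (Torus_ext fun a => by
    change Torus_fLin L _ ((Torus_Gm L).map f (Torus_el L {1} a)) =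
      (line L).map f (Torus_fLin L _ (Torus_el L {1} a))
    rw [Torus_Gm_map, Torus_fLin_el, Torus_fLin_el, Torus_line_map, map_sub, map_one]
    rfl)

variable (L) in
/-- The map `line ⟶ tate`. -/
def Torus_g : line L ⟶ tate L where
  app U := ModuleCat.ofHom (Torus_gLin L Γ(U.unop, ⊤))
  naturality U V f := ModuleCat.hom_ext (Torus_ext fun a => by
    change Torus_gLin L _ ((line L).map f (Torus_el L {0} a)) =
      (tate L).map f (Torus_gLin L _ (Torus_el L {0} a))
    rw [Torus_line_map, Torus_gLin_el, Torus_gLin_el, Torus_tate_map, map_add, map_one])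

variable {C : Type 1} [Category.{0} C] (u : C ⥤ Scheme.{0})

theorem Torus_fg (F : PSh C L) : F ◁ Functor.whiskerLeft u.op (Torus_f L) ≫
    F ◁ Functor.whiskerLeft u.op (Torus_g L) = 0 := by
  have e : Functor.whiskerLeft u.op (Torus_f L) ≫ Functor.whiskerLeft u.op (Torus_g L) = 0 := by
    ext U : 2
    exact (Torus_sesR L Γ(u.obj U.unop, ⊤)).zero
  rw [← MonoidalCategory.whiskerLeft_comp, e, MonoidalPreadditive.whiskerLeft_zero]

theorem Torus_shortExact (F : PSh C L) :
    (ShortComplex.mk _ _ (Torus_fg u F)).ShortExact := by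
  have h : ∀ U : C, ((Torus_sesR L Γ(u.obj U, ⊤)).map (tensorLeft (F.obj (op U)))).ShortExact :=
    fun U => ((Torus_split L Γ(u.obj U, ⊤)).map (tensorLeft (F.obj (op U)))).shortExact
  have := psh_mono (F ◁ Functor.whiskerLeft u.op (Torus_f L))
    fun U => (h U).moduleCat_injective_f
  have := psh_epi (F ◁ Functor.whiskerLeft u.op (Torus_g L))
    fun U => (h U).moduleCat_surjective_g
  exact ⟨psh_exact _ fun U => (ShortComplex.moduleCat_exact_iff _).1 (h U).exact⟩

/-- The map on complexes induced by a map of presheaves. -/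
def Torus_tm {P Q : PSh C L} (φ : P ⟶ Q) (X : Ch C L) : (tens P).obj X ⟶ (tens Q).obj X :=
  (NatTrans.mapHomologicalComplex ((tensoringRight (PSh C L)).map φ) _).app X

theorem Torus_tm_f {P Q : PSh C L} (φ : P ⟶ Q) (X : Ch C L) (n : ℤ) :
    (Torus_tm φ X).f n = X.X n ◁ φ := rfl

variable {u} in
theorem Torus_thick {K : Ch C L → Prop} (h : Thick (NGen u) K) (X : Ch C L)
    (hX : K ((tens (u.op ⋙ Torus_Gm L)).obj X)) : K ((tT L u).obj X) := by
  have w : Torus_tm (Functor.whiskerLeft u.op (Torus_f L)) X ≫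
      Torus_tm (Functor.whiskerLeft u.op (Torus_g L)) X = 0 := by
    ext n : 1
    exact Torus_fg u (X.X n)
  have hS : (ShortComplex.mk _ _ w).ShortExact :=
    HomologicalComplex.shortExact_of_degreewise_shortExact _ fun n => Torus_shortExact u (X.X n)
  exact h.right _ hS hX (h.loc _ (Loc.gen _ (Or.inr ⟨X, rfl⟩)))

variable (L) in
/-- The tensor powers of `Gm`. -/
def Torus_G : ℕ → PSh C L
  | 0 => 𝟙_ (PSh C L)
  | r + 1 => Torus_G r ⊗ (u.op ⋙ Torus_Gm L)

theorem Torus_src (r : ℕ) : ∀ K : Ch C L → Prop, Thick (NGen u) K →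
    K ((sgl 0).obj (Torus_G L u r)) → ∀ q : ℤ, K ((src L u q r).obj (𝟙_ (PSh C L))) := by
  induction r with
  | zero => exact fun K h hK q => (h.sgl_iff _ 0 q).1 hK
  | succ r ih =>
    intro K h hK q
    have : IsExact (tensorRight (u.op ⋙ tate L) : PSh C L ⥤ _) :=
      isExact_tensorRight _ fun _ => flat_tate _
    have h' := h.comap (G := NGen u) (tensorRight (u.op ⋙ tate L))
      fun X hX => tens_loc u _ (fun _ => flat_tate _) (Loc.gen X hX)
    refine ih _ h' (Torus_thick h _ ?_) q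
    exact h.of_iso ((HomologicalComplex.singleMapHomologicalComplex
      (tensorRight (u.op ⋙ Torus_Gm L)) _ 0).app (Torus_G L u r)).symm hK

/-- The torus `I = U × Gm` over `U`. -/
structure Torus_Cyl (U : C) where
  /-- the torus -/
  I : C
  /-- the projection -/
  p : I ⟶ U
  /-- the coordinate -/
  t : Γ(u.obj I, ⊤)ˣ
  bij : ∀ V : C, Function.Bijective fun φ : V ⟶ I =>
    (φ ≫ p, Units.map (u.map φ).appTop.hom.toMonoidHom t)

variable {u}

namespace Torus_Cyl

variable {U : C} (c : Torus_Cyl u U)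

/-- The point of the torus over `x` with coordinate `a`. -/
def pt {V : C} (x : V ⟶ U) (a : Γ(u.obj V, ⊤)ˣ) : V ⟶ c.I := ((c.bij V).2 (x, a)).choose

theorem pt_p {V : C} (x : V ⟶ U) (a : Γ(u.obj V, ⊤)ˣ) : c.pt x a ≫ c.p = x :=
  congrArg Prod.fst ((c.bij V).2 (x, a)).choose_spec

theorem pt_t {V : C} (x : V ⟶ U) (a : Γ(u.obj V, ⊤)ˣ) :
    Units.map (u.map (c.pt x a)).appTop.hom.toMonoidHom c.t = a :=
  congrArg Prod.snd ((c.bij V).2 (x, a)).choose_spec

theorem comp_pt {V W : C} (ψ : W ⟶ V) (x : V ⟶ U) (a : Γ(u.obj V, ⊤)ˣ) :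
    ψ ≫ c.pt x a = c.pt (ψ ≫ x) (Units.map (u.map ψ).appTop.hom.toMonoidHom a) := by
  refine (c.bij W).1 (Prod.ext ?_ ?_)
  · change (ψ ≫ c.pt x a) ≫ c.p = c.pt _ _ ≫ c.p
    rw [Category.assoc, pt_p, pt_p]
  · refine Eq.trans ?_ (c.pt_t _ _).symm
    conv_rhs => rw [← c.pt_t x a]
    change Units.map (u.map (ψ ≫ c.pt x a)).appTop.hom.toMonoidHom c.t = _
    rw [Functor.map_comp, Scheme.Hom.comp_appTop]
    rfl

variable (L) in
/-- The projection `rep (U × Gm) ⟶ rep U ⊗ Gm`. -/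
def π : (rep C L).obj c.I ⟶ (rep C L).obj U ⊗ (u.op ⋙ Torus_Gm L) :=
  (repEquiv c.I _).symm (repEl L c.p ⊗ₜ[L] Torus_el L {1} c.t)

theorem π_app {V : C} (φ : V ⟶ c.I) :
    (c.π L).app (op V) (repEl L φ) = repEl L (φ ≫ c.p) ⊗ₜ[L]
      Torus_el L {1} (Units.map (u.map φ).appTop.hom.toMonoidHom c.t) := by
  have e : repSec (c.π L) = repEl L c.p ⊗ₜ[L] Torus_el L {1} c.t :=
    (repEquiv c.I _).apply_symm_apply _
  rw [app_repEl, e]
  change ((rep C L).obj U).map φ.op (repEl L c.p) ⊗ₜ[L]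
    (Torus_Gm L).map (u.map φ).op (Torus_el L {1} c.t) = _
  rw [map_repEl, Torus_Gm_map]
  rfl

theorem tens_ext {V : C} {M : Type 1} [AddCommGroup M] [Module L M]
    {f g : ((rep C L).obj U ⊗ (u.op ⋙ Torus_Gm L)).obj (op V) →ₗ[L] M}
    (h : ∀ (x : V ⟶ U) (a : Γ(u.obj V, ⊤)ˣ),
      f (repEl L x ⊗ₜ[L] Torus_el L {1} a) = g (repEl L x ⊗ₜ[L] Torus_el L {1} a)) : f = g :=
  TensorProduct.ext (Finsupp.lhom_ext' fun x => LinearMap.ext_ring
    (Torus_ext fun a => h x.down a))

variable (L) in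
/-- The bilinear map `(x, a) ↦ [(x, a)] - [(x, 1)]`. -/
def sLin (V : C) : ((rep C L).obj U).obj (op V) →ₗ[L] (u.op ⋙ Torus_Gm L).obj (op V) →ₗ[L]
    ((rep C L).obj c.I).obj (op V) :=
  Finsupp.linearCombination L fun x : ULift.{1} (V ⟶ U) =>
    Torus_desc L (fun a => repEl L (c.pt x.down a) - repEl L (c.pt x.down 1)) (by
      rintro _ rfl
      exact sub_self _)

theorem sLin_apply {V : C} (x : V ⟶ U) (a : Γ(u.obj V, ⊤)ˣ) :
    c.sLin L V (repEl L x) (Torus_el L {1} a) = repEl L (c.pt x a) - repEl L (c.pt x 1) := by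
  rw [sLin, repEl]
  erw [Finsupp.linearCombination_single]
  rw [one_smul]
  exact Torus_desc_el _ _ a

variable (L) in
/-- The section of `π`. -/
def s : (rep C L).obj U ⊗ (u.op ⋙ Torus_Gm L) ⟶ (rep C L).obj c.I where
  app V := ModuleCat.ofHom (TensorProduct.lift (c.sLin L V.unop))
  naturality V W ψ := by
    refine ModuleCat.hom_ext (tens_ext fun x a => ?_)
    change c.sLin L W.unop (((rep C L).obj U).map ψ.unop.op (repEl L x))
      ((Torus_Gm L).map (u.map ψ.unop).op (Torus_el L {1} a)) =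
      ((rep C L).obj c.I).map ψ.unop.op (c.sLin L V.unop (repEl L x) (Torus_el L {1} a))
    rw [map_repEl, Torus_Gm_map, sLin_apply, sLin_apply, map_sub, map_repEl, map_repEl, comp_pt,
      comp_pt, map_one]
    rfl

theorem s_π : c.s L ≫ c.π L = 𝟙 _ := by
  ext V : 2
  refine ModuleCat.hom_ext (tens_ext fun x a => ?_)
  change (c.π L).app (op V.unop) (c.sLin L V.unop (repEl L x) (Torus_el L {1} a)) = _
  rw [sLin_apply, map_sub, π_app, π_app, pt_p, pt_p, pt_t, pt_t,
    Torus_el_zero (S := {1}) (a := 1) rfl, TensorProduct.tmul_zero, sub_zero]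
  rfl

theorem comp_π_zero (ε : c.I ⟶ c.I)
    (h : Units.map (u.map ε).appTop.hom.toMonoidHom c.t = 1) : (rep C L).map ε ≫ c.π L = 0 :=
  (repSec_bijective _ _).1 (by
    rw [repSec_comp, repSec, rep_map_repEl, π_app, Category.id_comp, h,
      Torus_el_zero (S := {1}) (a := 1) rfl, TensorProduct.tmul_zero, repSec_zero])

theorem comp_π (ε : c.I ⟶ c.I) (η : U ⟶ U) (h₁ : ε ≫ c.p = c.p ≫ η)
    (h : Units.map (u.map ε).appTop.hom.toMonoidHom c.t = c.t) :
    (rep C L).map ε ≫ c.π L = c.π L ≫ (rep C L).map η ▷ (u.op ⋙ Torus_Gm L) :=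
  (repSec_bijective _ _).1 (by
    have e : repSec (c.π L) = repEl L c.p ⊗ₜ[L] Torus_el L {1} c.t :=
      (repEquiv c.I _).apply_symm_apply _
    rw [repSec_comp, repSec_comp, e, repSec, rep_map_repEl, π_app, Category.id_comp, h, h₁,
      ← rep_map_repEl]
    rfl)

/-- The inductive step. -/
def red {Λ : Set (U ⟶ U)} {Λ' : Set (c.I ⟶ c.I)} {G : PSh C L}
    (d : RedOf ((rep C L).map '' Λ) G)
    (h : ∀ ε ∈ Λ', Units.map (u.map ε).appTop.hom.toMonoidHom c.t = 1 ∨
      ∃ η ∈ Λ, ε ≫ c.p = c.p ≫ η ∧ Units.map (u.map ε).appTop.hom.toMonoidHom c.t = c.t) :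
    RedOf ((rep C L).map '' Λ') (G ⊗ (u.op ⋙ Torus_Gm L)) where
  i := d.i ▷ _ ≫ c.s L
  p := c.π L ≫ d.p ▷ _
  ip := by
    rw [Category.assoc, ← Category.assoc (c.s L), s_π, Category.id_comp, ← comp_whiskerRight, d.ip,
      id_whiskerRight]
  kill := by
    rintro _ ⟨ε, hε, rfl⟩
    rcases h ε hε with h | ⟨η, hη, h₁, h⟩
    · rw [← Category.assoc, c.comp_π_zero ε h, zero_comp]
    · rw [← Category.assoc, c.comp_π ε η h₁ h, Category.assoc, ← comp_whiskerRight,
        d.kill _ ⟨η, hη, rfl⟩, MonoidalPreadditive.zero_whiskerRight, comp_zero]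

end Torus_Cyl

/-- The unit object is a retract of the presheaf represented by a final object. -/
def Torus_red0 (U : C) (x : ∀ V : C, V ⟶ U) (hx : ∀ {V W : C} (ψ : W ⟶ V), ψ ≫ x V = x W)
    {Λ : Set ((rep C L).obj U ⟶ (rep C L).obj U)} (hΛ : ∀ ε, ε ∉ Λ) :
    RedOf Λ (𝟙_ (PSh C L)) where
  i :=
    { app := fun V => ModuleCat.ofHom (LinearMap.toSpanSingleton L _ (repEl L (x V.unop)))
      naturality := fun V W ψ => ModuleCat.hom_ext (LinearMap.ext_ring (by
        change (1 : L) • repEl L (x W.unop) =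
          ((rep C L).obj U).map ψ.unop.op ((1 : L) • repEl L (x V.unop))
        rw [one_smul, one_smul, map_repEl, hx])) }
  p := (repEquiv U _).symm (1 : L)
  ip := by
    ext V : 2
    refine ModuleCat.hom_ext (LinearMap.ext_ring ?_)
    have e : repSec ((repEquiv U (𝟙_ (PSh C L))).symm (1 : L)) = (1 : L) :=
      (repEquiv U _).apply_symm_apply _
    change ((repEquiv U (𝟙_ (PSh C L))).symm (1 : L)).app (op V.unop)
      ((1 : L) • repEl L (x V.unop)) = (1 : L)
    rw [one_smul, app_repEl, e]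
    rfl
  kill ε h := (hΛ ε h).elim

end Torus_gm

section Torus_lau

variable {A R : Type} [CommRing A] [CommRing R] {a : A →+* R}

/-- The torus over the spectrum of an `EP` algebra. -/
def Torus_cylE (ha : EP a) : Torus_Cyl (smS A) (spE a ha) where
  I := spE ((lauC R).comp a) (S7.ep_lau ha)
  p := spM ha (S7.ep_lau ha) (lauC R) rfl
  t := ((isUnit_lauL_X R).map (unE (S7.ep_lau ha))).unit
  bij := by
    intro V
    have h1 : ∀ φ : V ⟶ spE ((lauC R).comp a) (S7.ep_lau ha),
        ((gm φ).comp (unE (S7.ep_lau ha))).comp (lauC R) =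
          (gm (φ ≫ spM ha (S7.ep_lau ha) (lauC R) rfl)).comp (unE ha) := fun φ => by
      rw [gm_comp, RingHom.comp_assoc, RingHom.comp_assoc, unE_nat]
    refine ⟨fun φ ψ h => spE_hom_ext _
      (lau_ext ?_ (congrArg (fun z => (Prod.snd z).val) h :)), ?_⟩
    · rw [h1, h1, show φ ≫ _ = ψ ≫ _ from congrArg Prod.fst h]
    · rintro ⟨g, t⟩
      obtain ⟨φ, hφ⟩ := spE_hom_exists (S7.ep_lau ha)
        (lauLift ((gm g).comp (unE ha)) t.val t.isUnit) (by
          rw [← st_nat g, ← unE_st ha]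
          exact RingHom.ext fun r => lauLift_lauC _ _ t.isUnit _)
      refine ⟨φ, Prod.ext (spE_hom_ext ha ?_) (Units.ext ?_)⟩
      · rw [← h1, hφ]
        exact RingHom.ext fun r => lauLift_lauC _ _ t.isUnit _
      · exact (RingHom.congr_fun hφ (lauL R Polynomial.X)).trans
          ((lauLift_lauL _ _ _ _).trans (Polynomial.eval₂_X _ _))

end Torus_lau

variable (A : Type) [CommRing A] (L : Type 1) [CommRing L]

/-- The torus of rank `r`. -/
abbrev torS (r : ℕ) : Sm A := spE (torC A r) (ep_torC A r)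

/-- The endomorphisms `t_i ↦ 1` of the torus. -/
def torE (r : ℕ) : Set (torS A r ⟶ torS A r) :=
  {ε | ∃ φ, ∃ h : φ ∈ torFam A r, ε = spM (ep_torC A r) (ep_torC A r) φ (torFam_over A r φ h)}

theorem Torus_red (r : ℕ) :
    Nonempty (RedOf ((rep (Sm A) L).map '' torE A r) (Torus_G L (smS A) r)) := by
  induction r with
  | zero =>
    have h : ∀ V : Sm A, ∃ φ : V ⟶ torS A 0, (gm φ).comp (unE (ep_torC A 0)) = st V :=
      fun V => spE_hom_exists (ep_torC A 0) (st V) rfl
    choose x hx using h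
    refine ⟨Torus_red0 _ x (fun {V W} ψ => spE_hom_ext _ ?_) ?_⟩
    · rw [gm_comp, RingHom.comp_assoc, hx, hx]
      exact st_nat ψ
    · rintro _ ⟨_, ⟨_, h, -⟩, -⟩
      exact h
  | succ r ih =>
    obtain ⟨d⟩ := ih
    refine ⟨(Torus_cylE (ep_torC A r)).red (Λ' := torE A (r + 1)) d ?_⟩
    rintro _ ⟨φ, h, rfl⟩
    have h1 := RingHom.congr_fun (unE_nat (ep_torC A (r + 1)) (ep_torC A (r + 1)) φ
      (torFam_over A (r + 1) φ h)) (lauL (Tor A r) Polynomial.X)
    rcases h with rfl | ⟨ψ, hψ, rfl⟩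
    · refine Or.inl (Units.ext (h1.trans ?_))
      change unE _ (lauC _ (lauE _ (lauL _ Polynomial.X))) = 1
      rw [lauE_X, map_one, map_one]
    · refine Or.inr ⟨_, ⟨ψ, hψ, rfl⟩, ?_, Units.ext (h1.trans ?_)⟩
      · refine (spM_comp _ _ _ _ _ _ _ (by
          rw [lauMap_lauC, RingHom.comp_assoc, torFam_over A r ψ hψ]
          rfl)).symm.trans (Eq.trans ?_ (spM_comp _ _ _ _ _ _ _ (by
          rw [RingHom.comp_assoc, torFam_over A r ψ hψ]
          rfl)))
        congr 1
        exact lauMap_lauC ψ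
      · change unE _ (lauMap ψ (lauL _ Polynomial.X)) = _
        rw [lauMap_X]
        rfl

theorem exists_red (r : ℕ) : ∃ G : PSh (Sm A) L,
    Nonempty (RedOf ((rep (Sm A) L).map '' torE A r) G) ∧
    ∀ K : Ch (Sm A) L → Prop, Thick (NGen (smS A)) K → K ((sgl 0).obj G) →
      ∀ q : ℤ, K ((src L (smS A) q r).obj (𝟙_ (PSh (Sm A) L))) := by
  exact ⟨Torus_G L (smS A) r, Torus_red A L r, Torus_src (smS A) r⟩

end Pool.Agent.KEW
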