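import Pool.Agent.P.MP_6277db_ag.KEW.L8b.EvS
import Pool.Agent.P.MP_6277db_ag.KEW.L8b.JW
import Pool.Agent.P.MP_6277db_ag.KEW.L8b.NN
import Pool.Agent.P.MP_6277db_ag.KEW.L8b.Torus

/-!
KEW project, layer L8b: vanishing of maps from reduced tori to complexes supported on the generic fibre.
-/

set_option backward.isDefEq.respectTransparency false

noncomputable section

open CategoryTheory Limits AlgebraicGeometry Opposite HomologicalComplex

namespace Pool.Agent.KEW

open _root_.KEW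

section

variable {C C' : Type 1} [Category.{0} C] [Category.{0} C'] {L : Type 1} [CommRing L]

theorem orth_cone_of_red {G : Ch C L → Prop} {X Y : Ch C L} (hX : IsLocal G X) (hY : IsLocal G Y)
    (φ : X ⟶ Y) {T : C} {Λ : Set (T ⟶ T)} {P : PSh C L} (d : RedOf ((rep C L).map '' Λ) P)
    (hi : ∀ (q : ℤ) (x : (X.homology q).obj (op T)), (∀ ε ∈ Λ, (X.homology q).map ε.op x = 0) →
      (homologyMap φ q).app (op T) x = 0 → x = 0)
    (hs : ∀ (q : ℤ) (y : (Y.homology q).obj (op T)), (∀ ε ∈ Λ, (Y.homology q).map ε.op y = 0) →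
      ∃ x, (homologyMap φ q).app (op T) x = y) :
    Orth G ((sgl 0).obj P) (CochainComplex.mappingCone φ) := by
  refine (Orth.cone_right_iff φ).2 fun n =>
    bijective_postcomp_of_iso ((sglShiftQ G n 0).app P) _ ?_
  generalize 0 - n = q
  change Function.Bijective fun f : (QM G).obj ((sgl q).obj P) ⟶ (QM G).obj X => f ≫ (QM G).map φ
  have hip : (QM G).map ((sgl q).map d.i) ≫ (QM G).map ((sgl q).map d.p) = 𝟙 _ := by
    rw [← Functor.map_comp, ← Functor.map_comp, d.ip, (sgl q).map_id, (QM G).map_id]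
  have red : ∀ {Z : Ch C L} (hZ : IsLocal G Z) (f : (QM G).obj ((sgl q).obj P) ⟶ (QM G).obj Z),
      ∀ ε ∈ Λ, (Z.homology q).map ε.op (hZ.homRep ((QM G).map ((sgl q).map d.p) ≫ f)) = 0 := by
    intro Z hZ f ε hε
    rw [← hZ.homRep_map_comp, hZ.homRep_eq_zero_iff, ← Category.assoc, ← Functor.map_comp,
      ← Functor.map_comp, d.kill _ ⟨ε, hε, rfl⟩, Functor.map_zero, Functor.map_zero, zero_comp]
  constructor
  · intro f g hfg
    rw [← sub_eq_zero]
    have h0 : (f - g) ≫ (QM G).map φ = 0 := by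
      rw [Preadditive.sub_comp, sub_eq_zero]
      exact hfg
    have h1 := hi q _ (red hX (f - g)) (by
      rw [← hX.homRep_comp_map hY, Category.assoc, h0, comp_zero, hY.homRep_eq_zero_iff])
    rw [hX.homRep_eq_zero_iff] at h1
    rw [← Category.id_comp (f - g), ← hip, Category.assoc, h1, comp_zero]
  · intro g
    obtain ⟨x, hx⟩ := hs q _ (red hY g)
    obtain ⟨f, rfl⟩ := (hX.homRep_bijective q T).2 x
    rw [← hX.homRep_comp_map hY] at hx
    refine ⟨(QM G).map ((sgl q).map d.i) ≫ f, ?_⟩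
    change (_ ≫ f) ≫ _ = g
    rw [Category.assoc, (hY.homRep_bijective q T).1 hx, ← Category.assoc, hip, Category.id_comp]

theorem map_homologyMap (Φ : PSh C L ⥤ PSh C' L) [IsExact Φ] {X Y : Ch C L} (φ : X ⟶ Y) (q : ℤ) :
    Φ.map (homologyMap φ q) = (TW_homologyMapIso Φ X q).inv ≫
      homologyMap ((mapC Φ).map φ) q ≫ (TW_homologyMapIso Φ Y q).hom := by
  rw [Iso.eq_inv_comp]
  exact (ShortComplex.mapHomologyIso_hom_naturality ((shortComplexFunctor _ _ q).map φ) Φ).symm

theorem locIso_of_wg {u : C' ⥤ Scheme.{0}} (Φ : PSh C L ⥤ PSh C' L) [IsExact Φ] {X Y : Ch C L}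
    {φ : X ⟶ Y} (h : WG (NisGen u) ((mapC Φ).map φ)) (q : ℤ) :
    LocInj u (Φ.map (homologyMap φ q)) ∧ LocSurj u (Φ.map (homologyMap φ q)) := by
  obtain ⟨h1, h2⟩ := (wg_nis_iff _).1 h q
  rw [map_homologyMap]
  exact ⟨(LocInj.of_mono _).comp (h1.comp (LocInj.of_mono _)),
    (LocSurj.of_epi _).comp (h2.comp (LocSurj.of_epi _))⟩

end

variable {A κ F : Type} [CommRing A] [Field κ] [Field F] {L : Type 1} [CommRing L] {π : A}
  {ρ : A →+* κ} {m : ℕ}

theorem g1_zero (P : PSh (TrS m A) L) [P.Additive] : G1 (0 : A) ((fgt L m A).obj P) := by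
  intro V hV a
  have h1 : Subsingleton Γ((smS A).obj V, ⊤) := by
    rw [Gen, map_zero, isUnit_zero_iff] at hV
    exact subsingleton_of_zero_eq_one hV
  have h2 : (𝟙 ((gamS m A).obj V) : _ ⟶ _) = 0 := Corr.ext_ent fun Om _ _ x _ =>
    absurd (@RingHom.codomain_trivial _ _ _ _
      ((Scheme.ΓSpecIso (.of Om)).hom.hom.comp x.appTop.hom) h1) (not_subsingleton Om)
  refine (Site_id P (U := (gamS m A).obj V) a).symm.trans ?_
  rw [h2, op_zero, P.map_zero]
  rfl

theorem base_zero [PerfectField F] (hm : IsUnit (m : F)) : Base (0 : F) (RingHom.id F) m :=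
  ⟨inferInstance, Function.surjective_id,
    ((RingHom.injective_iff_ker_eq_bot _).1 Function.injective_id).trans
      (Ideal.span_singleton_eq_bot.2 rfl).symm, inferInstance, hm⟩

theorem exists_po_tor (f : A →+* F) : ∀ r : ℕ, ∃ i : Tor A r →+* Tor F r,
    IsPO (torC A r) f i (torC F r)
  | 0 => ⟨f, PO_symm (PO_of_bijective rfl Function.bijective_id Function.bijective_id)⟩
  | r + 1 => by
    obtain ⟨i, hi⟩ := exists_po_tor f r
    exact ⟨lauMap i, PO_paste' hi (PO_symm (isPO_lau i))⟩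

/-- Over a perfect field the Nisnevich replacement of a complex with homotopy invariant homology is
local. -/
theorem isLocal_of_hi [PerfectField F] (hm : IsUnit (m : F)) (hL : (m : L) = 0)
    {C B : Ch (TrS m F) L} (hC : ∀ n, (C.X n).Additive)
    (h : ∀ q, (rf ((fgt L m F).obj (C.homology q))).HI) {j : C ⟶ B}
    (hj : WG (NisGen (smS F)) ((mapC (fgt L m F)).map j))
    (hB : IsLocal (NisGen (smS F)) ((mapC (fgt L m F)).obj B)) :
    IsLocal (NGen (smS F)) ((mapC (fgt L m F)).obj B) :=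
  o1_tr (n := 0) (base_zero hm) hm hL (ringKrullDim_eq_zero_of_field F).le hC
    (fun q => have := additive_homology C hC q; g1_zero _)
    (fun q => L6.g2_zero (hinv_of_hi (h q))) _ hj hB

theorem hi_fgt {B : Ch (TrS m A) L} [IsNoetherianRing A]
    (hB : IsLocal (NGen (smS A)) ((mapC (fgt L m A)).obj B)) (q : ℤ) :
    (rf ((fgt L m A).obj (B.homology q))).HI :=
  (rBij_rfHom (fgtH B q).hom).hi (hi_of_local hB q)

instance (f : A →+* F) (P : PSh (TrS m F) L) [P.Additive] : ((rs L (bcTr f m)).obj P).Additive :=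
  inferInstanceAs ((bcTr f m).op ⋙ P).Additive

/-- Local isomorphisms on the generic fibre preserve the comparison of sections and germs. -/
theorem gb_of_locIso [PerfectField F] (hb : Base π ρ m) (hm : IsUnit (m : A)) (hL : (m : L) = 0)
    {f : A →+* F} (hf : RadBC π f) {P P' : PSh (TrS m F) L} [P.Additive] [P'.Additive] (φ : P ⟶ P')
    (hP : (rf ((fgt L m F).obj P)).HI) (hP' : (rf ((fgt L m F).obj P')).HI)
    (hi : LocInj (smS F) ((fgt L m F).map φ)) (hs : LocSurj (smS F) ((fgt L m F).map φ)) (r : ℕ)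
    (H : GB π (rf ((fgt L m A).obj ((rs L (bcTr f m)).obj P))) (torC A r) (torFam A r)) :
    GB π (rf ((fgt L m A).obj ((rs L (bcTr f m)).obj P'))) (torC A r) (torFam A r) := by
  have hmF : IsUnit (m : F) := by simpa using hm.map f
  obtain ⟨h1, h2⟩ := locIso_bc hb hm hL hf φ (hinv_of_hi hP) (hinv_of_hi hP') hi hs
  refine H.transfer (ep_torC A r) (torFam_over A r) (evIso_tor hb hm hL _
    (rig_rf f hb.noeth hf.ne hm hL P (hinv_of_hi hP))
    (rig_rf f hb.noeth hf.ne hm hL P' (hinv_of_hi hP')) h1 h2 r) ?_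
  have h3 := (evIso_tor (base_zero hmF) hmF hL φ (L6.g2_zero (hinv_of_hi hP))
    (L6.g2_zero (hinv_of_hi hP')) hi hs r).bijective_of_zero (ep_torC F r)
  obtain ⟨i, hi⟩ := exists_po_tor f r
  have := isIso_toBc (ep_torC A r) (ep_torC F r) hi
  have b : ∀ Q : PSh (TrS m F) L, Function.Bijective fun x : (rf ((fgt L m A).obj
      ((rs L (bcTr f m)).obj Q))).obj (torC A r) => (rfE ((fgt L m F).obj Q) (ep_torC F r)).symm
        (((fgt L m F).obj Q).map (toBc (ep_torC A r) (ep_torC F r) i hi.comm).op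
          (rfE _ (ep_torC A r) x)) := fun Q =>
    (rfE _ (ep_torC F r)).symm.bijective.comp
      (((ConcreteCategory.isIso_iff_bijective _).1 inferInstance).comp (rfE _ (ep_torC A r)).bijective)
  rw [← Function.Bijective.of_comp_iff' (b P')]
  convert h3.comp (b P) using 1
  funext x
  refine (rfE _ (ep_torC F r)).injective ?_
  simp only [Function.comp_apply, AddEquiv.apply_symm_apply, rfE_app]
  exact (Site_nat ((fgt L m F).map φ) _ _).symm

theorem orth_cut (hb : Base π ρ m) (hm : IsUnit (m : A)) (hL : (m : L) = 0) {n : ℕ}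
    (hn : ringKrullDim A ≤ n) {D : Ch (TrS m A) L} (hD : ∀ n, (D.X n).Additive)
    (h1 : IsLocal (NGen (smS A)) ((mapC (fgt L m A)).obj D))
    (h2 : ∀ q, L6.G2 π (rf ((fgt L m A).obj (D.homology q)))) {r : ℕ}
    (h3 : ∀ q, GB π (rf ((fgt L m A).obj (D.homology q))) (torC A r) (torFam A r))
    {G : PSh (Sm A) L} (d : RedOf ((rep (Sm A) L).map '' torE A r) G) :
    Orth (NGen (smS A)) ((sgl 0).obj G)
      ((mapC (cut L (genS π))).obj ((mapC (fgt L m A)).obj D)) := by
  have := hb.noeth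
  obtain ⟨N, p, hN, g1, ev, H⟩ := exists_nn π D hD
  have g2 : ∀ q, L6.G2 π (rf ((fgt L m A).obj (N.homology q))) := fun q =>
    G2.of_evSurj (rfHom ((fgt L m A).map (homologyMap p q))) (fun E _ η hη a => by
      obtain ⟨E', _, j, x, hj, hx⟩ := (ev q E η hη).surj E (RingHom.id E) (ee_id _) a
      exact ⟨E', _, j, x, hj, hx⟩) (h2 q)
  obtain ⟨N', j, -, hN', hj, hl⟩ := exists_nis_trS N hN
  have hl' := o1_tr hb hm hL hn hN g1 g2 _ hj hl
  have ui : ∀ q, (rf ((fgt L m A).obj (N'.homology q))).UI π := fun q =>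
    (rBij_rfHom (fgtH N' q).hom).ui (ui_of_local hj hl (fun q => (g1 q).of_iso (fgtH N q).symm) q)
  have key := fun q =>
    have := additive_homology N hN q
    have := additive_homology N' hN' q
    (h3 q).bij (ep_torC A r) (torFam_over A r) ((ev q _ _ (ep_torC A r)).comp (ep_torC A r)
      (evIso_tor hb hm hL (homologyMap j q) (g2 q) (g2_of_hi_of_ui (hi_fgt hl' q) (ui q))
        (locIso_of_wg _ hj q).1 (locIso_of_wg _ hj q).2 r)) (ui q)
  have hK := thick_orth_right (NGen (smS A)) ((sgl 0).obj G)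
  refine H _ hK ((hK.cone_iff_of_sq _ ((mapC (fgt L m A)).map (p ≫ j)) (a := 𝟙 _)
    (by rw [Category.id_comp, Functor.map_comp]) (WG.of_isIso _) hj.of_nis).2 ?_)
  have e : ∀ (q : ℤ) (x : (rf ((fgt L m A).obj (D.homology q))).obj (torC A r)),
      rfE _ (ep_torC A r) (((rfHom ((fgt L m A).map (homologyMap p q))).comp
        (rfHom ((fgt L m A).map (homologyMap j q)))).app _ x) =
      (fgtH N' q).hom.app _ ((homologyMap ((mapC (fgt L m A)).map (p ≫ j)) q).app _
        ((fgtH D q).inv.app _ (rfE _ (ep_torC A r) x))) := fun q x => by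
    have := map_homologyMap (fgt L m A) (p ≫ j) q
    rw [homologyMap_comp, Functor.map_comp] at this
    exact congrArg (fun θ => θ.app (op (torS A r)) (rfE _ (ep_torC A r) x)) this
  have red : ∀ (Z : Ch (TrS m A) L) (q : ℤ)
      (x : (((mapC (fgt L m A)).obj Z).homology q).obj (op (torS A r))),
      (∀ ε ∈ torE A r, (((mapC (fgt L m A)).obj Z).homology q).map ε.op x = 0) →
      ∀ φ (hφ : φ ∈ torFam A r), (rf ((fgt L m A).obj (Z.homology q))).map φ
        (torFam_over A r φ hφ) ((rfE _ (ep_torC A r)).symm ((fgtH Z q).hom.app _ x)) = 0 := by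
    intro Z q x hx φ hφ
    refine (rfE _ (ep_torC A r)).injective ?_
    rw [rfE_map _ _ _ (ep_torC A r), AddEquiv.apply_symm_apply, ← Site_nat, hx _ ⟨φ, hφ, rfl⟩,
      map_zero, map_zero]
  have ci : ∀ (Z : Ch (TrS m A) L) (q : ℤ)
      (x : (((mapC (fgt L m A)).obj Z).homology q).obj (op (torS A r))),
      (fgtH Z q).inv.app _ ((fgtH Z q).hom.app _ x) = x := fun Z q x =>
    congrArg (fun θ => θ.app (op (torS A r)) x) (fgtH Z q).hom_inv_id
  refine orth_cone_of_red h1 hl' _ d (fun q x hx h0 => ?_) fun q y hy => ?_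
  · have := (key q).1 _ (red D q x hx) ((rfE _ (ep_torC A r)).injective (by
      rw [e, AddEquiv.apply_symm_apply, ci, h0, map_zero, map_zero]))
    rw [← ci D q x, (AddEquiv.map_eq_zero_iff _).1 this, map_zero]
  · obtain ⟨x, -, hx⟩ := (key q).2 _ (red N' q y hy)
    refine ⟨(fgtH D q).inv.app _ (rfE _ (ep_torC A r) x), ?_⟩
    refine (ci N' q _).symm.trans (Eq.trans (congrArg _ ?_) (ci N' q y))
    rw [← e, hx, AddEquiv.apply_symm_apply]

/-- **D0**. -/
theorem orth_jj [PerfectField F] (hb : Base π ρ m) (hm : IsUnit (m : A)) (hL : (m : L) = 0) {n : ℕ}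
    (hn : ringKrullDim A ≤ n) {f : A →+* F} (hf : RadBC π f) {C : Ch (TrS m F) L}
    (hC : ∀ n, (C.X n).Additive) (h1 : ∀ q, (rf ((fgt L m F).obj (C.homology q))).HI) {r : ℕ}
    (h2 : ∀ q, GB π (rf ((fgt L m A).obj ((rs L (bcTr f m)).obj (C.homology q)))) (torC A r)
      (torFam A r)) {G : PSh (Sm A) L} (d : RedOf ((rep (Sm A) L).map '' torE A r) G) :
    Orth (NGen (smS A)) ((sgl 0).obj G) ((mapC (JJ L f π)).obj ((mapC (fgt L m F)).obj C)) := by
  have := hb.noeth
  have hmF : IsUnit (m : F) := by simpa using hm.map f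
  obtain ⟨B, j, -, hB, hj, hl⟩ := exists_nis_trS C hC
  have hl' := isLocal_of_hi hmF hL hC h1 hj hl
  have hK := thick_orth_right (NGen (smS A)) ((sgl 0).obj G)
  refine ((hK.comap (JJ L f π) (jj_gen hf)).wg_iff hj.of_nis).2 ?_
  let e : (mapC (fgt L m A)).obj ((mapC (rs L (bcTr f m))).obj B) ≅
      (mapC (rs L (bcFun f))).obj ((mapC (fgt L m F)).obj B) :=
    (NatIso.mapHomologicalComplex (fgtIso f L m) _).app B
  have eH := fun q => (fgt L m A).mapIso (TW_homologyMapIso (rs L (bcTr f m)) B q).symm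
  refine hK.of_iso ((mapC (cut L (genS π))).mapIso e) (orth_cut hb hm hL hn
    (fun n => have := hB n; inferInstanceAs ((rs L (bcTr f m)).obj (B.X n)).Additive)
    ((isLocal_bc f hl').of_iso e.symm) (fun q => ?_) (fun q => ?_) d)
  · have := additive_homology B hB q
    exact g2_of_iso (eH q) (rig_rf f hb.noeth hf.ne hm hL _ (hinv_of_hi (hi_fgt hl' q)))
  · have := additive_homology B hB q
    have := additive_homology C hC q
    exact (gb_of_locIso hb hm hL hf (homologyMap j q) (h1 q) (hi_fgt hl' q)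
      (locIso_of_wg _ hj q).1 (locIso_of_wg _ hj q).2 r (h2 q)).transfer (ep_torC A r)
      (torFam_over A r) (evIso_of_bijective (ep_torC A r) (rBij_rfHom (eH q).hom))
      (rBij_rfHom (eH q).hom _ _ (ep_torC A r))

end Pool.Agent.KEW
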