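import Pool.Agent.P.MP_6277db_ag.KEW.G.Need
import Pool.Agent.P.MP_6277db_ag.KEW.G.Pts
import Pool.Agent.P.MP_6277db_ag.KEW.G.Cut
import Pool.Agent.P.MP_6277db_ag.KEW.L8b.Ev
import Pool.Agent.P.MP_6277db_ag.KEW.L8b.Zr

/-!
KEW project, layer L8b, row EVS: local isomorphisms of presheaves with transfers are isomorphisms on germs of tori, and
stay local isomorphisms under direct image from the generic fibre.

Hints. Use the kernel and the cokernel of `φ`; they are additive, `fgt` and `rs` are exact (`IsExact`), sections of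
kernels and cokernels are computed objectwise (`Site_exact`, `Site_inj`, `Site_surj`).
* `g2_kernel`: `G2.of_inj`; `g2_cokernel`: `g2_of_app_surj`.
* `evIso_tor`: `hasPT_rf`, `locZero_iff_dies`, `torus_dies` for the kernel and the cokernel.
* `locIso_bc`: `rig_rf`, `g2_kernel`, `g2_cokernel`, `hasPT_rf`, `dies_bc` with `fcmp f _` (transport along `fgtIso`,
  `S7.hasPT_of_bij`), `locZero_iff_dies`.
-/

set_option backward.isDefEq.respectTransparency false

noncomputable section

open CategoryTheory Limits AlgebraicGeometry Opposite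

namespace Pool.Agent.KEW

open _root_.KEW

variable {A κ F : Type} [CommRing A] [Field κ] [Field F] {L : Type 1} [CommRing L] {π : A}
  {ρ : A →+* κ} {m : ℕ}

theorem EvS_add_mono {C : Type 1} [Category.{0} C] [Preadditive C] {K P : PSh C L} (ι : K ⟶ P)
    [Mono ι] [P.Additive] : K.Additive :=
  ⟨fun {_ V f g} => ModuleCat.hom_ext (LinearMap.ext fun a => Site_inj ι V.unop (by
    have h1 := NatTrans.naturality_apply ι (f + g) a
    have h2 := NatTrans.naturality_apply ι f a
    have h3 := NatTrans.naturality_apply ι g a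
    have h4 : P.map (f + g) (ι.app _ a) = P.map f (ι.app _ a) + P.map g (ι.app _ a) :=
      congrArg (fun θ => θ.hom (ι.app _ a)) (P.map_add (f := f) (g := g))
    exact h1.trans (h4.trans ((congrArg₂ (· + ·) h2 h3).symm.trans (map_add _ _ _).symm))))⟩

theorem EvS_add_epi {C : Type 1} [Category.{0} C] [Preadditive C] {P Q : PSh C L} (p : P ⟶ Q)
    [Epi p] [P.Additive] : Q.Additive :=
  ⟨fun {U _ f g} => ModuleCat.hom_ext (LinearMap.ext fun b => by
    obtain ⟨a, rfl⟩ := Site_surj p U.unop b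
    have h1 := NatTrans.naturality_apply p (f + g) a
    have h2 := NatTrans.naturality_apply p f a
    have h3 := NatTrans.naturality_apply p g a
    have h4 : P.map (f + g) a = P.map f a + P.map g a :=
      congrArg (fun θ => θ.hom a) (P.map_add (f := f) (g := g))
    exact h1.symm.trans ((congrArg (p.app _) h4).trans
      ((map_add _ _ _).trans (congrArg₂ (· + ·) h2 h3))))⟩

theorem EvS_add_rs {C C' : Type 1} [Category.{0} C] [Preadditive C] [Category.{0} C']
    [Preadditive C'] (γ : C ⥤ C') [γ.Additive] (P : PSh C' L) [P.Additive] :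
    ((rs L γ).obj P).Additive :=
  inferInstanceAs (γ.op ⋙ P).Additive

theorem EvS_inj {P P' : PSh (Sm A) L} (ι : P ⟶ P') [Mono ι] {R : Type} [CommRing R] {a : A →+* R}
    (ha : EP a) : Function.Injective ((rfHom ι).app a) := fun _ _ h =>
  (rfE P ha).injective (Site_inj ι _ (congrArg (rfE P' ha) h))

theorem EvS_exact {S : ShortComplex (PSh (Sm A) L)} (hS : S.Exact) {R : Type} [CommRing R]
    {a : A →+* R} (ha : EP a) (x : (rf S.X₂).obj a) :
    (rfHom S.g).app a x = 0 ↔ ∃ y, (rfHom S.f).app a y = x := by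
  constructor
  · intro h
    obtain ⟨y, hy⟩ := Site_exact hS (rfE S.X₂ ha x)
      ((congrArg (rfE S.X₃ ha) h).trans (map_zero _))
    exact ⟨(rfE S.X₁ ha).symm y, (rfE S.X₂ ha).injective hy⟩
  · rintro ⟨y, rfl⟩
    exact (rfE S.X₃ ha).injective ((Site_zero S.zero _).trans (map_zero _).symm)

theorem EvS_hasPT {P P' : PSh (Sm A) L} (e : P ≅ P') (h : HasPT.{0, 1, 1} π ρ m (rf P)) :
    HasPT.{0, 1, 1} π ρ m (rf P') :=
  S7.hasPT_of_bij (rfHom e.hom) (fun R _ a ha => ⟨EvS_inj e.hom ha, fun y => by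
    obtain ⟨x, hx⟩ := Site_surj e.hom _ (rfE P' ha y)
    exact ⟨(rfE P ha).symm x, (rfE P' ha).injective hx⟩⟩) h

theorem EvS_tor (hb : Base π ρ m) (hm : IsUnit (m : A)) (hL : (m : L) = 0) (K : PSh (TrS m A) L)
    [K.Additive] {Q : PSh (Sm A) L} (e : (fgt L m A).obj K ≅ Q) (hG : L6.G2 π (rf Q))
    (h0 : LocZero (smS A) Q) (r : ℕ) : EvZero π (torC A r) (rf Q) :=
  haveI := hb.noeth
  torus_dies hb (EvS_hasPT e (hasPT_rf K hL hb hm (g2_of_iso e.symm hG)))
    (fun R K _ _ a x ha _ => (locZero_iff_dies Q).1 h0 R K a x ha) r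

theorem EvS_bc (hb : Base π ρ m) (hm : IsUnit (m : A)) (hL : (m : L) = 0) {f : A →+* F}
    (hf : RadBC π f) (K : PSh (TrS m F) L) [K.Additive] {Q : PSh (Sm A) L}
    (e : (fgt L m A).obj ((rs L (bcTr f m)).obj K) ≅ Q) (hG : L6.G2 π (rf Q))
    (h0 : LocZero (smS F) ((fgt L m F).obj K)) : LocZero (smS A) Q := by
  have := hb.noeth
  have := EvS_add_rs (bcTr f m) K
  have h1 := EvS_hasPT ((fgtIso f L m).app K)
    (hasPT_rf ((rs L (bcTr f m)).obj K) hL hb hm (g2_of_iso e.symm hG))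
  have h2 : LocZero (smS A) ((rs L (bcFun f)).obj ((fgt L m F).obj K)) :=
    (locZero_iff_dies _).2 (dies_bc hb hf (fcmp f ((fgt L m F).obj K)) h1
      ((locZero_iff_dies _).1 h0))
  exact (h2.of_iso ((fgtIso f L m).app K).symm).of_iso e

theorem g2_kernel {P P' : PSh (Sm A) L} (φ : P ⟶ P') (h : L6.G2 π (rf P)) :
    L6.G2 π (rf (kernel φ)) :=
  G2.of_inj (rfHom (kernel.ι φ)) (rfHom φ) (fun _ _ _ ha => EvS_inj _ ha)
    (fun _ _ _ ha x => EvS_exact (ShortComplex.exact_kernel φ) ha x) h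

theorem g2_cokernel {P P' : PSh (Sm A) L} (φ : P ⟶ P') (h : L6.G2 π (rf P')) :
    L6.G2 π (rf (cokernel φ)) :=
  g2_of_app_surj (cokernel.π φ) (fun U => Site_surj _ U.unop) h

theorem evIso_of_evZero {B : Type} [CommRing B] {β : A →+* B} (hβ : EP β) {P P' : PSh (Sm A) L}
    (φ : P ⟶ P') (h1 : EvZero π β (rf (kernel φ))) (h2 : EvZero π β (rf (cokernel φ))) :
    EvIso π β (rfHom φ) := by
  constructor
  · intro E _ e he x hx
    have hE : EP (e.comp β) := S7.ep_etale hβ he.1
    obtain ⟨z, rfl⟩ := (EvS_exact (ShortComplex.exact_kernel φ) hE x).1 hx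
    obtain ⟨E', _, j, hj, hz⟩ := h1 E e he z
    have hE' : EP ((j.comp e).comp β) := S7.ep_etale hβ hj.1
    refine ⟨E', inferInstance, j, hj, ?_⟩
    exact ((rfHom (kernel.ι φ)).nat j rfl hE hE' z).symm.trans
      ((congrArg _ hz).trans (map_zero _))
  · intro E _ e he y
    have hE : EP (e.comp β) := S7.ep_etale hβ he.1
    obtain ⟨E', _, j, hj, hz⟩ := h2 E e he ((rfHom (cokernel.π φ)).app _ y)
    have hE' : EP ((j.comp e).comp β) := S7.ep_etale hβ hj.1
    obtain ⟨x, hx⟩ := (EvS_exact (ShortComplex.exact_cokernel φ) hE' ((rf P').map j rfl y)).1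
      (((rfHom (cokernel.π φ)).nat j rfl hE hE' y).trans hz)
    exact ⟨E', inferInstance, j, x, hj, hx⟩

theorem evIso_tor (hb : Base π ρ m) (hm : IsUnit (m : A)) (hL : (m : L) = 0)
    {P P' : PSh (TrS m A) L} [P.Additive] [P'.Additive] (φ : P ⟶ P')
    (hP : L6.G2 π (rf ((fgt L m A).obj P))) (hP' : L6.G2 π (rf ((fgt L m A).obj P')))
    (hi : LocInj (smS A) ((fgt L m A).map φ)) (hs : LocSurj (smS A) ((fgt L m A).map φ)) (r : ℕ) :
    EvIso π (torC A r) (rfHom ((fgt L m A).map φ)) := by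
  have := EvS_add_mono (kernel.ι φ)
  have := EvS_add_epi (cokernel.π φ)
  exact evIso_of_evZero (ep_torC A r) _
    (EvS_tor hb hm hL (kernel φ) (PreservesKernel.iso (fgt L m A) φ) (g2_kernel _ hP)
      ((locInj_iff_kernel _).1 hi) r)
    (EvS_tor hb hm hL (cokernel φ) (PreservesCokernel.iso (fgt L m A) φ) (g2_cokernel _ hP')
      ((locSurj_iff_cokernel _).1 hs) r)

theorem locIso_bc (hb : Base π ρ m) (hm : IsUnit (m : A)) (hL : (m : L) = 0) {f : A →+* F}
    (hf : RadBC π f) {P P' : PSh (TrS m F) L} [P.Additive] [P'.Additive] (φ : P ⟶ P')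
    (hP : L6.HInv (rf ((fgt L m F).obj P))) (hP' : L6.HInv (rf ((fgt L m F).obj P')))
    (hi : LocInj (smS F) ((fgt L m F).map φ)) (hs : LocSurj (smS F) ((fgt L m F).map φ)) :
    LocInj (smS A) ((fgt L m A).map ((rs L (bcTr f m)).map φ)) ∧
      LocSurj (smS A) ((fgt L m A).map ((rs L (bcTr f m)).map φ)) := by
  have := EvS_add_mono (kernel.ι φ)
  have := EvS_add_epi (cokernel.π φ)
  exact ⟨(locInj_iff_kernel _).2 (EvS_bc hb hm hL hf (kernel φ)
      (PreservesKernel.iso (rs L (bcTr f m) ⋙ fgt L m A) φ)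
      (g2_kernel _ (rig_rf f hb.noeth hf.ne hm hL P hP))
      (((locInj_iff_kernel _).1 hi).of_iso (PreservesKernel.iso (fgt L m F) φ).symm)),
    (locSurj_iff_cokernel _).2 (EvS_bc hb hm hL hf (cokernel φ)
      (PreservesCokernel.iso (rs L (bcTr f m) ⋙ fgt L m A) φ)
      (g2_cokernel _ (rig_rf f hb.noeth hf.ne hm hL P' hP'))
      (((locSurj_iff_cokernel _).1 hs).of_iso (PreservesCokernel.iso (fgt L m F) φ).symm))⟩

end Pool.Agent.KEW
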