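import Pool.Agent.P.MP_6277db_ag.KEW.L8b.Geo0

/-!
KEW project, layer L8b: a generically smooth hypersurface through a prime of small dimension.
-/

namespace KEW

universe u

open MvPolynomial

theorem geo_deg_pderiv {F σ : Type*} [CommRing F] (P : MvPolynomial σ F) (i : σ)
    (h : pderiv i P ≠ 0) : (pderiv i P).totalDegree < P.totalDegree := by
  classical
  obtain ⟨m, hm, hd⟩ := (pderiv i P).support.exists_mem_eq_sup (support_nonempty.2 h)
    (fun s => s.sum fun _ e => e)
  have h1 : m + Finsupp.single i 1 ∈ P.support := by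
    rw [mem_support_iff] at hm ⊢
    rw [coeff_pderiv] at hm
    exact left_ne_zero_of_mul hm
  have h2 := le_totalDegree h1
  rw [Finsupp.sum_add_index' (fun _ => rfl) (fun _ _ _ => rfl),
    Finsupp.sum_single_index rfl] at h2
  rw [totalDegree, hd]
  omega

/-- A relation with a non-vanishing derivative. -/
theorem geo_dt {F K σ : Type*} [Field F] [PerfectField F] [Field K] [Algebra F K] (y : σ → K)
    (h : ¬AlgebraicIndependent F y) :
    ∃ (P : MvPolynomial σ F) (i : σ), aeval y P = 0 ∧ aeval y (pderiv i P) ≠ 0 := by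
  classical
  rw [algebraicIndependent_iff] at h
  push Not at h
  have hex : ∃ n, ∃ P : MvPolynomial σ F, P ≠ 0 ∧ aeval y P = 0 ∧ P.totalDegree = n := by
    obtain ⟨P, h1, h2⟩ := h
    exact ⟨_, P, h2, h1, rfl⟩
  obtain ⟨P, hP0, hP, hd⟩ := Nat.find_spec hex
  have hmin : ∀ P' : MvPolynomial σ F, P' ≠ 0 → aeval y P' = 0 → P.totalDegree ≤ P'.totalDegree :=
    fun P' h1 h2 => hd ▸ Nat.find_min' hex ⟨P', h1, h2, rfl⟩
  have key : ∃ i, ∃ s ∈ P.support, ((s i : ℕ) : F) ≠ 0 := by
    obtain _ | ⟨p, hp, hpk⟩ := CharP.exists' F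
    · by_contra hc
      push Not at hc
      have h0 : P.totalDegree = 0 := by
        rw [totalDegree_eq_zero_iff]
        exact fun m hm i => by exact_mod_cast hc i m hm
      rw [totalDegree_eq_zero_iff_eq_C.1 h0, aeval_C, map_eq_zero] at hP
      exact hP0 (by rw [totalDegree_eq_zero_iff_eq_C.1 h0, hP, map_zero])
    · have : ExpChar F p := .prime hp.out
      have : CharP K p := .of_ringHom_of_ne_zero (algebraMap F K) p hp.out.ne_zero
      obtain ⟨i, s, hs, hi⟩ := exists_mem_support_not_dvd_of_forall_totalDegree_le p hp.out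
        (fun s hs => by
          refine hs.map_of_injective_injective (frobeniusEquiv F p).symm
            (frobenius K p).toAddMonoidHom (by simp) (by simp) fun r m => ?_
          change (_ • m) ^ p = r • m ^ p
          rw [_root_.smul_pow, ← map_pow, frobeniusEquiv_symm_pow])
        hmin hP0 hP
      exact ⟨i, s, hs, fun h => hi ((CharP.cast_eq_zero_iff F p _).1 h)⟩
  obtain ⟨i, s, hs, hi⟩ := key
  have hne : pderiv i P ≠ 0 := by
    intro h0
    have hsi : s i ≠ 0 := fun h => hi (by rw [h, Nat.cast_zero])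
    have h1 := coeff_pderiv (i := i) P (s - Finsupp.single i 1)
    rw [h0, coeff_zero, Finsupp.sub_add_single_one_cancel hsi, Finsupp.tsub_apply,
      Finsupp.single_eq_same, ← Nat.cast_succ, Nat.succ_eq_add_one,
      Nat.sub_add_cancel (Nat.pos_of_ne_zero hsi)] at h1
    exact mul_ne_zero (mem_support_iff.1 hs) hi h1.symm
  exact ⟨P, i, hP, fun h0 => (geo_deg_pderiv P i hne).not_ge (hmin _ hne h0)⟩

variable {F R S : Type u} [CommRing F] [CommRing R] [CommRing S]

/-- Singling out the variable `i`. -/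
noncomputable def geoSplit (F : Type u) [CommRing F] {D : ℕ} (i : Fin (D + 1)) :
    MvPolynomial (Fin (D + 1)) F ≃ₐ[F] Polynomial (MvPolynomial (Fin D) F) :=
  (renameEquiv F (finSuccEquiv' i)).trans (optionEquivLeft F (Fin D))

theorem geoSplit_at {D : ℕ} (i : Fin (D + 1)) : geoSplit F i (X i) = Polynomial.X := by
  simp [geoSplit, optionEquivLeft_X_none]

theorem geoSplit_ne {D : ℕ} (i : Fin (D + 1)) (j : Fin D) :
    geoSplit F i (X (i.succAbove j)) = Polynomial.C (X j) := by
  simp [geoSplit, optionEquivLeft_X_some]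

theorem geoSplit_C {D : ℕ} (i : Fin (D + 1)) (c : F) :
    geoSplit F i (C c) = Polynomial.C (C c) := by
  simp [geoSplit]

theorem geoSplit_eval {D : ℕ} (i : Fin (D + 1)) (a : F →+* R) (x : Fin (D + 1) → R) :
    (Polynomial.eval₂RingHom (eval₂Hom a fun j => x (i.succAbove j)) (x i)).comp
      (geoSplit F i).toRingEquiv.toRingHom = eval₂Hom a x := by
  refine ringHom_ext (fun c => ?_) fun j => ?_
  · simp [geoSplit_C]
  · refine Fin.succAboveCases i ?_ (fun j => ?_) j
    · simp [geoSplit_at]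
    · simp [geoSplit_ne]

theorem geoSplit_deriv {D : ℕ} (i : Fin (D + 1)) (P : MvPolynomial (Fin (D + 1)) F) :
    (geoSplit F i P).derivative = geoSplit F i (pderiv i P) := by
  induction P using MvPolynomial.induction_on with
  | C c => simp [geoSplit_C]
  | add p q hp hq => simp [hp, hq]
  | mul_X p j hp =>
    refine Fin.succAboveCases i ?_ (fun j => ?_) j
    · simp [hp, geoSplit_at, mul_comm]
    · simp [hp, geoSplit_ne, pderiv_X_of_ne (Fin.succAbove_ne i j), mul_comm]

theorem geo_etN_iff {D : ℕ} (i : Fin (D + 1)) (a : F →+* R) (x : Fin (D + 1) → R) :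
    EtN a x ↔ Et1 (eval₂Hom a fun j => x (i.succAbove j)) (x i) := by
  have he : (geoSplit F i).toRingEquiv.toRingHom.Etale :=
    RingHom.Etale.of_bijective (geoSplit F i).bijective
  unfold EtN Et1
  rw [← geoSplit_eval i a x]
  exact ⟨geo_cancel he, geo_comp he⟩

theorem geo_etN_comp {ι : Type} {a : F →+* R} {x : ι → R} (h : EtN a x) {φ : R →+* S}
    (hφ : φ.Etale) : EtN (φ.comp a) fun j => φ (x j) := by
  have := geo_comp h hφ
  rwa [comp_eval₂Hom] at this

theorem geo_ep_comp {a : F →+* R} (h : EP a) {φ : R →+* S} (hφ : φ.Etale) : EP (φ.comp a) :=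
  let ⟨n, _, hx⟩ := h
  ⟨n, _, geo_etN_comp hx hφ⟩

theorem geo_ep_C {a : F →+* R} (h : EP a) : EP ((Polynomial.C : R →+* Polynomial R).comp a) := by
  obtain ⟨n, x, hx⟩ := h
  refine ⟨n + 1, Fin.cons Polynomial.X fun j => Polynomial.C (x j), (geo_etN_iff 0 _ _).2 ?_⟩
  have := geo_map hx
  unfold Et1
  convert this using 1
  exact Polynomial.ringHom_ext' (ringHom_ext (fun c => by simp) fun j => by simp) (by simp)

theorem geo_isAway (f : R) : IsAway (algebraMap R (Localization.Away f)) f := by
  unfold IsAway IsLoc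
  rw [toAlgebra_algebraMap]
  exact (inferInstance : IsLocalization.Away f (Localization.Away f))

theorem geo_minprime {I p : Ideal R} (hp : p ∈ I.minimalPrimes) {t : R} (ht : t ∈ p) :
    ∃ s ∉ p, s * t ∈ I.radical := by
  have hpp : p.IsPrime := hp.1.1
  by_contra hc
  push Not at hc
  obtain ⟨q, hq, hIq, hd⟩ := Ideal.exists_le_prime_disjoint I (p.primeCompl ⊔ Submonoid.powers t)
    (Set.disjoint_left.2 fun x hx hx' => by
      obtain ⟨s, hs, _, ⟨n, rfl⟩, rfl⟩ := Submonoid.mem_sup.1 hx'
      refine hc s hs ⟨n + 1, ?_⟩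
      rw [show (s * t) ^ (n + 1) = s ^ n * t * (s * t ^ n) by ring]
      exact I.mul_mem_left _ hx)
  have h1 : q ≤ p := fun x hx => by_contra fun h =>
    Set.disjoint_left.1 hd hx (Submonoid.mem_sup_left h)
  exact Set.disjoint_left.1 hd (hp.2 ⟨hq, hIq⟩ h1 ht)
    (Submonoid.mem_sup_right (Submonoid.mem_powers t))

theorem geo_noeth [IsNoetherianRing F] {a : F →+* R} (h : EP a) : IsNoetherianRing R := by
  obtain ⟨n, x, hx⟩ := h
  let := (eval₂Hom a x).toAlgebra
  have : Algebra.FinitePresentation (MvPolynomial (Fin n) F) R := geo_fp hx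
  exact Algebra.FiniteType.isNoetherianRing (MvPolynomial (Fin n) F) R

end KEW
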