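import Pool.Agent.P.MP_6277db_ag.KEW.Eff.Trans
import Pool.Agent.P.MP_6277db_ag.KEW.G.Cut
import Pool.Agent.P.MP_6277db_ag.KEW.L8b.Rad
import Pool.Agent.P.MP_6277db_ag.KEW.L9.VAN

/-!
KEW project, layer L8b: the motive of a pair in affine space over the generic point comes from the perfect field.
-/

set_option backward.isDefEq.respectTransparency false

noncomputable section

open CategoryTheory Limits AlgebraicGeometry Opposite

namespace Pool.Agent.KEW

open _root_.KEW

variable {A F : Type} [CommRing A] [Field F] {L : Type 1} [CommRing L] {π : A} {m : ℕ}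

theorem mz_transport [IsDomain A] [IsDiscreteValuationRing A] (hπ : Irreducible π)
    (hm : IsUnit (m : A)) {f : A →+* F} (hf : RadBC π f) {D e : ℕ}
    {Z : Set 𝔸(Fin D; Spec (.of A))} (hZ : IsClosed Z)
    (h : ∀ z ∈ Z, z ∉ affSp A (Fin D) → TrLe (𝔸(Fin D; Spec (.of A)) ↘ Spec (.of A)) z e) :
    ∃ I : Ideal (MvPolynomial (Fin D) F), TD MvPolynomial.C I e ∧
      ∀ K : Ch (Sm A) L → Prop, Thick (NGen (smS A)) K →
        K ((mapC (JJ L f π)).obj (motT L m ⟨_, MvPolynomial.C, ∅, I⟩)) →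
        K ((sgl 0).obj (MZ A L m (Fin D) Z)) :=
  ⟨bcI f _ Z, td_of_trLe (hπ.maximalIdeal_eq.ge (Ideal.mem_span_singleton_self π)) hf hZ h,
    fun _ hK => (mz_iff hπ.maximalIdeal_eq hf hK hZ).2⟩

end Pool.Agent.KEW
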