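import Pool.Agent.P.MP_6277db_ag.KEW.L8b.Base
import Pool.Agent.P.MP_6277db_ag.KEW.L8b.D0
import Pool.Agent.P.MP_6277db_ag.KEW.L8b.Trans

/-!
KEW project, layer L8: the vanishing theorem.
-/

set_option backward.isDefEq.respectTransparency false

noncomputable section

open CategoryTheory Limits AlgebraicGeometry Opposite MonoidalCategory

namespace Pool.Agent.KEW

open _root_.KEW

theorem iterate_base {F R : Type} [CommRing F] [CommRing R] (a : F →+* R) : ∀ n : ℕ,
    RP.step^[n] (RP.base a) = ⟨Tor R n, (torC R n).comp a, torFam R n⟩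
  | 0 => rfl
  | n + 1 => by
    rw [Function.iterate_succ_apply', iterate_base a n]
    rfl

variable {A κ F : Type} [CommRing A] [IsDomain A] [IsDiscreteValuationRing A]
  [HenselianLocalRing A] [Field κ] [Field F] {π : A} {ρ : A →+* κ} {m : ℕ}

theorem orth_base [PerfectField F] (hπ : Irreducible π) (hb : Base π ρ m) (hm : IsUnit (m : A))
    {f : A →+* F} (hf : RadBC π f) {r n : ℕ} (hn : r ≤ n) {R : Type} [CommRing R] {a : F →+* R}
    (ha : a.FiniteType) (q : ℤ) :
    Orth (NGen (smS A)) ((src (ULift.{1} (ZMod m)) (smS A) q r).obj (𝟙_ _))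
      ((mapC (JJ _ f π)).obj ((sgl 0).obj ((fgt _ m F).obj
        (redP _ m ((torC R n).comp a) (torFam R n))))) := by
  have := hb.noeth
  obtain ⟨k, rfl⟩ := Nat.exists_eq_add_of_le hn
  obtain ⟨C, j, hC, hj, h1, h2⟩ := exists_cp hπ hb hm hf _ ((RP.good_base ha).iter k) r
  obtain ⟨G, ⟨d⟩, hG⟩ := exists_red A (ULift.{1} (ZMod m)) r
  refine hG _ (thick_orth_left _ _) ?_ q
  have := (((thick_orth_right (NGen (smS A)) ((sgl 0).obj G)).comap (JJ _ f π)
    (jj_gen hf)).wg_iff hj).2 (orth_jj (n := 1) hb hm (ULift.ext _ _ (ZMod.natCast_self m))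
      (IsDiscreteValuationRing.ringKrullDim_eq_one A).le hf hC h1 h2 d)
  rwa [← Function.iterate_add_apply, iterate_base] at this

/-- The vanishing theorem. -/
theorem van (A : Type) [CommRing A] [IsDomain A] [IsDiscreteValuationRing A] [HenselianLocalRing A]
    [PerfectField (IsLocalRing.ResidueField A)] (m : ℕ)
    (hm : (m : IsLocalRing.ResidueField A) ≠ 0) : VAN A (ULift.{1} (ZMod m)) m := by
  intro D e r Z hZ hD h q
  obtain ⟨π, hπ⟩ := IsDiscreteValuationRing.exists_irreducible A
  obtain ⟨F, _, _, f, hf⟩ := exists_radBC A hπ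
  have hb : Base π (IsLocalRing.residue A) m := ⟨inferInstance, IsLocalRing.residue_surjective,
    IsLocalRing.ker_residue.trans hπ.maximalIdeal_eq, inferInstance, hm.isUnit⟩
  have hm' : IsUnit (m : A) := (IsLocalRing.residue_ne_zero_iff_isUnit _).1 (by rwa [map_natCast])
  obtain ⟨I, h1, h2⟩ := mz_transport (L := ULift.{1} (ZMod m)) hπ hm' hf hZ h
  have hK := thick_orth_right (NGen (smS A))
    ((src (ULift.{1} (ZMod m)) (smS A) q r).obj (𝟙_ _))
  refine (h2 _ hK ((pairTh (hK.comap (JJ _ f π) (jj_gen hf)) r fun n R _ a ha hn =>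
    orth_base hπ hb hm' hf hn ha.finiteType q).eff e r 0 D MvPolynomial.C MvPolynomial.X I
      (Nat.le_add_left _ _) (by omega) (RingHom.Etale.of_bijective ?_) h1)).eq_zero
  rw [show MvPolynomial.eval₂Hom MvPolynomial.C MvPolynomial.X = RingHom.id _ from
    RingHom.ext MvPolynomial.eval₂_eta]
  exact Function.bijective_id

end Pool.Agent.KEW
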